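import Pool.Agent.V8H71.MS.Gr
import Pool.Agent.Y18.BSD.Dir
import Pool.Agent.W263.BSD.Curve

/-!
# Growth of the incomplete `L`-series of an elliptic curve
-/

set_option autoImplicit false
set_option maxHeartbeats 1000000

open UpperHalfPlane hiding I
open Filter Complex MatrixGroups MeasureTheory Set CongruenceSubgroup
open scoped Real Topology
open Pool.Agent.W263.BSD (pointCount GoodPrime IsLSeries)
open Pool.Agent.Y18.BSD (Cf tm lf)

namespace Pool.Agent.V8H71.MS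

variable {N : ℕ} [NeZero N] {f : CuspForm (Gamma0 N : Subgroup (GL (Fin 2) ℝ)) 2} {a b : ℤ}

/-- `f` is the newform of the curve `y² = x³ + a x + b` (standard properties) -/
structure Nf (a b : ℤ) (N : ℕ) (f : CuspForm (Gamma0 N : Subgroup (GL (Fin 2) ℝ)) 2) : Prop where
  cf : Cf N (fun n => (qExpansion 1 f).coeff n)
  pts : ∀ p : ℕ, GoodPrime a b p → ¬ p ∣ N ∧ (qExpansion 1 f).coeff p = (p : ℂ) - (pointCount a b p : ℂ)

/-- the primes dividing `2 Δ` -/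
noncomputable def Bd (a b : ℤ) : Finset ℕ := (2 * (-4 * a ^ 3 - 27 * b ^ 2)).natAbs.primeFactors

lemma mem_Bd (hΔ : 4 * a ^ 3 + 27 * b ^ 2 ≠ 0) (p : ℕ) :
    p ∈ Bd a b ↔ p.Prime ∧ (p : ℤ) ∣ 2 * (-4 * a ^ 3 - 27 * b ^ 2) := by
  have hD0' : 2 * (-4 * a ^ 3 - 27 * b ^ 2) ≠ 0 := by
    intro h
    apply hΔ
    omega
  unfold Bd
  rw [Nat.mem_primeFactors_of_ne_zero (by simpa using hD0')]
  rw [← Int.natCast_dvd]

lemma good_iff (hΔ : 4 * a ^ 3 + 27 * b ^ 2 ≠ 0) (p : ℕ) :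
    GoodPrime a b p ↔ p.Prime ∧ p ∉ Bd a b := by
  unfold GoodPrime
  rw [mem_Bd hΔ]
  tauto

/-- the coefficients -/
noncomputable def cq (f : CuspForm (Gamma0 N : Subgroup (GL (Fin 2) ℝ)) 2) (n : ℕ) : ℂ :=
  (qExpansion 1 f).coeff n

lemma chi_one (n : ZMod 1) : (1 : DirichletCharacter ℂ 1) n = 1 := by
  have : n = 1 := Subsingleton.elim _ _
  rw [this]
  simp

lemma F_eq_right (hΔ : 4 * a ^ 3 + 27 * b ^ 2 ≠ 0) {F : ℂ → ℂ} (hF : IsLSeries a b F)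
    (hf : Nf a b N f) {s : ℂ} (hs : 2 < s.re) :
    F s = ModularForm.L two_pos' f s * ∏ p ∈ Bd a b, lf N (cq f) (1 : DirichletCharacter ℂ 1) s p := by
  have hc : Cf N (cq f) := hf.cf
  have hs' : 3 / 2 < s.re := by linarith
  have h1 := hc.euler (1 : DirichletCharacter ℂ 1) hs'
  have h0 : ∑' n : ℕ, tm (cq f) (1 : DirichletCharacter ℂ 1) s n = ModularForm.L two_pos' f s := by
    refine HasSum.tsum_eq ?_
    have h := L_hasSum f hs
    refine h.congr_fun fun n => ?_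
    unfold tm
    rw [chi_one, one_mul, Complex.cpow_neg, div_eq_mul_inv]
    rfl
  rw [h0] at h1
  have h2 : HasProd (fun p : ℕ => if p ∈ Bd a b then lf N (cq f) (1 : DirichletCharacter ℂ 1) s p else 1)
      (∏ p ∈ Bd a b, lf N (cq f) (1 : DirichletCharacter ℂ 1) s p) := by
    have h3 : HasProd (fun p : ℕ => if p ∈ Bd a b then lf N (cq f) (1 : DirichletCharacter ℂ 1) s p else 1)
        (∏ p ∈ Bd a b, if p ∈ Bd a b then lf N (cq f) (1 : DirichletCharacter ℂ 1) s p else 1) :=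
      hasProd_prod_of_ne_finset_one (fun p hp => if_neg hp)
    rwa [Finset.prod_congr rfl (fun p hp => if_pos hp)] at h3
  have h3 := h1.mul h2
  refine (hF.2 s (by exact_mod_cast hs')).unique ?_
  refine (congrArg (fun g => HasProd g (ModularForm.L two_pos' f s *
    ∏ p ∈ Bd a b, lf N (cq f) (1 : DirichletCharacter ℂ 1) s p)) (funext fun p => ?_)).mp h3
  by_cases hp : p.Prime
  · rw [if_pos hp]
    by_cases hpB : p ∈ Bd a b
    · have h4 : ¬ GoodPrime a b p := by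
        rw [good_iff hΔ]
        tauto
      rw [if_pos hpB, if_neg h4, inv_mul_cancel₀ (hc.lf_ne _ hs' hp)]
    · have hpg : GoodPrime a b p := (good_iff hΔ p).2 ⟨hp, hpB⟩
      obtain ⟨hpN, hcp⟩ := hf.pts p hpg
      rw [if_neg hpB, mul_one, if_pos hpg]
      congr 1
      unfold lf cq
      rw [hcp, if_neg hpN, chi_one]
      ring
  · have h4 : ¬ GoodPrime a b p := fun h => hp h.1
    have h5 : p ∉ Bd a b := fun h => hp ((mem_Bd hΔ p).1 h).1
    rw [if_neg hp, if_neg h4, if_neg h5, mul_one]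

lemma lf_diff {p : ℕ} (hp : p.Prime) (c : ℕ → ℂ) :
    Differentiable ℂ (fun s : ℂ => lf N c (1 : DirichletCharacter ℂ 1) s p) := by
  have hp0 : (p : ℂ) ≠ 0 := by exact_mod_cast hp.ne_zero
  unfold lf
  have h1 : Differentiable ℂ (fun s : ℂ => (p : ℂ) ^ (-s)) := fun s =>
    DifferentiableAt.const_cpow (by fun_prop) (Or.inl hp0)
  have h2 : Differentiable ℂ (fun s : ℂ => (p : ℂ) ^ (1 - 2 * s)) := fun s =>
    DifferentiableAt.const_cpow (by fun_prop) (Or.inl hp0)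
  split_ifs
  · fun_prop
  · fun_prop

lemma F_eq (hΔ : 4 * a ^ 3 + 27 * b ^ 2 ≠ 0) {F : ℂ → ℂ} (hF : IsLSeries a b F)
    (hf : Nf a b N f) (s : ℂ) :
    F s = ModularForm.L two_pos' f s * ∏ p ∈ Bd a b, lf N (cq f) (1 : DirichletCharacter ℂ 1) s p := by
  set G : ℂ → ℂ := fun s => ModularForm.L two_pos' f s *
    ∏ p ∈ Bd a b, lf N (cq f) (1 : DirichletCharacter ℂ 1) s p with hG
  have hGd : Differentiable ℂ G := by
    refine (CuspForm.differentiable_L two_pos' f).mul (Differentiable.fun_finsetProd fun p hp => ?_)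
    exact lf_diff ((mem_Bd hΔ p).1 hp).1 _
  have hA : AnalyticOnNhd ℂ F Set.univ := fun s _ => hF.1.analyticAt s
  have hB : AnalyticOnNhd ℂ G Set.univ := fun s _ => hGd.analyticAt s
  have hev : F =ᶠ[𝓝 (3 : ℂ)] G := by
    have hopen : IsOpen {s : ℂ | (2 : ℝ) < s.re} := isOpen_lt continuous_const Complex.continuous_re
    filter_upwards [hopen.mem_nhds (show (3 : ℂ) ∈ {s : ℂ | (2 : ℝ) < s.re} by
      show (2 : ℝ) < (3 : ℂ).re
      norm_num)] with s hs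
    exact F_eq_right hΔ hF hf hs
  exact congrFun (hA.eq_of_eventuallyEq hB hev) s

lemma lf_bound {p : ℕ} (hp : p.Prime) (c : ℕ → ℂ) {s : ℂ} (hs : -1 / 2 ≤ s.re) :
    ‖lf N c (1 : DirichletCharacter ℂ 1) s p‖ ≤ 1 + ‖c p‖ * p + (p : ℝ) ^ 2 := by
  have hp1 : (1 : ℝ) ≤ p := by exact_mod_cast hp.one_le
  unfold lf
  rw [chi_one]
  have h1 : ‖(p : ℂ) ^ (-s)‖ ≤ p := by
    rw [Complex.norm_natCast_cpow_of_pos hp.pos, neg_re]
    calc (p : ℝ) ^ (-s.re) ≤ (p : ℝ) ^ (1 : ℝ) := Real.rpow_le_rpow_of_exponent_le hp1 (by linarith)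
      _ = p := Real.rpow_one _
  have h2 : ‖(p : ℂ) ^ (1 - 2 * s)‖ ≤ (p : ℝ) ^ 2 := by
    rw [Complex.norm_natCast_cpow_of_pos hp.pos]
    have e : (1 - 2 * s).re = 1 - 2 * s.re := by simp
    rw [e]
    calc (p : ℝ) ^ (1 - 2 * s.re) ≤ (p : ℝ) ^ ((2 : ℕ) : ℝ) :=
          Real.rpow_le_rpow_of_exponent_le hp1 (by push_cast; linarith)
      _ = (p : ℝ) ^ 2 := Real.rpow_natCast _ _
  have h3 : ‖(if p ∣ N then (0 : ℂ) else (1 : ℂ) ^ 2 * (p : ℂ) ^ (1 - 2 * s))‖ ≤ (p : ℝ) ^ 2 := by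
    split_ifs
    · rw [norm_zero]; positivity
    · rw [one_pow, one_mul]; exact h2
  refine (norm_add_le _ _).trans (add_le_add ((norm_sub_le _ _).trans ?_) h3)
  rw [norm_one, one_mul, norm_mul]
  gcongr

/-- **growth** of the incomplete `L`-series -/
theorem F_growth (hΔ : 4 * a ^ 3 + 27 * b ^ 2 ≠ 0) {F : ℂ → ℂ} (hF : IsLSeries a b F)
    (hf : Nf a b N f) : ∃ C : ℝ, 0 ≤ C ∧ ∀ s : ℂ, -1 / 2 ≤ s.re → ‖F s‖ ≤ C * ‖s + 5‖ ^ 3 := by
  obtain ⟨C, hC, h⟩ := L_growth f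
  set K : ℝ := ∏ p ∈ Bd a b, (1 + ‖cq f p‖ * p + (p : ℝ) ^ 2) with hK
  have hK0 : 0 ≤ K := Finset.prod_nonneg fun p _ => by positivity
  refine ⟨C * K, by positivity, fun s hs => ?_⟩
  rw [F_eq hΔ hF hf s, norm_mul, norm_prod]
  have h1 : ∏ p ∈ Bd a b, ‖lf N (cq f) (1 : DirichletCharacter ℂ 1) s p‖ ≤ K :=
    Finset.prod_le_prod (fun _ _ => norm_nonneg _) fun p hp => lf_bound ((mem_Bd hΔ p).1 hp).1 _ hs
  calc ‖ModularForm.L two_pos' f s‖ * ∏ p ∈ Bd a b, ‖lf N (cq f) (1 : DirichletCharacter ℂ 1) s p‖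
      ≤ (C * ‖s + 5‖ ^ 3) * K := mul_le_mul (h s hs) h1 (Finset.prod_nonneg fun _ _ => norm_nonneg _)
        (by positivity)
    _ = _ := by ring

end Pool.Agent.V8H71.MS
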