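import Pool.Agent.V8H71.MS.Lg5
import Pool.Agent.V8H71.MS.Gr2
import Pool.Agent.V8H22.BSW.A8

/-!
# The analytic data of an elliptic curve
-/

set_option autoImplicit false
set_option maxHeartbeats 1000000

open MeasureTheory Filter Topology Set Complex Metric CongruenceSubgroup MatrixGroups
open Pool.Agent.V8H22.BSW (WD U Gw G4 f4 wd g4_norm g4_summable G4_zero G4_diff split split_real exists_fac' lead_unique)
open Pool.Agent.W263.BSD hiding TT
open Pool.Agent.Y18.BSD (exists_roots')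

namespace Pool.Agent.V8H71.MS

variable {a b : ℤ}

/-- the local factors do not vanish for `Re w > -1/2` -/
lemma ef_ne {p : ℕ} (hp : p.Prime) (h : |(p : ℝ) - pointCount a b p| ≤ 2 * √p) {w : ℂ}
    (hw : -(1 / 2) < w.re) : ef a b p w ≠ 0 := by
  have hp0 : (0 : ℝ) < p := by exact_mod_cast hp.pos
  have hp1 : (1 : ℝ) < p := by exact_mod_cast hp.one_lt
  have hpc : (p : ℂ) ≠ 0 := by exact_mod_cast hp.ne_zero
  obtain ⟨α, β, hα, hβ, hs, hm⟩ := exists_roots' hp0 h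
  have e : ef a b p w = (1 - α * xp p w / p) * (1 - β * xp p w / p) := by
    rw [ef_eq hp.one_le]
    unfold fac tt Ap
    have h1 : ((dl p : ℝ) : ℂ) ^ 2 = 1 / p := by
      rw [← Complex.ofReal_pow, dl_sq hp.one_le]
      push_cast; rfl
    have h2 : (1 - α * xp p w / p) * (1 - β * xp p w / p) =
        1 - (α + β) * xp p w / p + (α * β) * xp p w ^ 2 / p ^ 2 := by
      field_simp
      ring
    rw [h1, h2, hs, hm]
    push_cast
    field_simp
  have key : ∀ γ : ℂ, ‖γ‖ = √p → 1 - γ * xp p w / p ≠ 0 := by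
    intro γ hγ h0
    have h1 : ‖γ * xp p w / p‖ = 1 := by
      rw [← sub_eq_zero.1 h0, norm_one]
    rw [norm_div, norm_mul, hγ, norm_xp hp.one_le, Complex.norm_natCast] at h1
    have e2 : √(p : ℝ) * (p : ℝ) ^ (-w.re) / p = (p : ℝ) ^ (-(1 / 2) - w.re) := by
      rw [Real.sqrt_eq_rpow, div_eq_iff hp0.ne', ← Real.rpow_add hp0]
      nth_rewrite 3 [← Real.rpow_one (p : ℝ)]
      rw [← Real.rpow_add hp0]
      congr 1
      ring
    rw [e2] at h1
    have h3 := Real.rpow_lt_one_of_one_lt_of_neg hp1 (show -(1 / 2) - w.re < 0 by linarith)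
    linarith
  rw [e]
  exact mul_ne_zero (key α hα) (key β hβ)

lemma small_ne (hH : ∀ p : ℕ, GoodPrime a b p → |(p : ℝ) - pointCount a b p| ≤ 2 * √p) {w : ℂ}
    (hw : -(1 / 2) < w.re) : small a b w ≠ 0 := by
  unfold small
  rw [Finset.prod_ne_zero_iff]
  intro p _
  split_ifs with h
  · exact ef_ne h.1 (hH p h) hw
  · exact one_ne_zero

lemma small_bound : ∃ C : ℝ, 0 ≤ C ∧ ∀ w : ℂ, -1 ≤ w.re → ‖small a b w‖ ≤ C := by
  refine ⟨∏ p ∈ Finset.range 25, (1 + ((p : ℝ) + pointCount a b p) + p), ?_, fun w hw => ?_⟩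
  · exact Finset.prod_nonneg fun p _ => by positivity
  · unfold small
    rw [norm_prod]
    refine Finset.prod_le_prod (fun _ _ => norm_nonneg _) fun p _ => ?_
    split_ifs with h
    · have hp := h.1
      have hp1 : (1 : ℝ) ≤ p := by exact_mod_cast hp.one_le
      have h1 : ‖(p : ℂ) ^ (-(1 + w))‖ ≤ 1 := by
        rw [Complex.norm_natCast_cpow_of_pos hp.pos]
        refine Real.rpow_le_one_of_one_le_of_nonpos hp1 ?_
        simp
        linarith
      have h2 : ‖(p : ℂ) ^ (1 - 2 * (1 + w))‖ ≤ p := by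
        rw [Complex.norm_natCast_cpow_of_pos hp.pos]
        nth_rewrite 2 [← Real.rpow_one (p : ℝ)]
        refine Real.rpow_le_rpow_of_exponent_le hp1 ?_
        simp
        linarith
      have h3 : ‖(p : ℂ) - (pointCount a b p : ℂ)‖ ≤ (p : ℝ) + pointCount a b p := by
        refine (norm_sub_le _ _).trans ?_
        rw [Complex.norm_natCast, Complex.norm_natCast]
      unfold ef
      refine (norm_add_le _ _).trans (add_le_add ((norm_sub_le _ _).trans (add_le_add ?_ ?_)) h2)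
      · rw [norm_one]
      · rw [norm_mul]
        calc ‖(p : ℂ) - (pointCount a b p : ℂ)‖ * ‖(p : ℂ) ^ (-(1 + w))‖
            ≤ ((p : ℝ) + pointCount a b p) * 1 := by gcongr
          _ = _ := mul_one _
    · rw [norm_one]
      have : (0 : ℝ) ≤ ((p : ℝ) + pointCount a b p) + p := by positivity
      linarith

variable {S : Set ℕ} {A : ℕ → ℝ}

lemma G4_bound (E : EData S A) : ∃ C : ℝ, ∀ z : ℂ, -(1 / 100) < z.re → ‖G4 S A z‖ ≤ C :=
  ⟨_, fun z hz => tsum_of_norm_bounded g4_summable.hasSum fun p => g4_norm E p hz⟩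

lemma G4_deriv (E : EData S A) : ∃ C : ℝ, ∀ z : ℂ, 0 < z.re → ‖deriv (G4 S A) z‖ ≤ C := by
  obtain ⟨C, hC⟩ := G4_bound E
  refine ⟨C / (1 / 200), fun z hz => ?_⟩
  have hre : ∀ w ∈ closedBall z (1 / 200), -(1 / 100) < w.re := by
    intro w hw
    rw [mem_closedBall, dist_eq_norm] at hw
    have h1 := Complex.abs_re_le_norm (w - z)
    rw [Complex.sub_re] at h1
    have := neg_abs_le (w.re - z.re)
    linarith
  refine Complex.norm_deriv_le_of_forall_mem_sphere_norm_le (by norm_num) ?_ ?_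
  · refine DifferentiableOn.diffContOnCl fun w hw => ?_
    have h2 := closure_ball_subset_closedBall hw
    exact (G4_diff E (hre w h2)).differentiableWithinAt
  · intro w hw
    exact hC w (hre w (sphere_subset_closedBall hw))

lemma G4_im (E : EData S A) {x : ℝ} (hx : 0 < x) : (G4 S A x).im = 0 := by
  have h := split_real E hx
  have h1 : G4 S A x = GG S A x - (x : ℂ) * lapC (sc S A) x := by rw [h]; ring
  rw [h1, lapC_ofReal, ← Complex.ofReal_mul, Complex.sub_im, E.GG_im hx, Complex.ofReal_im, sub_zero]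

lemma U_f4 (E : EData S A) {z : ℂ} (hz : 2 < z.re) :
    U (f4 S A) 0 z = lapC (aak S A 0) z - lapC (sc S A) z := by
  unfold U lapC
  rw [← integral_sub (LInt.complex (aak_measurable 0) (E.aak_LInt 0 hz))
    (LInt.complex sc_meas (E.sc_LInt (by linarith)))]
  congr 1
  funext u
  unfold f4
  push_cast
  ring

lemma three_bound (E : EData S A) :
    ∃ C : ℝ, ∀ t : ℝ, ‖G4 S A ⟨3, t⟩ - ⟨3, t⟩ * U (f4 S A) 0 ⟨3, t⟩‖ ≤ C := by
  have hs3 : Summable fun p : ℕ => (p : ℝ) ^ (-(3 : ℝ)) := Real.summable_nat_rpow.mpr (by norm_num)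
  refine ⟨(∑' p : ℕ, (2 * (p : ℝ) ^ (-1 - (1 : ℝ)) + 60 * (p : ℝ) ^ (-(3 / 2) : ℝ))) +
    ∑' p : ℕ, (p : ℝ) ^ (-(3 : ℝ)), fun t => ?_⟩
  set z : ℂ := ⟨3, t⟩ with hz
  have hzre : z.re = 3 := rfl
  have h1 : G4 S A z - z * U (f4 S A) 0 z = GG S A z - z * lapC (aak S A 0) z := by
    rw [U_f4 E (by rw [hzre]; norm_num)]
    have := split E (z := z) (by rw [hzre]; norm_num)
    linear_combination this
  rw [h1]
  refine (norm_sub_le _ _).trans (add_le_add ?_ ?_)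
  · unfold GG
    refine tsum_of_norm_bounded (summable_bound one_pos).hasSum fun p => ?_
    exact E.gterm_norm one_pos p (by rw [hzre]; norm_num)
  · have h2 := lap_hasSum E 0 (w := z) (by rw [hzre]; norm_num)
    rw [zero_add, pow_one] at h2
    rw [← h2.tsum_eq]
    refine tsum_of_norm_bounded hs3.hasSum fun p => ?_
    split_ifs with hp
    · have h25 := E.big p hp
      rw [norm_mul, Complex.norm_real, Real.norm_eq_abs, norm_xp (by omega), hzre]
      have h3 := E.cc_abs hp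
      have h4 : (0 : ℝ) ≤ (p : ℝ) ^ (-(3 : ℝ)) := by positivity
      nlinarith
    · rw [norm_zero]; positivity

variable {N : ℕ} [NeZero N] {f : CuspForm (Gamma0 N : Subgroup (GL (Fin 2) ℝ)) 2}

lemma Nf.hasse (hf : Nf a b N f) {p : ℕ} (hp : GoodPrime a b p) :
    |(p : ℝ) - pointCount a b p| ≤ 2 * √p := by
  obtain ⟨h1, h2⟩ := hf.pts p hp
  have h3 := hf.cf.good p hp.1 h1
  have h4 : ‖(p : ℂ) - (pointCount a b p : ℂ)‖ ≤ 2 * √p := by
    rw [← h2]
    exact h3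
  have e : (p : ℂ) - (pointCount a b p : ℂ) = (((p : ℝ) - pointCount a b p : ℝ) : ℂ) := by
    push_cast; rfl
  rw [e, Complex.norm_real, Real.norm_eq_abs] at h4
  exact h4

lemma phi_gro (hΔ : 4 * a ^ 3 + 27 * b ^ 2 ≠ 0) {F : ℂ → ℂ} (hF : IsLSeries a b F)
    (hf : Nf a b N f) : ∃ C : ℝ, 0 ≤ C ∧ ∀ z : ℂ, -1 ≤ z.re → ‖PhiF a b F z‖ ≤ C * ‖z + 6‖ ^ 3 := by
  obtain ⟨C1, hC1, h1⟩ := F_growth hΔ hF hf
  obtain ⟨C2, hC2, h2⟩ := small_bound (a := a) (b := b)
  refine ⟨C1 * C2, by positivity, fun z hz => ?_⟩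
  unfold PhiF
  rw [norm_mul]
  have h3 := h1 (1 + z) (by rw [Complex.add_re, Complex.one_re]; linarith)
  have e : (1 : ℂ) + z + 5 = z + 6 := by ring
  rw [e] at h3
  calc ‖F (1 + z)‖ * ‖small a b z‖ ≤ (C1 * ‖z + 6‖ ^ 3) * C2 :=
        mul_le_mul h3 (h2 z hz) (norm_nonneg _) (by positivity)
    _ = _ := by ring

/-- **the data of an elliptic curve** -/
theorem an_of (hΔ : 4 * a ^ 3 + 27 * b ^ 2 ≠ 0) {F : ℂ → ℂ} (hF : IsLSeries a b F)
    (hf : Nf a b N f) {r : ℕ} (hr : analyticOrderAt F 1 = r) {Θ : ℝ} (h0 : 0 ≤ Θ) (h2 : Θ < 2)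
    (hz : ∀ s : ℂ, 1 + Θ < s.re → F s ≠ 0) :
    ∃ (B : ℝ) (Φ1 : ℂ → ℂ), An (f4 (SS a b) (Ap a b)) B (PhiF a b F) (G4 (SS a b) (Ap a b)) Φ1 r Θ ∧
      ‖Φ1 0‖ = leadAbs F r * ‖small a b 0‖ := by
  obtain ⟨B, D⟩ := wd (eData a b) (data 0 hF)
  obtain ⟨hlead, -⟩ := lead_limit hF.1 hr
  have hc0 : 0 < leadAbs F r * ‖small a b 0‖ := mul_pos hlead small_norm_pos
  have h3ne : PhiF a b F 3 ≠ 0 := D.ne_zero (by norm_num)
  obtain ⟨m, Φ1, hΦ1, hfac, hne1, -⟩ := exists_fac' D.hΦ h3ne 0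
  have hfac' : ∀ z, PhiF a b F z = z ^ m * Φ1 z := fun z => by rw [hfac z, sub_zero]
  obtain ⟨hmr, hcc⟩ := lead_unique hΦ1 hfac' hne1 hc0 (phi_limit hF hr)
  subst hmr
  obtain ⟨C4, hC4⟩ := G4_bound (eData a b)
  refine ⟨B, Φ1, ⟨D, G4_zero (eData a b), fun x hx => G4_im (eData a b) hx,
    ⟨C4, fun z hz => hC4 z (by linarith)⟩, G4_deriv (eData a b), phi_gro hΔ hF hf,
    three_bound (eData a b), hΦ1, hfac', hne1, h0, h2, fun z hz' => ?_⟩, hcc⟩
  unfold PhiF
  refine mul_ne_zero (hz _ ?_) (small_ne (fun p hp => hf.hasse hp) (by linarith))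
  rw [Complex.add_re, Complex.one_re]
  linarith

end Pool.Agent.V8H71.MS
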