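import Pool.Agent.V8H71.MS.Ap

/-!
# Preparations for the final theorem
-/

set_option autoImplicit false
set_option maxHeartbeats 1000000

open MeasureTheory Filter Topology Set Classical
open Pool.Agent.W263.BSD hiding TT

namespace Pool.Agent.V8H71.MS

/-- a dyadic decomposition -/
lemma dyadic {g : ℝ → ℝ} (hg : ∀ u, 0 ≤ g u) {C : ℝ}
    (h : ∀ T : ℝ, 1 ≤ T → IntegrableOn g (Ioc 1 T) ∧ ∫ u in Ioc 1 T, g u ≤ C * T) {s : ℝ}
    (hs : 1 < s) : IntegrableOn (fun u => u ^ (-s) * g u) (Ioi 1) := by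
  set I : ℕ → Set ℝ := fun k => Ioc ((2 : ℝ) ^ k) ((2 : ℝ) ^ (k + 1)) with hI
  have hcov : Ioi (1 : ℝ) ⊆ ⋃ k, I k := by
    intro u hu
    have hu1 : (1 : ℝ) < u := hu
    obtain ⟨n, hn1, hn2⟩ := exists_nat_pow_near_of_lt_one (x := u⁻¹) (y := (2 : ℝ)⁻¹) (by positivity)
      (inv_le_one_of_one_le₀ hu1.le) (by norm_num) (by norm_num)
    rw [inv_pow] at hn1 hn2
    rw [mem_iUnion]
    have h1 : (2 : ℝ) ^ n ≤ u := by
      rw [inv_le_inv₀ (by positivity) (by positivity)] at hn2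
      exact hn2
    have h2 : u < (2 : ℝ) ^ (n + 1) := by
      rw [inv_lt_inv₀ (by positivity) (by positivity)] at hn1
      exact hn1
    rcases h1.eq_or_lt with h3 | h3
    · rcases n with _ | m
      · simp only [pow_zero] at h3
        linarith
      · refine ⟨m, ?_, h3.ge⟩
        rw [← h3]
        exact pow_lt_pow_right₀ (by norm_num) (Nat.lt_succ_self m)
    · exact ⟨n, h3, h2.le⟩
  have hC : 0 ≤ C := by
    obtain ⟨-, h2⟩ := h 1 le_rfl
    have h3 : 0 ≤ ∫ u in Ioc (1 : ℝ) 1, g u := setIntegral_nonneg measurableSet_Ioc fun u _ => hg u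
    linarith
  have hk1 : ∀ k : ℕ, (1 : ℝ) ≤ 2 ^ k := fun k => one_le_pow₀ (by norm_num)
  have hsub : ∀ k, I k ⊆ Ioc 1 ((2 : ℝ) ^ (k + 1)) := fun k => Ioc_subset_Ioc_left (hk1 k)
  have hgI : ∀ k, IntegrableOn g (I k) := fun k => (h _ (hk1 (k + 1))).1.mono_set (hsub k)
  have hpt : ∀ k, ∀ u ∈ I k, ‖u ^ (-s) * g u‖ ≤ ((2 : ℝ) ^ k) ^ (-s) * g u := by
    intro k u hu
    have hu0 : 0 < u := lt_trans (by positivity) hu.1
    rw [Real.norm_of_nonneg (mul_nonneg (by positivity) (hg u))]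
    refine mul_le_mul_of_nonneg_right ?_ (hg u)
    exact Real.rpow_le_rpow_of_nonpos (by positivity) hu.1.le (by linarith)
  have hm : Measurable fun u : ℝ => u ^ (-s) := by fun_prop
  have hi : ∀ k, IntegrableOn (fun u => u ^ (-s) * g u) (I k) := by
    intro k
    refine Integrable.mono' ((hgI k).const_mul (((2 : ℝ) ^ k) ^ (-s)))
      (hm.aestronglyMeasurable.mul (hgI k).aestronglyMeasurable) ?_
    exact (ae_restrict_iff' measurableSet_Ioc).mpr (Eventually.of_forall fun u hu => hpt k u hu)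
  refine (integrableOn_iUnion_of_summable_integral_norm hi ?_).mono_set hcov
  have hgeo : Summable fun k : ℕ => (2 * C) * ((2 : ℝ) ^ (1 - s)) ^ k := by
    refine Summable.mul_left _ (summable_geometric_of_lt_one (by positivity) ?_)
    exact Real.rpow_lt_one_of_one_lt_of_neg (by norm_num) (by linarith)
  refine Summable.of_nonneg_of_le (fun k => integral_nonneg fun u => norm_nonneg _) (fun k => ?_) hgeo
  calc ∫ u in I k, ‖u ^ (-s) * g u‖ ≤ ∫ u in I k, ((2 : ℝ) ^ k) ^ (-s) * g u :=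
        setIntegral_mono_on (hi k).norm ((hgI k).const_mul _) measurableSet_Ioc (hpt k)
    _ = ((2 : ℝ) ^ k) ^ (-s) * ∫ u in I k, g u := integral_const_mul _ _
    _ ≤ ((2 : ℝ) ^ k) ^ (-s) * (C * 2 ^ (k + 1)) := by
        refine mul_le_mul_of_nonneg_left ?_ (by positivity)
        refine le_trans ?_ (h _ (hk1 (k + 1))).2
        exact setIntegral_mono_set (h _ (hk1 (k + 1))).1
          ((ae_restrict_iff' measurableSet_Ioc).mpr (Eventually.of_forall fun u _ => hg u))
          (HasSubset.Subset.eventuallyLE (hsub k))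
    _ = (2 * C) * ((2 : ℝ) ^ (1 - s)) ^ k := by
        rw [← Real.rpow_natCast, ← Real.rpow_mul (by norm_num), ← Real.rpow_natCast,
          ← Real.rpow_natCast, ← Real.rpow_mul (by norm_num)]
        have e : (2 : ℝ) ^ ((1 - s) * (k : ℝ)) = (2 : ℝ) ^ ((k : ℝ) * -s) * 2 ^ (k : ℝ) := by
          rw [← Real.rpow_add (by norm_num)]
          congr 1
          ring
        have e2 : (2 : ℝ) ^ (((k + 1 : ℕ) : ℝ)) = 2 ^ (k : ℝ) * 2 := by
          push_cast
          rw [Real.rpow_add (by norm_num), Real.rpow_one]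
        rw [e, e2]
        ring

/-- from power weights to exponential weights -/
lemma LInt_of_pow {g : ℝ → ℝ} (hm : Measurable g) {M : ℝ} (hM : ∀ u, 0 < u → u ≤ 1 → |g u| ≤ M)
    {κ : ℝ} (h : IntegrableOn (fun u => u ^ κ * g u) (Ioi 1)) {w : ℝ} (hw : 0 < w) : LInt g w := by
  unfold LInt
  rw [← Ioc_union_Ioi_eq_Ioi (zero_le_one (α := ℝ))]
  refine IntegrableOn.union ?_ ?_
  · have hM0 : 0 ≤ M := (abs_nonneg _).trans (hM 1 one_pos le_rfl)
    refine Measure.integrableOn_of_bounded (M := M) (by simp) (hm.mul (by fun_prop)).aestronglyMeasurable ?_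
    refine (ae_restrict_iff' measurableSet_Ioc).mpr (Eventually.of_forall fun u hu => ?_)
    rw [norm_mul, Real.norm_eq_abs, Real.norm_of_nonneg (Real.exp_pos _).le]
    have h1 : Real.exp (-(w * u)) ≤ 1 := Real.exp_le_one_iff.2 (by have := hu.1; nlinarith)
    have h2 := hM u hu.1 hu.2
    calc |g u| * Real.exp (-(w * u)) ≤ M * 1 := mul_le_mul h2 h1 (Real.exp_pos _).le hM0
      _ = M := mul_one _
  · obtain ⟨n, hn⟩ := exists_nat_gt (-κ)
    have hK : ∀ u : ℝ, 1 < u → Real.exp (-(w * u)) ≤ ((n.factorial : ℝ) / w ^ n) * u ^ κ := by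
      intro u hu
      have hu0 : 0 < u := by linarith
      have h1 := Real.pow_div_factorial_le_exp (w * u) (by positivity) n
      have hnf : (0 : ℝ) < n.factorial := by positivity
      rw [Real.exp_neg]
      have h2 : (Real.exp (w * u))⁻¹ ≤ ((w * u) ^ n / n.factorial)⁻¹ :=
        inv_anti₀ (by positivity) h1
      refine h2.trans ?_
      have h3 : ((w * u) ^ n / (n.factorial : ℝ))⁻¹ = (n.factorial : ℝ) / w ^ n * (u ^ n)⁻¹ := by
        rw [mul_pow]
        field_simp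
      rw [h3]
      refine mul_le_mul_of_nonneg_left ?_ (by positivity)
      rw [← Real.rpow_natCast, ← Real.rpow_neg hu0.le]
      exact Real.rpow_le_rpow_of_exponent_le hu.le (by linarith)
    refine Integrable.mono (h.const_mul ((n.factorial : ℝ) / w ^ n)) (hm.mul (by fun_prop)).aestronglyMeasurable ?_
    refine (ae_restrict_iff' measurableSet_Ioi).mpr (Eventually.of_forall fun u hu => ?_)
    have hu1 : (1 : ℝ) < u := hu
    have hu0 : 0 < u := by linarith
    rw [norm_mul, norm_mul, norm_mul, Real.norm_of_nonneg (Real.exp_pos _).le,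
      Real.norm_of_nonneg (show (0 : ℝ) ≤ (n.factorial : ℝ) / w ^ n by positivity),
      Real.norm_of_nonneg (show (0 : ℝ) ≤ u ^ κ by positivity)]
    calc ‖g u‖ * Real.exp (-(w * u)) ≤ ‖g u‖ * (((n.factorial : ℝ) / w ^ n) * u ^ κ) :=
          mul_le_mul_of_nonneg_left (hK u hu1) (norm_nonneg _)
      _ = _ := by ring

/-- change of variables -/
lemma cov_int (g : ℝ → ℝ) {X Y : ℝ} (hX : 0 < X) (hY : 0 < Y) :
    ∫ x in Ioc X Y, g x / x = ∫ u in Ioc (Real.log X) (Real.log Y), g (Real.exp u) := by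
  have him : Ioc X Y = Real.exp '' Ioc (Real.log X) (Real.log Y) := by
    ext x
    constructor
    · rintro ⟨h1, h2⟩
      have hx : 0 < x := hX.trans h1
      exact ⟨Real.log x, ⟨Real.log_lt_log hX h1, Real.log_le_log hx h2⟩, Real.exp_log hx⟩
    · rintro ⟨u, ⟨h1, h2⟩, rfl⟩
      exact ⟨(Real.log_lt_iff_lt_exp hX).1 h1, (Real.le_log_iff_exp_le hY).1 h2⟩
  rw [him, integral_image_eq_integral_abs_deriv_smul measurableSet_Ioc
    (fun u _ => (Real.hasDerivAt_exp u).hasDerivWithinAt) Real.exp_injective.injOn]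
  refine setIntegral_congr_fun measurableSet_Ioc fun u _ => ?_
  have := Real.exp_pos u
  simp only [smul_eq_mul]
  rw [abs_of_pos this]
  field_simp

lemma exp_image_Ioi (c : ℝ) : Real.exp '' Ioi c = Ioi (Real.exp c) := by
  ext x
  constructor
  · rintro ⟨u, h1, rfl⟩
    exact Real.exp_lt_exp.2 h1
  · intro h
    have hx : 0 < x := (Real.exp_pos c).trans h
    exact ⟨Real.log x, (Real.lt_log_iff_exp_lt hx).2 h, Real.exp_log hx⟩

lemma cov_on (g : ℝ → ℝ) (c : ℝ) :
    IntegrableOn (fun x => g x / x) (Ioi (Real.exp c)) ↔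
      IntegrableOn (fun u => g (Real.exp u)) (Ioi c) := by
  rw [← exp_image_Ioi, integrableOn_image_iff_integrableOn_abs_deriv_smul measurableSet_Ioi
    (fun u _ => (Real.hasDerivAt_exp u).hasDerivWithinAt) Real.exp_injective.injOn]
  refine integrableOn_congr_fun (fun u _ => ?_) measurableSet_Ioi
  have := Real.exp_pos u
  simp only [smul_eq_mul]
  rw [abs_of_pos this]
  field_simp

variable {a b : ℤ}

/-- `log P` on the logarithmic scale -/
noncomputable def lP (a b : ℤ) (u : ℝ) : ℝ := Real.log (bsdProduct a b (Real.exp u))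

/-- `log P*` on the logarithmic scale -/
noncomputable def lS (a b : ℤ) (u : ℝ) : ℝ := Real.log (bsdStar a b (Real.exp u))

/-- `P` and `P*` as functions of integers -/
noncomputable def gP (a b : ℤ) (n : ℕ) : ℝ := bsdProduct a b (n : ℝ)

noncomputable def gS (a b : ℤ) (q : ℕ × ℕ) : ℝ := bsdProduct a b (q.1 : ℝ) *
  Real.exp (∑ p ∈ (Finset.range (q.1 + 1)).filter
    (fun p => GoodPrime a b p ∧ q.2 < p),
      (((p : ℝ) - pointCount a b p) ^ 2 - 2 * p) / (2 * (p : ℝ) ^ 2))

lemma P_nat (x : ℝ) : bsdProduct a b x = gP a b ⌊x⌋₊ := by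
  unfold gP bsdProduct
  rw [Nat.floor_natCast]

lemma S_nat (x : ℝ) : bsdStar a b x = gS a b (⌊x⌋₊, ⌊√x⌋₊) := by
  unfold gS bsdStar
  congr 1
  · exact P_nat x
  · congr 1
    refine Finset.sum_congr ?_ fun _ _ => rfl
    refine Finset.filter_congr fun p _ => ?_
    rw [← Nat.floor_lt (Real.sqrt_nonneg x)]

lemma lP_meas : Measurable (lP a b) := by
  have h1 : lP a b = fun u => Real.log (gP a b ⌊Real.exp u⌋₊) := by
    funext u; unfold lP; rw [P_nat]
  rw [h1]
  exact Real.measurable_log.comp ((measurable_from_nat (f := gP a b)).comp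
    (Nat.measurable_floor.comp Real.measurable_exp))

lemma lS_meas : Measurable (lS a b) := by
  have h1 : lS a b = fun u => Real.log (gS a b (⌊Real.exp u⌋₊, ⌊√(Real.exp u)⌋₊)) := by
    funext u; unfold lS; rw [S_nat]
  rw [h1]
  refine Real.measurable_log.comp ((measurable_of_countable (gS a b)).comp ?_)
  exact (Nat.measurable_floor.comp Real.measurable_exp).prodMk
    (Nat.measurable_floor.comp (Real.continuous_sqrt.measurable.comp Real.measurable_exp))

lemma nat_bd (g : ℕ → ℝ) (n : ℕ) : ∃ M : ℝ, ∀ k ≤ n, |g k| ≤ M := by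
  induction n with
  | zero => exact ⟨|g 0|, fun k hk => by rw [Nat.le_zero.1 hk]⟩
  | succ n ih =>
    obtain ⟨M, hM⟩ := ih
    refine ⟨max M |g (n + 1)|, fun k hk => ?_⟩
    rcases Nat.le_succ_iff.1 hk with h | h
    · exact (hM k h).trans (le_max_left _ _)
    · rw [h]; exact le_max_right _ _

lemma lP_loc (U : ℝ) : ∃ M : ℝ, ∀ u ≤ U, |lP a b u| ≤ M := by
  obtain ⟨M, hM⟩ := nat_bd (fun n => Real.log (gP a b n)) ⌊Real.exp U⌋₊
  refine ⟨M, fun u hu => ?_⟩
  unfold lP
  rw [P_nat]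
  exact hM _ (Nat.floor_le_floor (Real.exp_le_exp.2 hu))

lemma lS_loc (U : ℝ) : ∃ M : ℝ, ∀ u ≤ U, |lS a b u| ≤ M := by
  have h1 : ∀ m : ℕ, ∃ M : ℝ, ∀ k ≤ ⌊Real.exp U⌋₊, |Real.log (gS a b (k, m))| ≤ M := fun m =>
    nat_bd (fun k => Real.log (gS a b (k, m))) _
  choose g hg using h1
  obtain ⟨M, hM⟩ := nat_bd g ⌊√(Real.exp U)⌋₊
  refine ⟨M, fun u hu => ?_⟩
  unfold lS
  rw [S_nat]
  refine (hg ⌊√(Real.exp u)⌋₊ _ (Nat.floor_le_floor (Real.exp_le_exp.2 hu))).trans ?_
  refine (le_abs_self _).trans (hM _ ?_)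
  exact Nat.floor_le_floor (Real.sqrt_le_sqrt (Real.exp_le_exp.2 hu))

/-- bounded measurable functions -/
lemma bdd_int {g : ℝ → ℝ} (hm : Measurable g) {c U M : ℝ} (h : ∀ u, c < u → u ≤ U → |g u| ≤ M) :
    IntegrableOn g (Ioc c U) :=
  Measure.integrableOn_of_bounded (M := M) (by simp) hm.aestronglyMeasurable
    ((ae_restrict_iff' measurableSet_Ioc).mpr (Eventually.of_forall fun u hu => h u hu.1 hu.2))

/-- `log u` is bounded on `[c, U]` -/
lemma log_loc {c : ℝ} (hc : 0 < c) (U : ℝ) : ∃ M : ℝ, ∀ u, c < u → u ≤ U → |Real.log u| ≤ M := by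
  refine ⟨max |Real.log c| |Real.log U|, fun u h1 h2 => ?_⟩
  have h3 : Real.log c ≤ Real.log u := Real.log_le_log hc h1.le
  have h4 : Real.log u ≤ Real.log U := Real.log_le_log (hc.trans h1) h2
  rw [abs_le]
  constructor
  · have := neg_abs_le (Real.log c)
    have := le_max_left |Real.log c| |Real.log U|
    linarith
  · exact h4.trans ((le_abs_self _).trans (le_max_right _ _))

end Pool.Agent.V8H71.MS
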