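import Pool.Agent.V8H71.MS.Fn1

/-!
# The final theorem on the logarithmic scale
-/

set_option autoImplicit false
set_option maxHeartbeats 1000000

open MeasureTheory Filter Topology Set Classical CongruenceSubgroup MatrixGroups
open Pool.Agent.W263.BSD hiding TT
open Pool.Agent.V8H22.BSW (f4 G4 log_P sc_lim)
open Pool.Agent.N586.BP (TT)

namespace Pool.Agent.V8H71.MS

variable {a b : ℤ} {F : ℂ → ℂ} {r : ℕ}

/-- the constant `T / √2` -/
noncomputable def T0 (F : ℂ → ℂ) (r : ℕ) : ℝ :=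
  Real.exp (r * Real.eulerMascheroniConstant) / leadAbs F r

/-- the error for `P*` -/
noncomputable def Es (a b : ℤ) (F : ℂ → ℂ) (r : ℕ) (u : ℝ) : ℝ :=
  lS a b u - r * Real.log u - Real.log (T0 F r)

/-- the error for `P` -/
noncomputable def Ep (a b : ℤ) (ρ A : ℝ) (u : ℝ) : ℝ := lP a b u - ρ * Real.log u - Real.log A

lemma Es_meas : Measurable (Es a b F r) := (lS_meas.sub (Real.measurable_log.const_mul _)).sub_const _

lemma Ep_meas {ρ A : ℝ} : Measurable (Ep a b ρ A) :=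
  (lP_meas.sub (Real.measurable_log.const_mul _)).sub_const _

lemma log2_pos : (0 : ℝ) < Real.log 2 := Real.log_pos (by norm_num)

lemma Es_loc (U : ℝ) : ∃ M : ℝ, ∀ u, Real.log 2 < u → u ≤ U → |Es a b F r u| ≤ M := by
  obtain ⟨M1, h1⟩ := lS_loc (a := a) (b := b) U
  obtain ⟨M2, h2⟩ := log_loc log2_pos U
  refine ⟨M1 + r * M2 + |Real.log (T0 F r)|, fun u hu1 hu2 => ?_⟩
  unfold Es
  refine (abs_sub _ _).trans (add_le_add ((abs_sub _ _).trans (add_le_add (h1 u hu2) ?_)) le_rfl)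
  rw [abs_mul, Nat.abs_cast]
  exact mul_le_mul_of_nonneg_left (h2 u hu1 hu2) (Nat.cast_nonneg r)

lemma Ep_loc {ρ A : ℝ} (U : ℝ) : ∃ M : ℝ, ∀ u, Real.log 2 < u → u ≤ U → |Ep a b ρ A u| ≤ M := by
  obtain ⟨M1, h1⟩ := lP_loc (a := a) (b := b) U
  obtain ⟨M2, h2⟩ := log_loc log2_pos U
  refine ⟨M1 + |ρ| * M2 + |Real.log A|, fun u hu1 hu2 => ?_⟩
  unfold Ep
  refine (abs_sub _ _).trans (add_le_add ((abs_sub _ _).trans (add_le_add (h1 u hu2) ?_)) le_rfl)
  rw [abs_mul]
  exact mul_le_mul_of_nonneg_left (h2 u hu1 hu2) (abs_nonneg ρ)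

lemma lS_eq {u : ℝ} (hu : 8 ≤ u) : lS a b u = lP a b u - sc (SS a b) (Ap a b) u := by
  unfold lS lP bsdStar
  rw [Real.log_mul (bsdProduct_pos _).ne' (Real.exp_pos _).ne', Real.log_exp, corr_eq hu]
  ring

lemma Es_eq (h : 0 < leadAbs F r) {u : ℝ} (hu : 8 ≤ u) :
    Es a b F r u = eh (f4 (SS a b) (Ap a b)) r (leadAbs F r * ‖small a b 0‖) u := by
  unfold Es eh T0
  rw [lS_eq hu, ← target_eq (a := a) (b := b) h]
  unfold lP
  rw [log_P hu]
  ring

/-- comparison on `(log 2, T]` -/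
lemma split8 {g h : ℝ → ℝ} (hg : Measurable g) (hg0 : ∀ u, 0 ≤ g u) {M U0 : ℝ}
    (hU0 : 0 ≤ U0) (hM : ∀ u, Real.log 2 < u → u ≤ U0 → g u ≤ M) (hgh : ∀ u, U0 < u → g u ≤ h u)
    (hh0 : ∀ u, 0 ≤ h u) {T : ℝ} (hh : IntegrableOn h (Ioc (Real.log 2) T)) :
    IntegrableOn g (Ioc (Real.log 2) T) ∧
      ∫ u in Ioc (Real.log 2) T, g u ≤ U0 * |M| + ∫ u in Ioc (Real.log 2) T, h u := by
  set k : ℝ → ℝ := (Ioc 0 U0).indicator (fun _ => |M|) with hk
  have hki : Integrable k := by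
    rw [hk, integrable_indicator_iff measurableSet_Ioc]
    exact integrableOn_const (by simp)
  have hk0 : ∀ u, 0 ≤ k u := fun u => indicator_nonneg (fun _ _ => abs_nonneg M) u
  have hpt : ∀ u ∈ Ioc (Real.log 2) T, g u ≤ k u + h u := by
    intro u hu
    rcases le_or_gt u U0 with h1 | h1
    · have h2 : k u = |M| := indicator_of_mem (show u ∈ Ioc 0 U0 from ⟨log2_pos.trans hu.1, h1⟩) _
      rw [h2]
      have := hM u hu.1 h1
      have := hh0 u
      have := le_abs_self M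
      linarith
    · have := hgh u h1
      have := hk0 u
      linarith
  have hi : IntegrableOn (fun u => k u + h u) (Ioc (Real.log 2) T) := hki.integrableOn.add hh
  have hgi : IntegrableOn g (Ioc (Real.log 2) T) := by
    refine Integrable.mono' hi hg.aestronglyMeasurable ?_
    refine (ae_restrict_iff' measurableSet_Ioc).mpr (Eventually.of_forall fun u hu => ?_)
    rw [Real.norm_of_nonneg (hg0 u)]
    exact hpt u hu
  refine ⟨hgi, (setIntegral_mono_on hgi hi measurableSet_Ioc hpt).trans ?_⟩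
  rw [integral_add hki.integrableOn hh]
  refine add_le_add ?_ le_rfl
  calc ∫ u in Ioc (Real.log 2) T, k u ≤ ∫ u, k u :=
        setIntegral_le_integral hki (Eventually.of_forall hk0)
    _ = U0 * |M| := by
        rw [hk, integral_indicator measurableSet_Ioc, setIntegral_const]
        simp [hU0]

variable {N : ℕ} [NeZero N] {f : CuspForm (Gamma0 N : Subgroup (GL (Fin 2) ℝ)) 2}

/-- **the mean square bound** -/
theorem wbound (hΔ : 4 * a ^ 3 + 27 * b ^ 2 ≠ 0) (hF : IsLSeries a b F) (hf : Nf a b N f)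
    (hr : analyticOrderAt F 1 = r) (hz : ∀ s : ℂ, 1 < s.re → F s ≠ 0) :
    ∃ C : ℝ, 0 ≤ C ∧ ∀ T : ℝ, Real.log 2 ≤ T →
      IntegrableOn (fun u => (u * Es a b F r u) ^ 2) (Ioc (Real.log 2) T) ∧
      ∫ u in Ioc (Real.log 2) T, (u * Es a b F r u) ^ 2 ≤ C * T := by
  obtain ⟨hlead, -⟩ := lead_limit hF.1 hr
  obtain ⟨B, Φ1, D, hc⟩ := an_of hΔ hF hf hr le_rfl (by norm_num) (fun s hs => hz s (by simpa using hs))
  obtain ⟨C, hC, h⟩ := D.wmain
  obtain ⟨M, hM⟩ := Es_loc (a := a) (b := b) (F := F) (r := r) 8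
  have hl2 := log2_pos
  have hl2' : (1 : ℝ) / 3 < Real.log 2 := by have := Real.log_two_gt_d9; linarith
  refine ⟨8 * |(8 * M) ^ 2| / Real.log 2 + Real.exp 2 * C, by positivity, fun T hT => ?_⟩
  have hT0 : 0 < T := by linarith
  have hT3 : 1 / T < 3 := by
    rw [div_lt_iff₀ hT0]
    linarith
  obtain ⟨h1, h2⟩ := h (1 / T) (by positivity) hT3
  have e1 : 2 * (1 / T) = 2 / T := by ring
  rw [e1] at h1 h2
  obtain ⟨h3, h4⟩ := int_le_lap (fun u => sq_nonneg _) hT0 h1
  have h3' := h3.mono_set (Ioc_subset_Ioc_left hl2.le : Ioc (Real.log 2) T ⊆ Ioc 0 T)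
  have hA : ∀ u, Real.log 2 < u → u ≤ 8 → (u * Es a b F r u) ^ 2 ≤ (8 * M) ^ 2 := by
    intro u hu1 hu2
    have h1 := hM u hu1 hu2
    rw [← sq_abs]
    refine pow_le_pow_left₀ (abs_nonneg _) ?_ 2
    rw [abs_mul, abs_of_pos (hl2.trans hu1)]
    exact mul_le_mul hu2 h1 (abs_nonneg _) (by norm_num)
  have hB : ∀ u, 8 < u → (u * Es a b F r u) ^ 2 ≤
      (u * eh (f4 (SS a b) (Ap a b)) r ‖Φ1 0‖ u) ^ 2 := by
    intro u hu
    rw [Es_eq hlead hu.le, hc]
  obtain ⟨h5, h6⟩ := split8 (g := fun u => (u * Es a b F r u) ^ 2)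
    (h := fun u => (u * eh (f4 (SS a b) (Ap a b)) r ‖Φ1 0‖ u) ^ 2) (M := (8 * M) ^ 2) (U0 := 8) (T := T)
    ((measurable_id.mul Es_meas).pow_const 2) (fun u => sq_nonneg _) (by norm_num)
    hA hB (fun u => sq_nonneg _) h3'
  refine ⟨h5, h6.trans ?_⟩
  have h7 : ∫ u in Ioc (Real.log 2) T, (u * eh (f4 (SS a b) (Ap a b)) r ‖Φ1 0‖ u) ^ 2 ≤
      ∫ u in Ioc 0 T, (u * eh (f4 (SS a b) (Ap a b)) r ‖Φ1 0‖ u) ^ 2 :=
    setIntegral_mono_set h3 ((ae_restrict_iff' measurableSet_Ioc).mpr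
      (Eventually.of_forall fun u _ => sq_nonneg _))
      (LE.le.eventuallyLE (Ioc_subset_Ioc_left hl2.le))
  have h8 : Real.exp 2 * lap (fun u => (u * eh (f4 (SS a b) (Ap a b)) r ‖Φ1 0‖ u) ^ 2) (2 / T) ≤
      Real.exp 2 * (C / (1 / T)) := mul_le_mul_of_nonneg_left h2 (Real.exp_pos _).le
  have h9 : Real.exp 2 * (C / (1 / T)) = Real.exp 2 * C * T := by field_simp
  have h10 : 8 * |(8 * M) ^ 2| ≤ 8 * |(8 * M) ^ 2| / Real.log 2 * T := by
    rw [div_mul_eq_mul_div, le_div_iff₀ hl2]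
    exact mul_le_mul_of_nonneg_left hT (by positivity)
  rw [add_mul]
  linarith

/-- weighted integrals -/
theorem wint' {C : ℝ} (h : ∀ T : ℝ, Real.log 2 ≤ T →
      IntegrableOn (fun u => (u * Es a b F r u) ^ 2) (Ioc (Real.log 2) T) ∧
      ∫ u in Ioc (Real.log 2) T, (u * Es a b F r u) ^ 2 ≤ C * T) {κ : ℝ} (hκ : κ < 1) :
    IntegrableOn (fun u => u ^ κ * Es a b F r u ^ 2) (Ioi (Real.log 2)) := by
  have hl2 : Real.log 2 ≤ 1 := by have := Real.log_two_lt_d9; linarith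
  have h1 := dyadic (g := fun u => (u * Es a b F r u) ^ 2) (fun u => sq_nonneg _) (C := C)
    (fun T hT => ?_) (s := 2 - κ) (by linarith)
  · rw [← Ioc_union_Ioi_eq_Ioi hl2]
    refine IntegrableOn.union ?_ ?_
    · obtain ⟨M, hM⟩ := Es_loc (a := a) (b := b) (F := F) (r := r) 1
      refine bdd_int (M := max 1 (Real.log 2 ^ κ) * M ^ 2) ?_ fun u h1 h2 => ?_
      · exact (by fun_prop : Measurable fun u : ℝ => u ^ κ).mul (Es_meas.pow_const 2)
      · have hu0 : 0 < u := log2_pos.trans h1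
        rw [abs_mul, abs_of_pos (Real.rpow_pos_of_pos hu0 κ), abs_of_nonneg (sq_nonneg _), ← sq_abs]
        refine mul_le_mul ?_ (pow_le_pow_left₀ (abs_nonneg _) (hM u h1 h2) 2) (by positivity)
          (by positivity)
        rcases le_total 0 κ with h3 | h3
        · exact (Real.rpow_le_one hu0.le h2 h3).trans (le_max_left _ _)
        · exact (Real.rpow_le_rpow_of_nonpos log2_pos h1.le h3).trans (le_max_right _ _)
    · refine h1.congr_fun (fun u hu => ?_) measurableSet_Ioi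
      have hu1 : (1 : ℝ) < u := hu
      have hu0 : 0 < u := by linarith
      show u ^ (-(2 - κ)) * (u * Es a b F r u) ^ 2 = u ^ κ * Es a b F r u ^ 2
      rw [mul_pow, ← mul_assoc]
      congr 1
      rw [← Real.rpow_natCast u 2, ← Real.rpow_add hu0]
      congr 1
      push_cast
      ring
  · obtain ⟨h2, h3⟩ := h T (hl2.trans hT)
    refine ⟨h2.mono_set (Ioc_subset_Ioc_left hl2), le_trans ?_ h3⟩
    exact setIntegral_mono_set h2 ((ae_restrict_iff' measurableSet_Ioc).mpr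
        (Eventually.of_forall fun u _ => sq_nonneg _))
        (LE.le.eventuallyLE (Ioc_subset_Ioc_left hl2))

theorem wint (hΔ : 4 * a ^ 3 + 27 * b ^ 2 ≠ 0) (hF : IsLSeries a b F) (hf : Nf a b N f)
    (hr : analyticOrderAt F 1 = r) (hz : ∀ s : ℂ, 1 < s.re → F s ≠ 0) {κ : ℝ} (hκ : κ < 1) :
    IntegrableOn (fun u => u ^ κ * Es a b F r u ^ 2) (Ioi (Real.log 2)) := by
  obtain ⟨C, hC, h⟩ := wbound hΔ hF hf hr hz
  exact wint' h hκ

/-- **from convergence to the absence of zeros** -/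
theorem free_of_LInt (hF : IsLSeries a b F) {w0 : ℝ} (hw0 : 0 ≤ w0) {g : ℝ → ℝ}
    (hm : Measurable g) (hg0 : ∀ u, 0 ≤ g u) (hi : ∀ w > w0, LInt g w) {K : ℝ}
    (hb : ∀ᶠ u in atTop, lP a b u ≤ g u + K * (1 + u)) {s : ℂ} (hs : 1 + w0 < s.re) : F s ≠ 0 := by
  obtain ⟨U, hU⟩ := eventually_atTop.1 hb
  set V : ℝ := max U 8 with hV
  set K2 : ℝ := Real.exp (2 * V) + Real.exp V with hK2
  have hK20 : 0 < K2 := by positivity
  have hD := data (a := a) (b := b) 0 hF
  have hconv : ∀ w > w0, LInt (aak (SS a b) (Ap a b) 0) w := by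
    refine hD.core_upper hw0 (κ := fun u => g u + |K| * (1 + u) + (|kap a b| + K2) * 1)
      ((hm.add ((measurable_id.const_add 1).const_mul _)).add_const _) (fun w hw => ?_) fun u hu => ?_
    · have hw' : 0 < w := by linarith
      have h1 : LInt (fun u => 1 + u) w := by
        have := (one_LInt hw').add (pow_LInt 1 hw')
        simpa using this
      exact ((hi w hw).add (h1.const_mul _)).add ((one_LInt hw').const_mul _)
    · have hgu := hg0 u
      rcases le_or_gt V u with h1 | h1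
      · have h8 : 8 ≤ u := (le_max_right _ _).trans h1
        have h2 := hU u ((le_max_left _ _).trans h1)
        unfold lP at h2
        rw [log_bsd_eq (by linarith)] at h2
        have h3 := neg_abs_le (kap a b)
        have h4 : K * (1 + u) ≤ |K| * (1 + u) := mul_le_mul_of_nonneg_right (le_abs_self K) (by linarith)
        linarith
      · have h2 := (abs_le.1 ((eData a b).aak_abs 0 u)).2
        have h3 : Real.exp (2 * u) ≤ Real.exp (2 * V) := Real.exp_le_exp.2 (by linarith)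
        have h4 : Real.exp u ≤ Real.exp V := Real.exp_le_exp.2 h1.le
        have h5 : 0 ≤ |K| * (1 + u) := by positivity
        have h6 := abs_nonneg (kap a b)
        linarith
  intro h0
  have h1 := hD.eq_of_conv hw0 hconv (s - 1) (by rw [Complex.sub_re, Complex.one_re]; linarith)
  have h2 : PhiF a b F (s - 1) = 0 := by
    unfold PhiF
    rw [add_sub_cancel, h0, zero_mul]
  rw [h2] at h1
  exact Complex.exp_ne_zero _ h1.symm

lemma ind_meas {g : ℝ → ℝ} (hm : Measurable g) : Measurable ((Ioi (1 : ℝ)).indicator g) :=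
  hm.indicator measurableSet_Ioi

lemma ind_LInt {g : ℝ → ℝ} (hm : Measurable g) {κ : ℝ} (h : IntegrableOn (fun u => u ^ κ * g u) (Ioi 1))
    {w : ℝ} (hw : 0 < w) : LInt ((Ioi (1 : ℝ)).indicator g) w := by
  refine LInt_of_pow (ind_meas hm) (M := 0) (fun u h1 h2 => ?_) (κ := κ) ?_ hw
  · rw [indicator_of_notMem (by simpa using h2), abs_zero]
  · refine h.congr_fun (fun u hu => ?_) measurableSet_Ioi
    show u ^ κ * g u = u ^ κ * (Ioi (1 : ℝ)).indicator g u
    rw [indicator_of_mem hu]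

/-- the converse of `wint` -/
theorem free_of_wint (hF : IsLSeries a b F) {κ : ℝ}
    (h : IntegrableOn (fun u => u ^ κ * Es a b F r u ^ 2) (Ioi (Real.log 2))) {s : ℂ}
    (hs : 1 < s.re) : F s ≠ 0 := by
  have hl2 : Real.log 2 ≤ 1 := by have := Real.log_two_lt_d9; linarith
  obtain ⟨M, hM⟩ := (eData a b).sc_bounded
  have h1 : IntegrableOn (fun u => u ^ κ * Es a b F r u ^ 2) (Ioi 1) := h.mono_set (Ioi_subset_Ioi hl2)
  refine free_of_LInt hF le_rfl (g := (Ioi (1 : ℝ)).indicator fun u => Es a b F r u ^ 2)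
    (K := 1 + r + |Real.log (T0 F r)| + |M|) (ind_meas (Es_meas.pow_const 2))
    (fun u => indicator_nonneg (fun _ _ => sq_nonneg _) u)
    (fun w hw => ind_LInt (Es_meas.pow_const 2) h1 hw) ?_ (s := s) (by rw [add_zero]; exact hs)
  filter_upwards [eventually_ge_atTop 8] with u hu
  have hu1 : (1 : ℝ) < u := by linarith
  rw [indicator_of_mem (show u ∈ Ioi (1 : ℝ) from hu1)]
  have e1 : lP a b u = Es a b F r u + r * Real.log u + Real.log (T0 F r) + sc (SS a b) (Ap a b) u := by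
    have := lS_eq (a := a) (b := b) hu
    unfold Es
    linarith
  have h2 : Es a b F r u ≤ Es a b F r u ^ 2 + 1 := by nlinarith [sq_nonneg (Es a b F r u - 1)]
  have h3 : Real.log u ≤ u := (Real.log_le_sub_one_of_pos (by linarith)).trans (by linarith)
  have h4 : (r : ℝ) * Real.log u ≤ r * u := mul_le_mul_of_nonneg_left h3 (Nat.cast_nonneg r)
  have h5 := (abs_le.1 (hM u (by linarith))).2
  have h6 := le_abs_self M
  have h7 := le_abs_self (Real.log (T0 F r))
  have h8 : 0 ≤ |Real.log (T0 F r)| * u := by positivity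
  have h9 : 0 ≤ |M| * u := by positivity
  have h10 : (0 : ℝ) ≤ r := Nat.cast_nonneg r
  rw [e1]
  nlinarith

end Pool.Agent.V8H71.MS
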