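import Pool.Agent.V8H71.MS.Fn2

/-!
# Mean values and the exponent
-/

set_option autoImplicit false
set_option maxHeartbeats 1000000

open MeasureTheory Filter Topology Set Classical CongruenceSubgroup MatrixGroups
open Pool.Agent.W263.BSD hiding TT
open Pool.Agent.V8H22.BSW (f4 G4 log_P sc_lim TT_pos)
open Pool.Agent.N586.BP (TT)

namespace Pool.Agent.V8H71.MS

variable {a b : ℤ} {F : ℂ → ℂ} {r : ℕ}

/-- the mean value over `(log 2, T]` -/
noncomputable def mv (g : ℝ → ℝ) (T : ℝ) : ℝ := (∫ u in Ioc (Real.log 2) T, g u) / T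

lemma mv_nonneg {g : ℝ → ℝ} (hg : ∀ u, 0 ≤ g u) {T : ℝ} (hT : 0 ≤ T) : 0 ≤ mv g T :=
  div_nonneg (setIntegral_nonneg measurableSet_Ioc fun u _ => hg u) hT

/-- a criterion for mean value `0` -/
lemma mean0 {g : ℝ → ℝ} (hg : Measurable g) (hg0 : ∀ u, 0 ≤ g u)
    (hloc : ∀ U : ℝ, ∃ M : ℝ, ∀ u, Real.log 2 < u → u ≤ U → g u ≤ M)
    (h : ∀ ε : ℝ, 0 < ε → ∃ k : ℝ → ℝ, (∀ u, 0 ≤ k u) ∧ IntegrableOn k (Ioi (Real.log 2)) ∧
      ∀ᶠ u in atTop, g u ≤ ε + k u) : Tendsto (mv g) atTop (𝓝 0) := by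
  rw [Metric.tendsto_atTop]
  intro ε hε
  obtain ⟨k, hk0, hki, hev⟩ := h (ε / 2) (by linarith)
  obtain ⟨U, hU⟩ := eventually_atTop.1 hev
  set V : ℝ := max U 0 with hV
  obtain ⟨M, hM⟩ := hloc V
  set Q : ℝ := V * |M| + ∫ u in Ioi (Real.log 2), k u with hQ
  have hQ0 : 0 ≤ Q := add_nonneg (mul_nonneg (le_max_right _ _) (abs_nonneg _))
    (setIntegral_nonneg measurableSet_Ioi fun u _ => hk0 u)
  refine ⟨max 1 (4 * Q / ε), fun T hT => ?_⟩
  have hT1 : 1 ≤ T := (le_max_left _ _).trans hT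
  have hT2 : 4 * Q / ε ≤ T := (le_max_right _ _).trans hT
  have hT0 : 0 < T := by linarith
  rw [Real.dist_eq, sub_zero, abs_of_nonneg (mv_nonneg hg0 hT0.le)]
  have hkT : IntegrableOn k (Ioc (Real.log 2) T) := hki.mono_set Ioc_subset_Ioi_self
  have hc : IntegrableOn (fun _ : ℝ => ε / 2) (Ioc (Real.log 2) T) := integrableOn_const (by simp)
  obtain ⟨-, h2⟩ := split8 (g := g) (h := fun u => ε / 2 + k u) (M := M) (U0 := V) (T := T) hg hg0
    (le_max_right _ _) hM (fun u hu => hU u ((le_max_left _ _).trans hu.le))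
    (fun u => by have := hk0 u; positivity) (hc.add hkT)
  rw [integral_add hc hkT] at h2
  have h3 : ∫ _ in Ioc (Real.log 2) T, ε / 2 ≤ ε / 2 * T := by
    rw [setIntegral_const, smul_eq_mul, Measure.real, Real.volume_Ioc, mul_comm]
    refine mul_le_mul_of_nonneg_left ?_ (by linarith)
    rcases le_total (Real.log 2) T with h4 | h4
    · rw [ENNReal.toReal_ofReal (by linarith)]
      have := log2_pos
      linarith
    · rw [ENNReal.ofReal_of_nonpos (by linarith)]
      simp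
      linarith
  have h5 : ∫ u in Ioc (Real.log 2) T, k u ≤ ∫ u in Ioi (Real.log 2), k u :=
    setIntegral_mono_set hki ((ae_restrict_iff' measurableSet_Ioi).mpr
      (Eventually.of_forall fun u _ => hk0 u)) (LE.le.eventuallyLE Ioc_subset_Ioi_self)
  unfold mv
  rw [div_lt_iff₀ hT0]
  rw [div_le_iff₀ hε] at hT2
  have h6 : 0 < ε * T := by positivity
  linarith

variable {N : ℕ} [NeZero N] {f : CuspForm (Gamma0 N : Subgroup (GL (Fin 2) ℝ)) 2}

/-- the difference between the two errors -/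
lemma Ep_eq (h : 0 < leadAbs F r) {u : ℝ} (hu : 8 ≤ u) :
    Ep a b r (TT F r) u = Es a b F r u + (sc (SS a b) (Ap a b) u - Real.log 2 / 2) := by
  have h1 := lS_eq (a := a) (b := b) hu
  have h2 : Real.log (TT F r) = Real.log 2 / 2 + Real.log (T0 F r) := by
    unfold TT T0
    rw [Real.log_mul (by positivity) (by positivity), Real.log_sqrt (by norm_num)]
  unfold Ep Es
  rw [h2, h1]
  ring

/-- the error for `P` has mean square `0` -/
theorem Ep_sq (hΔ : 4 * a ^ 3 + 27 * b ^ 2 ≠ 0) (hrs : Tendsto (rsSum a b) atTop (𝓝 0))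
    (hF : IsLSeries a b F) (hf : Nf a b N f)
    (hr : analyticOrderAt F 1 = r) (hz : ∀ s : ℂ, 1 < s.re → F s ≠ 0) :
    Tendsto (mv fun u => Ep a b r (TT F r) u ^ 2) atTop (𝓝 0) := by
  obtain ⟨hlead, -⟩ := lead_limit hF.1 hr
  have hw := wint hΔ hF hf hr hz (κ := 0) one_pos
  simp only [Real.rpow_zero, one_mul] at hw
  refine mean0 (Ep_meas.pow_const 2) (fun u => sq_nonneg _) (fun U => ?_) fun ε hε => ?_
  · obtain ⟨M, hM⟩ := Ep_loc (a := a) (b := b) (ρ := r) (A := TT F r) U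
    refine ⟨M ^ 2, fun u h1 h2 => ?_⟩
    rw [← sq_abs]
    exact pow_le_pow_left₀ (abs_nonneg _) (hM u h1 h2) 2
  · refine ⟨fun u => 2 * Es a b F r u ^ 2, fun u => by positivity, hw.const_mul 2, ?_⟩
    have h1 := (sc_lim hΔ hrs).sub_const (Real.log 2 / 2)
    rw [sub_self] at h1
    have h2 := (h1.pow 2).const_mul 2
    simp only [ne_eq, OfNat.ofNat_ne_zero, not_false_eq_true, zero_pow, mul_zero] at h2
    filter_upwards [h2.eventually (gt_mem_nhds hε), eventually_ge_atTop 8] with u h3 h4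
    rw [Ep_eq hlead h4]
    nlinarith [sq_nonneg (Es a b F r u - (sc (SS a b) (Ap a b) u - Real.log 2 / 2))]

/-- from the mean square to the mean -/
lemma mv_abs {g : ℝ → ℝ} (hg : Measurable g)
    (hloc : ∀ U : ℝ, ∃ M : ℝ, ∀ u, Real.log 2 < u → u ≤ U → |g u| ≤ M)
    (h : Tendsto (mv fun u => g u ^ 2) atTop (𝓝 0)) : Tendsto (mv fun u => |g u|) atTop (𝓝 0) := by
  have hi1 : ∀ T, IntegrableOn (fun u => |g u|) (Ioc (Real.log 2) T) := by
    intro T
    obtain ⟨M, hM⟩ := hloc T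
    exact bdd_int (M := M) (hg.abs) fun u h1 h2 => by rw [abs_abs]; exact hM u h1 h2
  have hi2 : ∀ T, IntegrableOn (fun u => g u ^ 2) (Ioc (Real.log 2) T) := by
    intro T
    obtain ⟨M, hM⟩ := hloc T
    refine bdd_int (M := M ^ 2) (hg.pow_const 2) fun u h1 h2 => ?_
    rw [abs_of_nonneg (sq_nonneg _), ← sq_abs]
    exact pow_le_pow_left₀ (abs_nonneg _) (hM u h1 h2) 2
  rw [Metric.tendsto_atTop]
  intro ε hε
  obtain ⟨T1, hT1⟩ := Metric.tendsto_atTop.1 h (ε ^ 2 / 4) (by positivity)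
  refine ⟨max 1 T1, fun T hT => ?_⟩
  have h1T : 1 ≤ T := (le_max_left _ _).trans hT
  have hT0 : 0 < T := by linarith
  have h2 := hT1 T ((le_max_right _ _).trans hT)
  rw [Real.dist_eq, sub_zero, abs_of_nonneg (mv_nonneg (fun u => sq_nonneg _) hT0.le)] at h2
  rw [Real.dist_eq, sub_zero, abs_of_nonneg (mv_nonneg (fun u => abs_nonneg _) hT0.le)]
  unfold mv at h2 ⊢
  rw [div_lt_iff₀ hT0] at h2 ⊢
  have hc : IntegrableOn (fun _ : ℝ => ε / 2) (Ioc (Real.log 2) T) := integrableOn_const (by simp)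
  have h3 : ∫ u in Ioc (Real.log 2) T, |g u| ≤ ∫ u in Ioc (Real.log 2) T, (ε / 2 + (1 / ε) * g u ^ 2) := by
    refine setIntegral_mono_on (hi1 T) (hc.add ((hi2 T).const_mul _)) measurableSet_Ioc fun u _ => ?_
    have h4 : 0 ≤ (1 / ε) * (|g u| - ε / 2) ^ 2 := by positivity
    have h5 : (1 / ε) * (|g u| - ε / 2) ^ 2 = (1 / ε) * g u ^ 2 - |g u| + ε / 4 := by
      rw [← sq_abs (g u)]
      field_simp
      ring
    linarith
  rw [integral_add hc ((hi2 T).const_mul _), integral_const_mul] at h3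
  have h6 : ∫ _ in Ioc (Real.log 2) T, ε / 2 ≤ ε / 2 * T := by
    rw [setIntegral_const, smul_eq_mul, Measure.real, Real.volume_Ioc, mul_comm]
    refine mul_le_mul_of_nonneg_left ?_ (by linarith)
    have h7 : Real.log 2 ≤ T := by have := Real.log_two_lt_d9; linarith
    rw [ENNReal.toReal_ofReal (by linarith)]
    have := log2_pos
    linarith
  have h8 : (1 / ε) * ∫ u in Ioc (Real.log 2) T, g u ^ 2 < (1 / ε) * (ε ^ 2 / 4 * T) :=
    mul_lt_mul_of_pos_left h2 (by positivity)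
  have h9 : (1 / ε) * (ε ^ 2 / 4 * T) = ε / 4 * T := by field_simp
  have h10 : 0 < ε * T := by positivity
  linarith

/-- the absence of zeros from the mean -/
theorem free_of_mean (hF : IsLSeries a b F) {ρ A : ℝ}
    (h : Tendsto (mv fun u => |Ep a b ρ A u|) atTop (𝓝 0)) {s : ℂ} (hs : 1 < s.re) : F s ≠ 0 := by
  have hl2 : Real.log 2 ≤ 1 := by have := Real.log_two_lt_d9; linarith
  obtain ⟨T1, hT1⟩ := Metric.tendsto_atTop.1 h 1 one_pos
  have hi : ∀ T, IntegrableOn (fun u => |Ep a b ρ A u|) (Ioc (Real.log 2) T) := by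
    intro T
    obtain ⟨M, hM⟩ := Ep_loc (a := a) (b := b) (ρ := ρ) (A := A) T
    exact bdd_int (M := M) (Ep_meas.abs) fun u h1 h2 => by rw [abs_abs]; exact hM u h1 h2
  set V : ℝ := max T1 1 with hV
  have hV1 : 1 ≤ V := le_max_right _ _
  have h1 : ∀ T : ℝ, 1 ≤ T → IntegrableOn (fun u => |Ep a b ρ A u|) (Ioc 1 T) ∧
      ∫ u in Ioc 1 T, |Ep a b ρ A u| ≤ V * T := by
    intro T hT
    have hT0 : 0 < T := by linarith
    refine ⟨(hi T).mono_set (Ioc_subset_Ioc_left hl2), ?_⟩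
    set W : ℝ := max V T with hW
    have hW0 : 0 < W := lt_of_lt_of_le hT0 (le_max_right _ _)
    have h2 := hT1 W ((le_max_left _ _).trans (le_max_left _ _))
    rw [Real.dist_eq, sub_zero, abs_of_nonneg (mv_nonneg (fun u => abs_nonneg _) hW0.le)] at h2
    unfold mv at h2
    rw [div_lt_iff₀ hW0, one_mul] at h2
    have h3 : ∫ u in Ioc 1 T, |Ep a b ρ A u| ≤ ∫ u in Ioc (Real.log 2) W, |Ep a b ρ A u| :=
      setIntegral_mono_set (hi W) ((ae_restrict_iff' measurableSet_Ioc).mpr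
        (Eventually.of_forall fun u _ => abs_nonneg _))
        (LE.le.eventuallyLE (Ioc_subset_Ioc hl2 (le_max_right _ _)))
    have h4 : W ≤ V * T := by
      refine max_le ?_ ?_
      · exact le_mul_of_one_le_right (by linarith) hT
      · exact le_mul_of_one_le_left hT0.le hV1
    linarith
  have h2 := dyadic (fun u => abs_nonneg _) h1 (s := 2) (by norm_num)
  refine free_of_LInt hF le_rfl (g := (Ioi (1 : ℝ)).indicator fun u => |Ep a b ρ A u|)
    (K := |ρ| + |Real.log A|) (ind_meas Ep_meas.abs)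
    (fun u => indicator_nonneg (fun _ _ => abs_nonneg _) u)
    (fun w hw => ind_LInt Ep_meas.abs h2 hw) ?_ (s := s) (by rw [add_zero]; exact hs)
  filter_upwards [eventually_ge_atTop 8] with u hu
  have hu1 : (1 : ℝ) < u := by linarith
  rw [indicator_of_mem (show u ∈ Ioi (1 : ℝ) from hu1)]
  have e1 : lP a b u = Ep a b ρ A u + ρ * Real.log u + Real.log A := by unfold Ep; ring
  have h3 : Real.log u ≤ u := (Real.log_le_sub_one_of_pos (by linarith)).trans (by linarith)
  have h3' : 0 ≤ Real.log u := Real.log_nonneg hu1.le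
  have h4 : ρ * Real.log u ≤ |ρ| * u :=
    mul_le_mul (le_abs_self ρ) h3 h3' (abs_nonneg ρ)
  have h5 := le_abs_self (Ep a b ρ A u)
  have h6 := le_abs_self (Real.log A)
  have h7 : 0 ≤ |Real.log A| * u := by positivity
  have h8 := abs_nonneg ρ
  rw [e1]
  linarith

/-- a function which is bounded away from `0` does not have mean value `0` -/
lemma mv_low {g : ℝ → ℝ} (hg0 : ∀ u, 0 ≤ g u) (hgi : ∀ T, IntegrableOn g (Ioc (Real.log 2) T))
    {c : ℝ} (hc : 0 < c) (h : ∀ᶠ u in atTop, c ≤ g u) : ¬ Tendsto (mv g) atTop (𝓝 0) := by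
  intro ht
  obtain ⟨U, hU⟩ := eventually_atTop.1 h
  obtain ⟨T1, hT1⟩ := Metric.tendsto_atTop.1 ht (c / 2) (by linarith)
  set V : ℝ := max (max U 1) 1 with hV
  set T : ℝ := max (2 * V) T1 with hT
  have hV1 : 1 ≤ V := le_max_right _ _
  have hVU : U ≤ V := (le_max_left _ _).trans (le_max_left _ _)
  have hTV : 2 * V ≤ T := le_max_left _ _
  have hT0 : 0 < T := by linarith
  have h2 := hT1 T (le_max_right _ _)
  rw [Real.dist_eq, sub_zero, abs_of_nonneg (mv_nonneg hg0 hT0.le)] at h2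
  unfold mv at h2
  rw [div_lt_iff₀ hT0] at h2
  have hl2 : Real.log 2 ≤ 1 := by have := Real.log_two_lt_d9; linarith
  have hsub : Ioc V T ⊆ Ioc (Real.log 2) T := Ioc_subset_Ioc_left (by linarith)
  have h3 : ∫ u in Ioc V T, g u ≤ ∫ u in Ioc (Real.log 2) T, g u :=
    setIntegral_mono_set (hgi T) ((ae_restrict_iff' measurableSet_Ioc).mpr
      (Eventually.of_forall fun u _ => hg0 u)) (LE.le.eventuallyLE hsub)
  have h4 : ∫ _ in Ioc V T, c ≤ ∫ u in Ioc V T, g u :=
    setIntegral_mono_on (integrableOn_const (by simp)) ((hgi T).mono_set hsub) measurableSet_Ioc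
      fun u hu => hU u (hVU.trans hu.1.le)
  rw [setIntegral_const, smul_eq_mul, Measure.real, Real.volume_Ioc,
    ENNReal.toReal_ofReal (by linarith)] at h4
  nlinarith

/-- **uniqueness of the exponent and of the constant** -/
theorem mean_unique (hΔ : 4 * a ^ 3 + 27 * b ^ 2 ≠ 0) (hrs : Tendsto (rsSum a b) atTop (𝓝 0))
    (hF : IsLSeries a b F) (hf : Nf a b N f)
    (hr : analyticOrderAt F 1 = r) {ρ A : ℝ} (hA : 0 < A)
    (h : Tendsto (mv fun u => |Ep a b ρ A u|) atTop (𝓝 0)) :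
    (∀ s : ℂ, 1 < s.re → F s ≠ 0) ∧ ρ = r ∧ A = TT F r := by
  obtain ⟨hlead, -⟩ := lead_limit hF.1 hr
  have hT := TT_pos hlead
  have hz : ∀ s : ℂ, 1 < s.re → F s ≠ 0 := fun s hs => free_of_mean hF h hs
  have h1 := mv_abs Ep_meas (fun U => Ep_loc U) (Ep_sq hΔ hrs hF hf hr hz)
  have hi : ∀ (ρ A T : ℝ), IntegrableOn (fun u => |Ep a b ρ A u|) (Ioc (Real.log 2) T) := by
    intro ρ A T
    obtain ⟨M, hM⟩ := Ep_loc (a := a) (b := b) (ρ := ρ) (A := A) T
    exact bdd_int (M := M) (Ep_meas.abs) fun u h1 h2 => by rw [abs_abs]; exact hM u h1 h2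
  set g : ℝ → ℝ := fun u => |(ρ - r) * Real.log u + (Real.log A - Real.log (TT F r))| with hg
  have hgm : Measurable g := ((Real.measurable_log.const_mul _).add_const _).abs
  have hgi : ∀ T, IntegrableOn g (Ioc (Real.log 2) T) := by
    intro T
    obtain ⟨M, hM⟩ := log_loc log2_pos T
    refine bdd_int (M := |ρ - r| * M + |Real.log A - Real.log (TT F r)|) hgm fun u h1 h2 => ?_
    rw [hg]
    simp only [abs_abs]
    refine (abs_add_le _ _).trans (add_le_add ?_ le_rfl)
    rw [abs_mul]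
    exact mul_le_mul_of_nonneg_left (hM u h1 h2) (abs_nonneg _)
  have hgt : Tendsto (mv g) atTop (𝓝 0) := by
    have h2 := h.add h1
    rw [add_zero] at h2
    refine squeeze_zero' ?_ ?_ h2
    · filter_upwards [eventually_ge_atTop 0] with T hT
      exact mv_nonneg (fun u => abs_nonneg _) hT
    · filter_upwards [eventually_gt_atTop 0] with T hT
      unfold mv
      rw [← add_div]
      refine div_le_div_of_nonneg_right ?_ hT.le
      rw [← integral_add (hi _ _ T) (hi _ _ T)]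
      refine setIntegral_mono_on (hgi T) ((hi _ _ T).add (hi _ _ T)) measurableSet_Ioc fun u _ => ?_
      have e : (ρ - r) * Real.log u + (Real.log A - Real.log (TT F r)) =
          Ep a b r (TT F r) u - Ep a b ρ A u := by unfold Ep; ring
      rw [hg]
      simp only
      rw [e]
      exact (abs_sub _ _).trans (le_of_eq (add_comm _ _))
  have hρ : ρ = r := by
    by_contra hne
    refine mv_low (c := 1) (fun u => abs_nonneg _) hgi one_pos ?_ hgt
    have h3 : Tendsto (fun u : ℝ => |ρ - r| * Real.log u) atTop atTop :=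
      Real.tendsto_log_atTop.const_mul_atTop (abs_pos.2 (sub_ne_zero.2 hne))
    filter_upwards [h3.eventually_ge_atTop (1 + |Real.log A - Real.log (TT F r)|),
      eventually_ge_atTop 1] with u h4 h5
    have h6 : |(ρ - r) * Real.log u| = |ρ - r| * Real.log u := by
      rw [abs_mul, abs_of_nonneg (Real.log_nonneg h5)]
    have h7 := abs_sub_abs_le_abs_sub ((ρ - r) * Real.log u) (-(Real.log A - Real.log (TT F r)))
    rw [abs_neg, sub_neg_eq_add, h6] at h7
    linarith
  refine ⟨hz, hρ, ?_⟩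
  by_contra hne
  have hlog : Real.log A ≠ Real.log (TT F r) := fun h => hne (Real.log_injOn_pos hA hT h)
  refine mv_low (c := |Real.log A - Real.log (TT F r)|) (fun u => abs_nonneg _) hgi
    (abs_pos.2 (sub_ne_zero.2 hlog)) (Eventually.of_forall fun u => ?_) hgt
  rw [hρ, sub_self, zero_mul, zero_add]

/-- the square of `log P` -/
theorem lP_sq (hΔ : 4 * a ^ 3 + 27 * b ^ 2 ≠ 0) (hF : IsLSeries a b F) (hf : Nf a b N f)
    (hr : analyticOrderAt F 1 = r) {Θ : ℝ} (h0 : 0 ≤ Θ) (hz : ∀ s : ℂ, 1 + Θ < s.re → F s ≠ 0)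
    {w : ℝ} (hw : 2 * Θ < w) : LInt (fun u => lP a b u ^ 2) w := by
  obtain ⟨M, hM⟩ := lP_loc (a := a) (b := b) 8
  obtain ⟨M1, hM1⟩ := (eData a b).sc_bounded
  rcases lt_or_ge Θ 2 with h2 | h2
  · obtain ⟨B, Φ1, D, hc⟩ := an_of hΔ hF hf hr h0 h2 hz
    obtain ⟨C, hC, h⟩ := D.main
    set σ : ℝ := min (w / 2) ((Θ + 3) / 2) with hσ
    have hσ1 : Θ < σ := lt_min (by linarith) (by linarith)
    have hσ2 : σ < 3 := (min_le_right _ _).trans_lt (by linarith)
    have hσ3 : 2 * σ ≤ w := by have := min_le_left (w / 2) ((Θ + 3) / 2); linarith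
    have hw0 : 0 < w := by linarith
    have hem := eh_meas (f := f4 (SS a b) (Ap a b)) (r := r) (c0 := ‖Φ1 0‖) D.W.gw.meas
    have h1 := LInt.mono (hem.pow_const 2) (h σ hσ1 hσ2).1 hσ3
    set c : ℝ := (r * Real.eulerMascheroniConstant - Real.log ‖Φ1 0‖) + kap a b with hcc
    have h2 : LInt (fun u => 4 * eh (f4 (SS a b) (Ap a b)) r ‖Φ1 0‖ u ^ 2 +
        4 * (r : ℝ) ^ 2 * Real.log u ^ 2 + (4 * c ^ 2 + 4 * M1 ^ 2 + M ^ 2) * 1) w :=
      ((h1.const_mul 4).add ((log_sq_LInt hw0).const_mul _)).add ((one_LInt hw0).const_mul _)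
    refine LInt.of_bound (lP_meas.pow_const 2) h2 fun u hu => ?_
    rw [abs_of_nonneg (sq_nonneg _)]
    rcases le_or_gt 8 u with h3 | h3
    · have e1 : lP a b u = eh (f4 (SS a b) (Ap a b)) r ‖Φ1 0‖ u + r * Real.log u + c +
          sc (SS a b) (Ap a b) u := by
        unfold lP
        rw [log_P h3, hcc]
        unfold eh
        ring
      have h4 : sc (SS a b) (Ap a b) u ^ 2 ≤ M1 ^ 2 := by
        rw [← sq_abs]
        exact pow_le_pow_left₀ (abs_nonneg _) (hM1 u hu) 2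
      rw [e1]
      have key : ∀ x y z t : ℝ, (x + y + z + t) ^ 2 ≤ 4 * x ^ 2 + 4 * y ^ 2 + 4 * z ^ 2 + 4 * t ^ 2 := by
        intro x y z t
        nlinarith [sq_nonneg (x - y), sq_nonneg (x - z), sq_nonneg (x - t), sq_nonneg (y - z),
          sq_nonneg (y - t), sq_nonneg (z - t)]
      refine (key _ _ _ _).trans ?_
      rw [mul_pow]
      nlinarith [sq_nonneg M]
    · have h4 := hM u h3.le
      have h5 : lP a b u ^ 2 ≤ M ^ 2 := by
        rw [← sq_abs]
        exact pow_le_pow_left₀ (abs_nonneg _) h4 2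
      have h6 : 0 ≤ 4 * eh (f4 (SS a b) (Ap a b)) r ‖Φ1 0‖ u ^ 2 + 4 * (r : ℝ) ^ 2 * Real.log u ^ 2 +
        (4 * c ^ 2 + 4 * M1 ^ 2) := by positivity
      linarith
  · set K : ℝ := 2 + |kap a b| + |M| with hK
    have hK0 : 0 ≤ K := by positivity
    refine LInt.of_bound (lP_meas.pow_const 2) ((LInt_exp (c := 4) (w := w) (by linarith)).const_mul
      (K ^ 2)) fun u hu => ?_
    rw [abs_of_nonneg (sq_nonneg _)]
    have h1 : 1 ≤ Real.exp (2 * u) := Real.one_le_exp (by linarith)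
    have h3 : |lP a b u| ≤ K * Real.exp (2 * u) := by
      rcases le_or_gt 8 u with h4 | h4
      · unfold lP
        rw [log_bsd_eq (by linarith)]
        have h5 := (eData a b).aak_abs 0 u
        have h6 : Real.exp u ≤ Real.exp (2 * u) := Real.exp_le_exp.2 (by linarith)
        have h7 : |kap a b| ≤ |kap a b| * Real.exp (2 * u) := le_mul_of_one_le_right (abs_nonneg _) h1
        have h8 : 0 ≤ |M| * Real.exp (2 * u) := by positivity
        refine (abs_add_le _ _).trans ?_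
        rw [hK]
        linarith
      · have h5 := hM u h4.le
        have h6 : K ≤ K * Real.exp (2 * u) := le_mul_of_one_le_right hK0 h1
        have h7 := le_abs_self M
        have h8 := abs_nonneg (kap a b)
        rw [hK] at h6 ⊢
        linarith
    rw [← sq_abs]
    refine (pow_le_pow_left₀ (abs_nonneg _) h3 2).trans (le_of_eq ?_)
    rw [mul_pow, ← Real.exp_nat_mul]
    congr 2
    push_cast
    ring

/-- from the square to the positive part -/
lemma pos_of_sq {Θ ε : ℝ} (hε : 0 < ε) (h : LInt (fun u => lP a b u ^ 2) (2 * Θ + ε)) :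
    LInt (fun u => max (lP a b u) 0) (Θ + ε) := by
  have h1 : IntegrableOn (fun u : ℝ => lP a b u ^ 2 * Real.exp (-((2 * Θ + ε) * u)) +
      Real.exp (-(ε * u))) (Ioi 0) := by
    refine Integrable.add h ?_
    have h2 := one_LInt hε
    unfold LInt at h2
    have h3 : IntegrableOn (fun u : ℝ => Real.exp (-(ε * u))) (Ioi 0) := by simpa using h2
    exact h3
  unfold LInt
  refine Integrable.mono' h1 (((lP_meas.max measurable_const).mul (by fun_prop)).aestronglyMeasurable) ?_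
  refine Eventually.of_forall fun u => ?_
  have h2 : 0 ≤ max (lP a b u) 0 := le_max_right _ _
  rw [Real.norm_of_nonneg (mul_nonneg h2 (Real.exp_pos _).le)]
  set x : ℝ := max (lP a b u) 0 with hx
  set y : ℝ := Real.exp (-(Θ * u)) with hy
  set z : ℝ := Real.exp (-(ε * u)) with hz
  have hxs : x ^ 2 ≤ lP a b u ^ 2 := by
    rcases le_total (lP a b u) 0 with h3 | h3
    · rw [hx, max_eq_right h3]; nlinarith [sq_nonneg (lP a b u)]
    · rw [hx, max_eq_left h3]
  have e1 : Real.exp (-((Θ + ε) * u)) = y * z := by rw [hy, hz, ← Real.exp_add]; congr 1; ring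
  have e2 : Real.exp (-((2 * Θ + ε) * u)) = y ^ 2 * z := by
    rw [hy, hz, ← Real.exp_nat_mul, ← Real.exp_add]; congr 1; push_cast; ring
  rw [e1, e2]
  have hy0 : 0 < y := Real.exp_pos _
  have hz0 : 0 < z := Real.exp_pos _
  have h4 : x * y ≤ x ^ 2 * y ^ 2 + 1 := by nlinarith [sq_nonneg (x * y - 1), mul_nonneg h2 hy0.le]
  calc x * (y * z) = (x * y) * z := by ring
    _ ≤ (x ^ 2 * y ^ 2 + 1) * z := mul_le_mul_of_nonneg_right h4 hz0.le
    _ = x ^ 2 * (y ^ 2 * z) + z := by ring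
    _ ≤ lP a b u ^ 2 * (y ^ 2 * z) + z := by gcongr

end Pool.Agent.V8H71.MS
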