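import Mathlib

/-!
# Growth of the `L`-function of a cusp form of weight two in a vertical strip
-/

set_option autoImplicit false
set_option maxHeartbeats 1000000

open UpperHalfPlane hiding I
open Filter Complex MatrixGroups Asymptotics MeasureTheory Set CongruenceSubgroup
open scoped Real Topology

namespace Pool.Agent.V8H71.MS

theorem norm_Gamma_le {z : ℂ} (hz : 0 < z.re) : ‖Complex.Gamma z‖ ≤ Real.Gamma z.re := by
  rw [Complex.Gamma_eq_integral hz, Real.Gamma_eq_integral hz]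
  unfold Complex.GammaIntegral
  refine (norm_integral_le_integral_norm _).trans (le_of_eq ?_)
  refine setIntegral_congr_fun measurableSet_Ioi (fun t ht => ?_)
  have ht' : (0 : ℝ) < t := ht
  simp only [norm_mul]
  rw [Complex.norm_cpow_eq_rpow_re_of_pos ht', Complex.norm_real, Real.norm_eq_abs,
    abs_of_pos (Real.exp_pos _)]
  simp

theorem norm_sin_le (z : ℂ) : ‖Complex.sin z‖ ≤ Real.exp |z.im| := by
  unfold Complex.sin
  rw [norm_div, norm_mul, Complex.norm_I, mul_one]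
  have h1 : ‖Complex.exp (-z * Complex.I) - Complex.exp (z * Complex.I)‖ ≤
      Real.exp |z.im| + Real.exp |z.im| := by
    refine (norm_sub_le _ _).trans ?_
    rw [Complex.norm_exp, Complex.norm_exp]
    refine add_le_add (Real.exp_le_exp.mpr ?_) (Real.exp_le_exp.mpr ?_)
    · have : (-z * Complex.I).re = z.im := by simp
      rw [this]; exact le_abs_self _
    · have : (z * Complex.I).re = -z.im := by simp
      rw [this]; exact neg_le_abs _
  have h2 : ‖(2 : ℂ)‖ = 2 := by norm_num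
  rw [h2]
  linarith

/-- left half plane -/
theorem inv_Gamma_left {z : ℂ} (hz : z.re < 1) :
    ‖(Complex.Gamma z)⁻¹‖ ≤ Real.Gamma (1 - z.re) * Real.exp (Real.pi * |z.im|) := by
  have hG := Real.Gamma_pos_of_pos (s := 1 - z.re) (by linarith)
  by_cases hne : Complex.Gamma z = 0
  · rw [hne, inv_zero, norm_zero]
    positivity
  have hR := Complex.Gamma_mul_Gamma_one_sub z
  have hpi : (Real.pi : ℂ) ≠ 0 := by exact_mod_cast Real.pi_ne_zero
  have h1ne : Complex.Gamma (1 - z) ≠ 0 := Complex.Gamma_ne_zero_of_re_pos (by simp; linarith)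
  have hsin : Complex.sin (Real.pi * z) ≠ 0 := by
    intro h
    rw [h, div_zero] at hR
    exact mul_ne_zero hne h1ne hR
  have hinv : (Complex.Gamma z)⁻¹ =
      Complex.Gamma (1 - z) * Complex.sin (Real.pi * z) / Real.pi := by
    rw [inv_eq_iff_eq_inv, inv_div, eq_div_iff (mul_ne_zero h1ne hsin), ← mul_assoc, hR]
    field_simp
  rw [hinv, norm_div, norm_mul]
  have h1 := norm_Gamma_le (z := 1 - z) (by simp; linarith)
  have h2 := norm_sin_le (Real.pi * z)
  have e1 : (1 - z).re = 1 - z.re := by simp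
  have e2 : ((Real.pi : ℂ) * z).im = Real.pi * z.im := by simp
  rw [e1] at h1
  rw [e2, abs_mul, abs_of_pos Real.pi_pos] at h2
  have h3 : (1 : ℝ) ≤ ‖(Real.pi : ℂ)‖ := by
    rw [Complex.norm_real, Real.norm_of_nonneg Real.pi_pos.le]
    linarith [Real.pi_gt_three]
  refine (div_le_self (by positivity) h3).trans ?_
  exact mul_le_mul h1 h2 (norm_nonneg _) hG.le

theorem inv_Gamma_strip (A : ℝ) (hA : A ≤ -1 / 2) (k : ℕ) : ∃ M : ℝ, 0 ≤ M ∧ ∀ z : ℂ,
    A ≤ z.re → z.re ≤ 1 / 2 + k → ‖(Complex.Gamma z)⁻¹‖ ≤ M * Real.exp (Real.pi * |z.im|) := by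
  induction k with
  | zero =>
    obtain ⟨M, hM⟩ := (isCompact_Icc (a := (1 / 2 : ℝ)) (b := 1 - A)).exists_bound_of_continuousOn
      (f := Real.Gamma) (fun x hx => (Real.differentiableAt_Gamma (fun m => by
        have := hx.1
        have h2 : (0 : ℝ) ≤ m := Nat.cast_nonneg m
        linarith)).continuousAt.continuousWithinAt)
    have hM0 : 0 ≤ M := (norm_nonneg _).trans (hM (1 / 2) (by constructor <;> linarith))
    refine ⟨M, hM0, fun z h1 h2 => ?_⟩
    norm_num at h2
    refine (inv_Gamma_left (by linarith)).trans ?_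
    have h3 := hM (1 - z.re) ⟨by linarith, by linarith⟩
    have h4 := (le_abs_self _).trans h3
    exact mul_le_mul_of_nonneg_right h4 (Real.exp_pos _).le
  | succ k ih =>
    obtain ⟨M, hM0, hM⟩ := ih
    obtain ⟨M2, hM2⟩ := ((isCompact_Icc (a := A) (b := 1 / 2 + (k + 1 : ℕ))).reProdIm
      (isCompact_Icc (a := (-1 : ℝ)) (b := 1))).exists_bound_of_continuousOn
      (f := fun z : ℂ => (Complex.Gamma z)⁻¹)
      (Complex.differentiable_one_div_Gamma.continuous.continuousOn)
    refine ⟨max M M2, le_max_of_le_left hM0, fun z h1 h2 => ?_⟩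
    have hk : (0 : ℝ) ≤ k := Nat.cast_nonneg k
    have hmM : M * Real.exp (Real.pi * |z.im|) ≤ max M M2 * Real.exp (Real.pi * |z.im|) :=
      mul_le_mul_of_nonneg_right (le_max_left _ _) (Real.exp_pos _).le
    rcases le_total z.re (1 / 2 + k) with h3 | h3
    · exact (hM z h1 h3).trans hmM
    rcases le_total |z.im| 1 with h4 | h4
    · have h5 := hM2 z (by
        rw [Complex.mem_reProdIm]
        exact ⟨⟨h1, h2⟩, abs_le.1 h4⟩)
      refine h5.trans ((le_max_right M M2).trans ?_)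
      refine le_mul_of_one_le_right (le_max_of_le_left hM0) ?_
      exact Real.one_le_exp (by positivity)
    · have hz : z - 1 ≠ 0 := by
        intro h0
        have h5 := congrArg Complex.im h0
        simp only [sub_im, one_im, sub_zero, zero_im] at h5
        rw [h5, abs_zero] at h4
        linarith
      have h5 := Complex.Gamma_add_one (z - 1) hz
      rw [sub_add_cancel] at h5
      have him : (z - 1).im = z.im := by simp
      have hre : (z - 1).re = z.re - 1 := by simp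
      push_cast at h2
      have h6 := hM (z - 1) (by rw [hre]; linarith) (by rw [hre]; linarith)
      rw [him] at h6
      rw [h5, mul_inv, norm_mul, norm_inv]
      have h7 : (1 : ℝ) ≤ ‖z - 1‖ := by
        have := Complex.abs_im_le_norm (z - 1)
        rw [him] at this
        exact h4.trans this
      have h8 : ‖z - 1‖⁻¹ ≤ 1 := inv_le_one_of_one_le₀ h7
      refine le_trans ?_ (h6.trans hmM)
      exact mul_le_of_le_one_left (norm_nonneg _) h8

/-- a bound for Mellin transforms in vertical strips -/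
lemma mellin_bound {f : ℝ → ℂ} {x0 x1 : ℝ} (h0 : MellinConvergent f (x0 : ℂ))
    (h1 : MellinConvergent f (x1 : ℂ)) :
    ∃ C : ℝ, 0 ≤ C ∧ ∀ s : ℂ, x0 ≤ s.re → s.re ≤ x1 → ‖mellin f s‖ ≤ C := by
  have e : ∀ x : ℝ, MellinConvergent f (x : ℂ) →
      IntegrableOn (fun t : ℝ => t ^ (x - 1) * ‖f t‖) (Ioi 0) := by
    intro x hx
    have h := hx.norm
    refine h.congr ?_
    filter_upwards [self_mem_ae_restrict measurableSet_Ioi] with t ht
    have ht0 : (0 : ℝ) < t := ht
    rw [norm_smul, Complex.norm_cpow_eq_rpow_re_of_pos ht0]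
    simp
  have i0 := e x0 h0
  have i1 := e x1 h1
  have i2 : IntegrableOn (fun t : ℝ => t ^ (x0 - 1) * ‖f t‖ + t ^ (x1 - 1) * ‖f t‖) (Ioi 0) :=
    i0.add i1
  refine ⟨∫ t in Ioi (0 : ℝ), (t ^ (x0 - 1) * ‖f t‖ + t ^ (x1 - 1) * ‖f t‖), ?_, ?_⟩
  · refine setIntegral_nonneg measurableSet_Ioi (fun t ht => ?_)
    have ht0 : (0 : ℝ) < t := ht
    positivity
  · intro s hs0 hs1
    unfold mellin
    refine norm_integral_le_of_norm_le i2 ?_
    filter_upwards [self_mem_ae_restrict measurableSet_Ioi] with t ht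
    have ht0 : (0 : ℝ) < t := ht
    rw [norm_smul, Complex.norm_cpow_eq_rpow_re_of_pos ht0, ← add_mul]
    refine mul_le_mul_of_nonneg_right ?_ (norm_nonneg _)
    have p0 : 0 ≤ t ^ (x0 - 1) := (Real.rpow_pos_of_pos ht0 _).le
    have p1 : 0 ≤ t ^ (x1 - 1) := (Real.rpow_pos_of_pos ht0 _).le
    have hre : (s - 1).re = s.re - 1 := by simp
    rw [hre]
    rcases le_total t 1 with h | h
    · have := Real.rpow_le_rpow_of_exponent_ge ht0 h (by linarith : x0 - 1 ≤ s.re - 1)
      linarith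
    · have := Real.rpow_le_rpow_of_exponent_le h (by linarith : s.re - 1 ≤ x1 - 1)
      linarith

section forms

open ModularForm

variable {Γ : Subgroup (GL (Fin 2) ℝ)} [Γ.IsArithmetic]
  {F : Type*} [FunLike F ℍ ℂ] [CuspFormClass F Γ 2]

open ConjAct Pointwise in
instance instConj (Γ : Subgroup (GL (Fin 2) ℝ)) [Γ.IsArithmetic] :
    Subgroup.IsArithmetic (toConjAct (ModularGroup.S : GL (Fin 2) ℝ)⁻¹ • Γ) := by
  convert Subgroup.IsArithmetic.conj Γ ↑(ModularGroup.S⁻¹)
  simp only [ModularGroup.S_inv, ← map_inv]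
  ext i j
  fin_cases i <;> fin_cases j <;> simp [ModularGroup.S]

lemma two_pos' : (0 : ℤ) < 2 := by norm_num

/-- the completed function on a line to the right of the region of convergence -/
lemma lam_bound (f : F) {σ : ℝ} (hσ : 2 < σ) :
    ∃ C : ℝ, 0 ≤ C ∧ ∀ s : ℂ, s.re = σ → ‖Λ two_pos' f s‖ ≤ C * ‖Complex.Gamma s‖ := by
  set h := Γ.strictWidthInfty with hh
  have hh0 : 0 < h := Γ.strictWidthInfty_pos
  set a : ℕ → ℝ := fun n => π ^ (-σ) * ‖(qExpansion h f).coeff n‖ / (2 * n / h) ^ σ with ha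
  have hterm : ∀ s : ℂ, s.re = σ → ∀ n : ℕ,
      ‖(π : ℂ) ^ (-s) * Gamma s * (qExpansion h f).coeff n / (((2 * n / h : ℝ)) : ℂ) ^ s‖ =
      ‖Gamma s‖ * a n := by
    intro s hs n
    have hs0 : s ≠ 0 := by rintro rfl; simp at hs; linarith
    rw [norm_div, norm_mul, norm_mul, Complex.norm_cpow_eq_rpow_re_of_pos Real.pi_pos, neg_re, hs]
    have h1 : ‖(((2 * n / h : ℝ)) : ℂ) ^ s‖ = (2 * n / h) ^ σ := by
      rw [Complex.norm_cpow_eq_rpow_re_of_nonneg (by positivity) (by rw [hs]; linarith), hs]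
    rw [h1, ha]
    ring
  have hG : Gamma (σ : ℂ) ≠ 0 := Gamma_ne_zero_of_re_pos (by simp; linarith)
  have hsum : Summable a := by
    have h1 := (CuspForm.hasSum_Λ (s := (σ : ℂ)) f two_pos' (by
      rw [Complex.ofReal_re]; norm_num; linarith)).summable.norm
    have h2 : Summable fun n => ‖Gamma (σ : ℂ)‖ * a n :=
      h1.congr fun n => hterm σ (by simp) n
    have h3 := h2.mul_left (‖Gamma (σ : ℂ)‖⁻¹)
    refine h3.congr fun n => ?_
    rw [← mul_assoc, inv_mul_cancel₀ (norm_ne_zero_iff.2 hG), one_mul]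
  have hpos : ∀ n, 0 ≤ a n := fun n => by rw [ha]; positivity
  refine ⟨∑' n, a n, tsum_nonneg hpos, fun s hs => ?_⟩
  have h1 := CuspForm.hasSum_Λ (s := s) f two_pos' (by rw [hs]; norm_num; linarith)
  have h2 : HasSum (fun n => ‖Gamma s‖ * a n) (‖Gamma s‖ * ∑' n, a n) := hsum.hasSum.mul_left _
  rw [← h1.tsum_eq, mul_comm (∑' n, a n)]
  refine tsum_of_norm_bounded h2 fun n => ?_
  exact (hterm s hs n).le

lemma two_div_Gamma (s : ℂ) : (2 / Gammaℂ s : ℂ) = (2 * π : ℂ) ^ s * (Gamma s)⁻¹ := by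
  rw [Gammaℂ, Complex.cpow_neg]
  have h : (2 * π : ℂ) ^ s ≠ 0 := by
    rw [Ne, Complex.cpow_eq_zero_iff]
    rintro ⟨h, -⟩
    have : (π : ℂ) ≠ 0 := by exact_mod_cast Real.pi_ne_zero
    simp [this] at h
  by_cases hG : Gamma s = 0
  · rw [hG]; simp
  · field_simp

lemma norm_two_pi (s : ℂ) : ‖(2 * π : ℂ) ^ s‖ = (2 * π) ^ s.re := by
  have h : (2 * π : ℂ) = ((2 * π : ℝ) : ℂ) := by push_cast; rfl
  rw [h, Complex.norm_cpow_eq_rpow_re_of_pos (by positivity)]

lemma L_norm (f : F) (s : ℂ) :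
    ‖L two_pos' f s‖ = ‖Λ two_pos' f s‖ * ((2 * π) ^ s.re * ‖(Gamma s)⁻¹‖) := by
  rw [L, two_div_Gamma, norm_mul, norm_mul, norm_two_pi]

lemma eps_norm (f : F) : ‖(weakFEPair two_pos' f).ε‖ = 1 := by
  rw [weakFEPair_ε]
  simp

/-- the left edge -/
lemma L_left (f : F) : ∃ C : ℝ, 0 ≤ C ∧ ∀ s : ℂ, s.re = -1 / 2 →
    ‖L two_pos' f s‖ ≤ C * ‖s + 5‖ ^ 3 := by
  obtain ⟨C, hC0, hC⟩ := lam_bound (σ := 5 / 2) (CuspForm.translate f ModularGroup.S) (by norm_num)
  refine ⟨C * (2 * π) ^ (-1 / 2 : ℝ), by positivity, fun s hs => ?_⟩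
  have hP := CuspForm.isStrongFEPair two_pos' f
  have h1 : Λ two_pos' f s = (weakFEPair two_pos' f).ε •
      Λ two_pos' (CuspForm.translate f ModularGroup.S) (2 - s) := by
    have h2 := (weakFEPair two_pos' f).functional_equation (2 - s)
    have hk : (((weakFEPair two_pos' f).k : ℝ) : ℂ) - (2 - s) = s := by
      rw [weakFEPair_k]; push_cast; ring
    rw [hk, hP.symm_Λ_eq] at h2
    have h3 : Λ two_pos' (CuspForm.translate f ModularGroup.S) =
        mellin (weakFEPair two_pos' f).g := CuspForm.Λ_eq_mellin two_pos' _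
    rw [h3]
    exact h2
  have h4 := hC (2 - s) (by rw [sub_re, hs]; norm_num)
  have h5 : ‖Λ two_pos' f s‖ = ‖Λ two_pos' (CuspForm.translate f ModularGroup.S) (2 - s)‖ := by
    rw [h1, norm_smul, eps_norm, one_mul]
  have hne : ∀ m : ℕ, s + m ≠ 0 := by
    intro m h
    have := congrArg Complex.re h
    rw [add_re, hs, natCast_re, zero_re] at this
    have h2 : (2 * m : ℝ) = 1 := by linarith
    have h3 : (2 * m : ℕ) = 1 := by exact_mod_cast h2
    omega
  have h6 : ‖Gamma (2 - s)‖ = ‖Gamma (s + 3)‖ := by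
    have h7 : (starRingEnd ℂ) (2 - s) = s + 3 := by
      apply Complex.ext
      · rw [conj_re, sub_re, add_re, hs]; norm_num
      · rw [conj_im, sub_im, add_im]; simp
    rw [← h7, Complex.Gamma_conj, Complex.norm_conj]
  have h7 : Gamma (s + 3) = (s + 2) * ((s + 1) * (s * Gamma s)) := by
    have e1 := Complex.Gamma_add_one s (by simpa using hne 0)
    have e2 := Complex.Gamma_add_one (s + 1) (by simpa using hne 1)
    have e3 := Complex.Gamma_add_one (s + 1 + 1) (by
      have := hne 2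
      intro h; apply this; rw [← h]; push_cast; ring)
    rw [show s + 3 = s + 1 + 1 + 1 by ring, e3, e2, e1]
    ring
  have hmono : ∀ c : ℝ, 0 ≤ c → c ≤ 2 → ‖s + c‖ ≤ ‖s + 5‖ := by
    intro c hc0 hc2
    rw [← Real.sqrt_sq (norm_nonneg (s + c)), ← Real.sqrt_sq (norm_nonneg (s + 5))]
    apply Real.sqrt_le_sqrt
    rw [← Complex.normSq_eq_norm_sq, ← Complex.normSq_eq_norm_sq, Complex.normSq_apply,
      Complex.normSq_apply, add_re, add_im, add_re, add_im, hs]
    simp
    nlinarith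
  have m0 := hmono 0 le_rfl (by norm_num)
  have m1 := hmono 1 (by norm_num) (by norm_num)
  have m2 := hmono 2 (by norm_num) le_rfl
  rw [Complex.ofReal_zero, add_zero] at m0
  rw [Complex.ofReal_one] at m1
  rw [Complex.ofReal_ofNat] at m2
  rw [L_norm, h5, hs]
  have hGne : Gamma s ≠ 0 := by
    apply Complex.Gamma_ne_zero
    intro m h
    exact hne m (by rw [h]; ring)
  calc ‖Λ two_pos' (CuspForm.translate f ModularGroup.S) (2 - s)‖ *
        ((2 * π) ^ (-1 / 2 : ℝ) * ‖(Gamma s)⁻¹‖)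
      ≤ (C * ‖Gamma (s + 3)‖) * ((2 * π) ^ (-1 / 2 : ℝ) * ‖(Gamma s)⁻¹‖) := by
        rw [← h6]
        exact mul_le_mul_of_nonneg_right h4 (by positivity)
    _ = C * (2 * π) ^ (-1 / 2 : ℝ) * (‖s + 2‖ * (‖s + 1‖ * ‖s‖)) := by
        rw [h7, norm_mul, norm_mul, norm_mul, norm_inv]
        have : ‖Gamma s‖ ≠ 0 := norm_ne_zero_iff.2 hGne
        field_simp
    _ ≤ C * (2 * π) ^ (-1 / 2 : ℝ) * (‖s + 5‖ * (‖s + 5‖ * ‖s + 5‖)) := by
        refine mul_le_mul_of_nonneg_left ?_ (by positivity)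
        gcongr
    _ = _ := by ring

/-- the right edge -/
lemma L_right (f : F) {σ : ℝ} (hσ : 2 < σ) : ∃ C : ℝ, 0 ≤ C ∧ ∀ s : ℂ, σ ≤ s.re →
    ‖L two_pos' f s‖ ≤ C * Γ.strictWidthInfty ^ s.re := by
  set h := Γ.strictWidthInfty with hh
  have hh0 : 0 < h := Γ.strictWidthInfty_pos
  have hsum : Summable fun n => ‖(qExpansion h f).coeff n / (n : ℂ) ^ (σ : ℂ)‖ :=
    (CuspForm.hasSum_L (s := (σ : ℂ)) two_pos' f (by
      rw [Complex.ofReal_re]; norm_num; linarith)).summable.norm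
  refine ⟨∑' n, ‖(qExpansion h f).coeff n / (n : ℂ) ^ (σ : ℂ)‖, tsum_nonneg fun _ => norm_nonneg _,
    fun s hs => ?_⟩
  have h1 := CuspForm.hasSum_L (s := s) two_pos' f (by norm_num; linarith)
  have h2 : ‖(h : ℂ) ^ (-s) * L two_pos' f s‖ ≤
      ∑' n, ‖(qExpansion h f).coeff n / (n : ℂ) ^ (σ : ℂ)‖ := by
    rw [← h1.tsum_eq]
    refine tsum_of_norm_bounded hsum.hasSum fun n => ?_
    rcases Nat.eq_zero_or_pos n with rfl | hn
    · have hs0 : s ≠ 0 := by rintro rfl; simp at hs; linarith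
      rw [Nat.cast_zero, Complex.zero_cpow hs0, div_zero, norm_zero]
      exact norm_nonneg _
    · rw [norm_div, norm_div, Complex.norm_natCast_cpow_of_pos hn, Complex.norm_natCast_cpow_of_pos hn,
        Complex.ofReal_re]
      have hn1 : (1 : ℝ) ≤ n := by exact_mod_cast hn
      have h3 := Real.rpow_le_rpow_of_exponent_le hn1 hs
      have h4 : 0 < (n : ℝ) ^ σ := by positivity
      gcongr
  rw [norm_mul, Complex.norm_cpow_eq_rpow_re_of_pos hh0, neg_re, Real.rpow_neg hh0.le] at h2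
  have h3 : 0 < h ^ s.re := by positivity
  rw [inv_mul_le_iff₀ h3] at h2
  linarith

/-- growth in the strip -/
theorem L_strip (f : F) : ∃ C : ℝ, 0 ≤ C ∧ ∀ s : ℂ, -1 / 2 ≤ s.re → s.re ≤ 5 / 2 →
    ‖L two_pos' f s‖ ≤ C * ‖s + 5‖ ^ 3 := by
  obtain ⟨C1, hC1, h1⟩ := L_left f
  obtain ⟨C2, hC2, h2⟩ := L_right f (σ := 5 / 2) (by norm_num)
  set h := Γ.strictWidthInfty with hh
  have hh0 : 0 < h := Γ.strictWidthInfty_pos
  have hP := CuspForm.isStrongFEPair two_pos' f
  obtain ⟨M1, hM1, h3⟩ := mellin_bound (f := (weakFEPair two_pos' f).f) (x0 := -1 / 2) (x1 := 5 / 2)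
    (hP.hasMellin _).1 (hP.hasMellin _).1
  obtain ⟨M2, hM2, h4⟩ := inv_Gamma_strip (-1 / 2) le_rfl 2
  set C : ℝ := max C1 (C2 * h ^ (5 / 2 : ℝ)) with hC
  have hne : ∀ s : ℂ, -1 / 2 ≤ s.re → s + 5 ≠ 0 := by
    intro s hs h0
    have := congrArg Complex.re h0
    rw [add_re, zero_re] at this
    simp at this
    linarith
  have hn1 : ∀ s : ℂ, -1 / 2 ≤ s.re → 1 ≤ ‖s + 5‖ := by
    intro s hs
    have h5 := Complex.re_le_norm (s + 5)
    rw [add_re] at h5
    simp at h5
    linarith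
  set g : ℂ → ℂ := fun s => L two_pos' f s / (s + 5) ^ 3 with hg
  have hgle : ∀ s : ℂ, -1 / 2 ≤ s.re → ‖g s‖ ≤ ‖L two_pos' f s‖ := by
    intro s hs
    rw [hg]
    simp only []
    rw [norm_div, norm_pow]
    exact div_le_self (norm_nonneg _) (one_le_pow₀ (hn1 s hs))
  have key : ∀ s : ℂ, -1 / 2 ≤ s.re → s.re ≤ 5 / 2 → ‖g s‖ ≤ C := by
    intro s hs1 hs2
    have hd : DiffContOnCl ℂ g (Complex.re ⁻¹' Ioo (-1 / 2 : ℝ) (5 / 2)) := by
      refine DifferentiableOn.diffContOnCl fun z hz => ?_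
      have hz' : -1 / 2 ≤ z.re := by
        have h5 : closure (Complex.re ⁻¹' Ioo (-1 / 2 : ℝ) (5 / 2)) ⊆ Complex.re ⁻¹' Icc (-1 / 2 : ℝ) (5 / 2) := by
          refine closure_minimal (preimage_mono Ioo_subset_Icc_self) ?_
          exact isClosed_Icc.preimage Complex.continuous_re
        exact (h5 hz).1
      refine DifferentiableAt.differentiableWithinAt ?_
      refine DifferentiableAt.div (CuspForm.differentiable_L two_pos' f z) (by fun_prop) ?_
      exact pow_ne_zero 3 (hne z hz')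
    refine PhragmenLindelof.vertical_strip hd ?_ ?_ ?_ hs1 hs2
    · refine ⟨1, ?_, ?_⟩
      · have := Real.pi_gt_three
        rw [lt_div_iff₀ (by norm_num)]
        linarith
      refine ⟨Real.pi + (M1 * ((2 * π) ^ (5 / 2 : ℝ) * M2)), ?_⟩
      refine Asymptotics.IsBigO.of_bound 1 ?_
      refine Filter.Eventually.filter_mono inf_le_right ?_
      refine eventually_principal.2 fun z hz => ?_
      have hz1 : -1 / 2 ≤ z.re := hz.1.le
      have hz2 : z.re ≤ 5 / 2 := hz.2.le
      have e1 := h3 z hz1 hz2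
      have e2 := h4 z hz1 (by push_cast; linarith)
      have e3 : ‖Λ two_pos' f z‖ ≤ M1 := by
        have : Λ two_pos' f z = mellin (weakFEPair two_pos' f).f z := congrFun hP.Λ_eq z
        rw [this]; exact e1
      have e4 : (2 * π) ^ z.re ≤ (2 * π) ^ (5 / 2 : ℝ) :=
        Real.rpow_le_rpow_of_exponent_le (by linarith [Real.pi_gt_three]) hz2
      have hpi := Real.pi_gt_three
      have e5 : ‖g z‖ ≤ M1 * ((2 * π) ^ (5 / 2 : ℝ) * (M2 * Real.exp (π * |z.im|))) := by
        refine (hgle z hz1).trans ?_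
        rw [L_norm]
        gcongr
      rw [one_mul, Real.norm_of_nonneg (Real.exp_pos _).le, one_mul]
      refine e5.trans ?_
      set K := M1 * ((2 * π) ^ (5 / 2 : ℝ) * M2) with hK
      have hK0 : 0 ≤ K := by rw [hK]; positivity
      have e6 : M1 * ((2 * π) ^ (5 / 2 : ℝ) * (M2 * Real.exp (π * |z.im|))) =
          K * Real.exp (π * |z.im|) := by rw [hK]; ring
      rw [e6]
      have e7 : K ≤ Real.exp K := (Real.add_one_le_exp K).trans' (by linarith)
      have e8 : |z.im| ≤ Real.exp |z.im| := (Real.add_one_le_exp _).trans' (by linarith)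
      have e9 : 1 ≤ Real.exp |z.im| := Real.one_le_exp (abs_nonneg _)
      calc K * Real.exp (π * |z.im|) ≤ Real.exp K * Real.exp (π * |z.im|) := by gcongr
        _ = Real.exp (K + π * |z.im|) := (Real.exp_add _ _).symm
        _ ≤ _ := by
          apply Real.exp_le_exp.2
          nlinarith
    · intro z hz
      have e1 := h1 z hz
      have e2 := hn1 z hz.ge
      rw [hg]
      simp only []
      rw [norm_div, norm_pow, div_le_iff₀ (by positivity)]
      refine e1.trans ?_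
      gcongr
      exact le_max_left _ _
    · intro z hz
      have e1 := h2 z hz.ge
      rw [hz] at e1
      exact (hgle z (by rw [hz]; norm_num)).trans (e1.trans (le_max_right _ _))
  refine ⟨C, le_max_of_le_left hC1, fun s hs1 hs2 => ?_⟩
  have h5 := key s hs1 hs2
  rw [hg] at h5
  simp only [] at h5
  rw [norm_div, norm_pow, div_le_iff₀ (by have := hn1 s hs1; positivity)] at h5
  exact h5

end forms

/-- growth for the group `Γ₀(N)` -/
theorem L_growth {N : ℕ} [NeZero N] (f : CuspForm (Gamma0 N : Subgroup (GL (Fin 2) ℝ)) 2) :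
    ∃ C : ℝ, 0 ≤ C ∧ ∀ s : ℂ, -1 / 2 ≤ s.re → ‖ModularForm.L two_pos' f s‖ ≤ C * ‖s + 5‖ ^ 3 := by
  obtain ⟨C1, hC1, h1⟩ := L_strip f
  obtain ⟨C2, hC2, h2⟩ := L_right f (σ := 5 / 2) (by norm_num)
  refine ⟨max C1 C2, le_max_of_le_left hC1, fun s hs => ?_⟩
  have hn1 : 1 ≤ ‖s + 5‖ := by
    have h5 := Complex.re_le_norm (s + 5)
    rw [add_re] at h5
    simp at h5
    linarith
  rcases le_total s.re (5 / 2) with h3 | h3
  · refine (h1 s hs h3).trans ?_
    gcongr
    exact le_max_left _ _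
  · have h4 := h2 s h3
    rw [strictWidthInfty_Gamma0, Real.one_rpow, mul_one] at h4
    refine h4.trans ((le_max_right C1 C2).trans ?_)
    refine le_mul_of_one_le_right (le_max_of_le_left hC1) ?_
    exact one_le_pow₀ hn1

/-- the Dirichlet series -/
theorem L_hasSum {N : ℕ} [NeZero N] (f : CuspForm (Gamma0 N : Subgroup (GL (Fin 2) ℝ)) 2) {s : ℂ}
    (hs : 2 < s.re) :
    HasSum (fun n : ℕ => (qExpansion 1 f).coeff n / (n : ℂ) ^ s) (ModularForm.L two_pos' f s) := by
  have h := CuspForm.hasSum_L two_pos' f (s := s) (by norm_num; linarith)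
  rw [strictWidthInfty_Gamma0, Complex.ofReal_one, Complex.one_cpow, one_mul] at h
  exact h

end Pool.Agent.V8H71.MS
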