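import Mathlib

/-!
# Primitives in a half plane
-/

set_option autoImplicit false
set_option maxHeartbeats 1000000

open Filter Topology Set Complex Metric

namespace Pool.Agent.V8H71.MS

/-- holomorphic functions in the right half plane have primitives -/
theorem half_prim0 {q : ℂ → ℂ} (hq : ∀ z : ℂ, 0 < z.re → DifferentiableAt ℂ q z) :
    ∃ l : ℂ → ℂ, ∀ z : ℂ, 0 < z.re → HasDerivAt l (q z) z := by
  set c : ℂ → ℂ := fun w => (1 + w) / (1 - w) with hc
  have hne : ∀ w ∈ ball (0 : ℂ) 1, (1 - w) ≠ 0 := by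
    intro w hw h
    rw [mem_ball_zero_iff] at hw
    have : w = 1 := by linear_combination -h
    rw [this, norm_one] at hw
    exact lt_irrefl _ hw
  have hre : ∀ w ∈ ball (0 : ℂ) 1, 0 < (c w).re := by
    intro w hw
    have h1 := hne w hw
    rw [mem_ball_zero_iff] at hw
    have h2 : Complex.normSq w < 1 := by
      rw [Complex.normSq_eq_norm_sq]
      nlinarith [norm_nonneg w]
    rw [hc]
    simp only []
    rw [Complex.div_re, Complex.normSq_apply]
    rw [Complex.normSq_apply] at h2
    have h3 : 0 < Complex.normSq (1 - w) := Complex.normSq_pos.2 h1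
    rw [Complex.normSq_apply] at h3
    simp only [Complex.add_re, Complex.sub_re, Complex.one_re, Complex.add_im, Complex.sub_im,
      Complex.one_im, zero_add, zero_sub] at h3 ⊢
    rw [← add_div]
    apply div_pos _ h3
    nlinarith
  have hcd : ∀ w ∈ ball (0 : ℂ) 1, HasDerivAt c (2 / (1 - w) ^ 2) w := by
    intro w hw
    have h1 := hne w hw
    have h2 : HasDerivAt c ((1 * (1 - w) - (1 + w) * (-1)) / (1 - w) ^ 2) w := by
      refine HasDerivAt.div ?_ ?_ h1
      · simpa using (hasDerivAt_id w).const_add 1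
      · simpa using (hasDerivAt_id w).const_sub 1
    convert h2 using 1
    congr 1
    ring
  have hd : DifferentiableOn ℂ (fun w => q (c w) * (2 / (1 - w) ^ 2)) (ball (0 : ℂ) 1) := by
    intro w hw
    refine DifferentiableAt.differentiableWithinAt ?_
    refine DifferentiableAt.mul ?_ ?_
    · exact DifferentiableAt.comp (g := q) (f := c) w (hq _ (hre w hw)) (hcd w hw).differentiableAt
    · exact (differentiableAt_const _).div (by fun_prop) (pow_ne_zero 2 (hne w hw))
  obtain ⟨l, hl⟩ := hd.isExactOn_ball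
  have hl' : ∀ z ∈ ball (0 : ℂ) 1, HasDerivAt l (q (c z) * (2 / (1 - z) ^ 2)) z := hl
  refine ⟨fun z => l ((z - 1) / (z + 1)), fun z hz => ?_⟩
  have h1 : z + 1 ≠ 0 := by
    intro h
    have := congrArg Complex.re h
    simp at this
    linarith
  have hmem : (z - 1) / (z + 1) ∈ ball (0 : ℂ) 1 := by
    rw [mem_ball_zero_iff, norm_div, div_lt_one (norm_pos_iff.2 h1)]
    rw [← Real.sqrt_sq (norm_nonneg (z - 1)), ← Real.sqrt_sq (norm_nonneg (z + 1))]
    apply Real.sqrt_lt_sqrt (sq_nonneg _)
    rw [← Complex.normSq_eq_norm_sq, ← Complex.normSq_eq_norm_sq, Complex.normSq_apply,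
      Complex.normSq_apply]
    simp only [Complex.add_re, Complex.sub_re, Complex.one_re, Complex.add_im, Complex.sub_im,
      Complex.one_im, sub_zero, add_zero]
    nlinarith
  have h2 : c ((z - 1) / (z + 1)) = z := by
    rw [hc]
    simp only []
    have e1 : 1 + (z - 1) / (z + 1) = 2 * z / (z + 1) := by field_simp; ring
    have e2 : 1 - (z - 1) / (z + 1) = 2 / (z + 1) := by field_simp; ring
    rw [e1, e2]
    field_simp
  have h3 : HasDerivAt (fun z : ℂ => (z - 1) / (z + 1)) ((1 * (z + 1) - (z - 1) * 1) / (z + 1) ^ 2) z := by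
    refine HasDerivAt.div ?_ ?_ h1
    · exact (hasDerivAt_id z).sub_const 1
    · exact (hasDerivAt_id z).add_const 1
  have h4 := HasDerivAt.comp z (hl' _ hmem) h3
  rw [h2] at h4
  refine h4.congr_deriv ?_
  have e2 : 1 - (z - 1) / (z + 1) = 2 / (z + 1) := by field_simp; ring
  rw [e2]
  field_simp
  ring

/-- holomorphic functions in a right half plane have primitives -/
theorem half_prim {q : ℂ → ℂ} {Θ : ℝ} (hq : ∀ z : ℂ, Θ < z.re → DifferentiableAt ℂ q z) :
    ∃ l : ℂ → ℂ, ∀ z : ℂ, Θ < z.re → HasDerivAt l (q z) z := by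
  obtain ⟨l, hl⟩ := half_prim0 (q := fun z => q (z + Θ)) (fun z hz =>
    DifferentiableAt.comp (g := q) (f := fun z : ℂ => z + Θ) z (hq _ (by simpa using hz)) (by fun_prop))
  refine ⟨fun z => l (z - Θ), fun z hz => ?_⟩
  have h1 := hl (z - Θ) (by simpa using hz)
  rw [sub_add_cancel] at h1
  have h2 := HasDerivAt.comp z h1 ((hasDerivAt_id z).sub_const (Θ : ℂ))
  rw [mul_one] at h2
  exact h2

lemma half_convex (Θ : ℝ) : Convex ℝ {z : ℂ | Θ < z.re} := convex_halfSpace_re_gt Θ

lemma half_open (Θ : ℝ) : IsOpen {z : ℂ | Θ < z.re} := isOpen_lt continuous_const Complex.continuous_re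

/-- functions with equal derivatives in a half plane -/
theorem half_eq {l m q : ℂ → ℂ} {Θ : ℝ} (hl : ∀ z : ℂ, Θ < z.re → HasDerivAt l (q z) z)
    (hm : ∀ z : ℂ, Θ < z.re → HasDerivAt m (q z) z) {z0 : ℂ} (h0 : Θ < z0.re) (he : l z0 = m z0)
    {z : ℂ} (hz : Θ < z.re) : l z = m z := by
  have h1 : ∀ w ∈ {z : ℂ | Θ < z.re}, HasDerivAt (fun w => l w - m w) 0 w := by
    intro w hw
    have := (hl w hw).sub (hm w hw)
    rwa [sub_self] at this
  have h2 := (half_convex Θ).is_const_of_fderivWithin_eq_zero (𝕜 := ℂ) (f := fun w => l w - m w)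
    (fun x hx => (h1 x hx).differentiableAt.differentiableWithinAt)
    (fun x hx => by
      have h5 := (h1 x hx).hasFDerivAt.hasFDerivWithinAt (s := {z : ℂ | Θ < z.re})
      rw [h5.fderivWithin ((half_open Θ).uniqueDiffWithinAt hx)]
      ext; simp) hz h0
  simp only [he, sub_self] at h2
  linear_combination h2

end Pool.Agent.V8H71.MS
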