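import Pool.Agent.V8H71.MS.Tb
import Pool.Agent.V8H71.MS.Hp
import Pool.Agent.V8H22.BSW.A6
import Pool.Agent.H370R2.Local
import Pool.Agent.W263.BSD.Lead5

/-!
# The logarithm of `Φ(z) / z^r` to the right of the zeros
-/

set_option autoImplicit false
set_option maxHeartbeats 1000000

open MeasureTheory Filter Topology Set Complex Metric
open Pool.Agent.V8H22.BSW (WD U Gw)
open Pool.Agent.W263.BSD (LInt lap lapC)

namespace Pool.Agent.V8H71.MS

/-- the analytic data -/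
structure An (f : ℝ → ℝ) (B : ℝ) (Φ G Φ1 : ℂ → ℂ) (r : ℕ) (Θ : ℝ) : Prop where
  W : WD f B Φ G (1 / 100)
  G0 : G 0 = 0
  Gre : ∀ x : ℝ, 0 < x → (G x).im = 0
  Gb : ∃ C : ℝ, ∀ z : ℂ, 0 < z.re → ‖G z‖ ≤ C
  Gb' : ∃ C : ℝ, ∀ z : ℂ, 0 < z.re → ‖deriv G z‖ ≤ C
  gro : ∃ C : ℝ, 0 ≤ C ∧ ∀ z : ℂ, -1 ≤ z.re → ‖Φ z‖ ≤ C * ‖z + 6‖ ^ 3
  three : ∃ C : ℝ, ∀ t : ℝ, ‖G ⟨3, t⟩ - ⟨3, t⟩ * U f 0 ⟨3, t⟩‖ ≤ C
  dΦ1 : Differentiable ℂ Φ1
  fac : ∀ z, Φ z = z ^ r * Φ1 z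
  h1 : Φ1 0 ≠ 0
  hΘ : 0 ≤ Θ
  hΘ2 : Θ < 2
  nz : ∀ z : ℂ, Θ < z.re → Φ z ≠ 0

/-- `log (|t| + 3)` -/
noncomputable def ln (t : ℝ) : ℝ := Real.log (|t| + 3)

lemma one_le_ln (t : ℝ) : 1 ≤ ln t := by
  unfold ln
  rw [Real.le_log_iff_exp_le (by positivity)]
  linarith [Real.exp_one_lt_three, abs_nonneg t]

variable {f : ℝ → ℝ} {B : ℝ} {Φ G Φ1 : ℂ → ℂ} {r : ℕ} {Θ : ℝ}

lemma An.nz1 (D : An f B Φ G Φ1 r Θ) {z : ℂ} (hz : Θ < z.re) : Φ1 z ≠ 0 := by
  intro h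
  exact D.nz z hz (by rw [D.fac, h, mul_zero])

/-- growth of `Φ1` -/
lemma An.gro1 (D : An f B Φ G Φ1 r Θ) : ∃ C : ℝ, 1 ≤ C ∧ ∀ z : ℂ, -1 ≤ z.re →
    ‖Φ1 z‖ ≤ C * ‖z + 6‖ ^ 3 := by
  obtain ⟨C1, hC1, h1⟩ := D.gro
  obtain ⟨C2, hC2⟩ := (isCompact_closedBall (0 : ℂ) 1).exists_bound_of_continuousOn
    (f := Φ1) D.dΦ1.continuous.continuousOn
  refine ⟨max 1 (max C1 C2), le_max_left _ _, fun z hz => ?_⟩
  have hz6 : 1 ≤ ‖z + 6‖ := by
    have := Complex.re_le_norm (z + 6)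
    rw [add_re] at this
    simp at this
    linarith
  rcases le_total ‖z‖ 1 with h | h
  · have h2 := hC2 z (by rw [mem_closedBall_zero_iff]; exact h)
    calc ‖Φ1 z‖ ≤ C2 := h2
      _ ≤ max 1 (max C1 C2) := (le_max_right _ _).trans (le_max_right _ _)
      _ ≤ _ := le_mul_of_one_le_right (le_trans zero_le_one (le_max_left _ _)) (one_le_pow₀ hz6)
  · have h2 := h1 z hz
    rw [D.fac, norm_mul, norm_pow] at h2
    have h3 : 1 ≤ ‖z‖ ^ r := one_le_pow₀ h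
    calc ‖Φ1 z‖ ≤ ‖z‖ ^ r * ‖Φ1 z‖ := le_mul_of_one_le_left (norm_nonneg _) h3
      _ ≤ C1 * ‖z + 6‖ ^ 3 := h2
      _ ≤ _ := by
        refine mul_le_mul_of_nonneg_right ?_ (by positivity)
        exact (le_max_left _ _).trans (le_max_right _ _)

lemma norm_three_le (t : ℝ) : ‖(⟨3, t⟩ : ℂ)‖ ≤ |t| + 3 := by
  have h := Complex.norm_le_abs_re_add_abs_im (⟨3, t⟩ : ℂ)
  simp only at h
  rw [abs_of_pos (show (0 : ℝ) < 3 by norm_num)] at h
  linarith

/-- bound of the logarithmic derivative -/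
lemma An.ld (D : An f B Φ G Φ1 r Θ) : ∃ C : ℝ, 0 ≤ C ∧ ∀ σ t : ℝ, Θ < σ → σ ≤ 3 →
    ‖deriv Φ1 ⟨σ, t⟩ / Φ1 ⟨σ, t⟩‖ ≤ C * ln t / (σ - Θ) := by
  obtain ⟨C1, hC1, hg⟩ := D.gro1
  obtain ⟨C2, h3⟩ := D.three
  set A : ℝ := Real.log C1 + 3 * 2 + 3 + |C2| + r with hA
  have hA0 : 0 ≤ A := by
    have := Real.log_nonneg hC1
    positivity
  set q1 : ℝ := Real.log (3.4 / 3.2) with hq1
  have hq10 : 0 < q1 := Real.log_pos (by norm_num)
  set q2 : ℝ := Real.log (3.2 / (3.4 - 3.2)) with hq2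
  have hq20 : 0 < q2 := Real.log_pos (by norm_num)
  set E : ℝ := A / q1 + 3 * (2 * (A + A / q1 * q2 + 1) * 3.1 / (3.2 - 3.1) / (3.1 - 3)) with hE
  have hE0 : 0 ≤ E := by
    have e1 : (0 : ℝ) < 3.2 - 3.1 := by norm_num
    have e2 : (0 : ℝ) < 3.1 - 3 := by norm_num
    positivity
  refine ⟨E, hE0, fun σ t hσ1 hσ2 => ?_⟩
  have hΘ := D.hΘ
  have hl := one_le_ln t
  have ht := abs_nonneg t
  set c : ℂ := ⟨3, t⟩ with hc
  have hcre : c.re = 3 := rfl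
  set M : ℝ := C1 * (5 * (|t| + 3)) ^ 3 with hM
  have hMb : ∀ z ∈ closedBall c 3.4, ‖Φ1 z‖ ≤ M := by
    intro z hz
    rw [mem_closedBall, dist_eq_norm] at hz
    have h4 := (Complex.abs_re_le_norm (z - c)).trans hz
    rw [Complex.sub_re, hcre] at h4
    have h5 := (abs_le.1 h4).1
    have h6 := hg z (by norm_num at h5; linarith)
    refine h6.trans ?_
    have h7 : ‖z + 6‖ ≤ 5 * (|t| + 3) := by
      have e : z + 6 = (z - c) + (c + 6) := by ring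
      rw [e]
      have h8 : ‖c + 6‖ ≤ |t| + 9 := by
        refine (norm_add_le _ _).trans ?_
        have := norm_three_le t
        have h6' : ‖(6 : ℂ)‖ = 6 := by norm_num
        rw [h6']
        linarith
      refine (norm_add_le _ _).trans ?_
      norm_num at hz
      linarith
    rw [hM]
    gcongr
  have hcb : c ∈ closedBall c 3.4 := mem_closedBall_self (by norm_num)
  have hM1 : 1 ≤ M := by
    rw [hM]
    have : 1 ≤ 5 * (|t| + 3) := by linarith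
    exact one_le_mul_of_one_le_of_one_le hC1 (one_le_pow₀ this)
  have hcne : Φ1 c ≠ 0 := D.nz1 (by rw [hcre]; linarith [D.hΘ2])
  -- lower bound
  have hlow : Real.log (M / ‖Φ1 c‖) ≤ A * ln t := by
    have h4 := D.W.eq c (by rw [hcre]; norm_num)
    have h5 : Real.exp (-|C2|) ≤ ‖Φ c‖ := by
      rw [h4, Complex.norm_exp]
      apply Real.exp_le_exp.2
      have h6 := h3 t
      have h7 := Complex.abs_re_le_norm (G c - c * U f 0 c)
      have h8 := (abs_le.1 (h7.trans h6)).1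
      have := le_abs_self C2
      linarith
    have hcn : 1 ≤ ‖c‖ := by
      have := Complex.re_le_norm c
      rw [hcre] at this
      linarith
    rw [D.fac, norm_mul, norm_pow] at h5
    have hc0 : 0 < ‖Φ1 c‖ := norm_pos_iff.2 hcne
    have h6 : Real.exp (-|C2|) / (|t| + 3) ^ r ≤ ‖Φ1 c‖ := by
      rw [div_le_iff₀ (by positivity), mul_comm]
      refine h5.trans ?_
      gcongr
      exact norm_three_le t
    have h7 : Real.log ‖Φ1 c‖ ≥ -|C2| - r * ln t := by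
      have h8 := Real.log_le_log (by positivity) h6
      rw [Real.log_div (by positivity) (by positivity), Real.log_exp, Real.log_pow] at h8
      exact h8
    rw [Real.log_div (by positivity) hc0.ne']
    have h9 : Real.log M = Real.log C1 + 3 * (Real.log 5 + ln t) := by
      rw [hM, Real.log_mul (by positivity) (by positivity), Real.log_pow,
        Real.log_mul (by norm_num) (by positivity)]
      push_cast
      rfl
    have h10 : Real.log 5 ≤ 2 := by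
      rw [Real.log_le_iff_le_exp (by norm_num)]
      have := Real.exp_one_gt_d9
      have h11 : Real.exp 2 = Real.exp 1 * Real.exp 1 := by rw [← Real.exp_add]; norm_num
      rw [h11]
      nlinarith
    rw [h9, hA]
    have h12 : Real.log C1 ≤ Real.log C1 * ln t := le_mul_of_one_le_right (Real.log_nonneg hC1) hl
    have h13 : |C2| ≤ |C2| * ln t := le_mul_of_one_le_right (abs_nonneg _) hl
    nlinarith
  have han : AnalyticOnNhd ℂ Φ1 (closedBall c 3.4) := fun z _ => D.dΦ1.analyticAt z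
  have hland := H370.Loc.landau (f := Φ1) (c := c) (r := 3.2) (r1 := 3.1) (r2 := 3) (R := 3.4)
    (M := M) (by norm_num) (by norm_num) (by norm_num) (by norm_num) (by norm_num) hM1
    (hMb c hcb) han hcne hMb ⟨σ, t⟩ (by
      rw [mem_closedBall, dist_eq_norm]
      have e : (⟨σ, t⟩ : ℂ) - c = ((σ - 3 : ℝ) : ℂ) := by
        apply Complex.ext <;> simp [hc]
      rw [e, Complex.norm_real, Real.norm_eq_abs, abs_le]
      constructor <;> linarith) (σ - Θ) (by linarith) (by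
      intro ρ hρ hFρ
      have h4 : ρ.re ≤ Θ := by
        by_contra hcon
        push Not at hcon
        exact D.nz1 hcon hFρ
      have h5 := Complex.re_le_norm ((⟨σ, t⟩ : ℂ) - ρ)
      rw [Complex.sub_re] at h5
      simp only at h5
      linarith)
  refine hland.2.trans ?_
  rw [← hq1, ← hq2]
  set L := Real.log (M / ‖Φ1 c‖) with hL
  have hδ : 0 < σ - Θ := by linarith
  have hδ3 : σ - Θ ≤ 3 := by linarith
  have e0 : A ≤ A * ln t := le_mul_of_one_le_right hA0 hl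
  have e1 : L / q1 / (σ - Θ) ≤ (A * ln t) / q1 / (σ - Θ) := by gcongr
  have e2 : 2 * (L + L / q1 * q2 + 1) * 3.1 / (3.2 - 3.1) / (3.1 - 3) ≤
      2 * (A * ln t + A * ln t / q1 * q2 + ln t) * 3.1 / (3.2 - 3.1) / (3.1 - 3) := by
    have f1 : (0 : ℝ) < 3.2 - 3.1 := by norm_num
    have f2 : (0 : ℝ) < 3.1 - 3 := by norm_num
    gcongr
  have e3 : 2 * (A * ln t + A * ln t / q1 * q2 + ln t) * 3.1 / (3.2 - 3.1) / (3.1 - 3) =
      (2 * (A + A / q1 * q2 + 1) * 3.1 / (3.2 - 3.1) / (3.1 - 3)) * ln t := by ring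
  have e4 : (2 * (A + A / q1 * q2 + 1) * 3.1 / (3.2 - 3.1) / (3.1 - 3)) * ln t ≤
      3 * (2 * (A + A / q1 * q2 + 1) * 3.1 / (3.2 - 3.1) / (3.1 - 3)) * ln t / (σ - Θ) := by
    rw [le_div_iff₀ hδ]
    have f0 : 0 ≤ (2 * (A + A / q1 * q2 + 1) * 3.1 / (3.2 - 3.1) / (3.1 - 3)) * ln t := by
      have f1 : (0 : ℝ) < 3.2 - 3.1 := by norm_num
      have f2 : (0 : ℝ) < 3.1 - 3 := by norm_num
      positivity
    nlinarith
  calc _ ≤ (A * ln t) / q1 / (σ - Θ) +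
        3 * (2 * (A + A / q1 * q2 + 1) * 3.1 / (3.2 - 3.1) / (3.1 - 3)) * ln t / (σ - Θ) :=
        add_le_add e1 (e2.trans (e3.le.trans e4))
    _ = _ := by rw [hE]; ring

end Pool.Agent.V8H71.MS
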