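import Pool.Agent.V8H71.MS.Lg

/-!
# The logarithm of `Φ(z) / z^r`: construction and bounds
-/

set_option autoImplicit false
set_option maxHeartbeats 1000000

open MeasureTheory Filter Topology Set Complex Metric
open Pool.Agent.V8H22.BSW (WD U Gw)
open Pool.Agent.W263.BSD (LInt lap lapC)

namespace Pool.Agent.V8H71.MS

variable {f : ℝ → ℝ} {B : ℝ} {Φ G Φ1 : ℂ → ℂ} {r : ℕ} {Θ : ℝ}

/-- the logarithm -/
structure Lm (f : ℝ → ℝ) (G Φ1 : ℂ → ℂ) (r : ℕ) (Θ : ℝ) (l : ℂ → ℂ) : Prop where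
  der : ∀ z : ℂ, Θ < z.re → HasDerivAt l (deriv Φ1 z / Φ1 z) z
  eq : ∀ z : ℂ, 2 < z.re → l z = G z - z * U f 0 z - r * Complex.log z

lemma An.mder (D : An f B Φ G Φ1 r Θ) {z : ℂ} (hz : 2 < z.re) :
    HasDerivAt (fun z => G z - z * U f 0 z - r * Complex.log z) (deriv Φ1 z / Φ1 z) z := by
  set m : ℂ → ℂ := fun z => G z - z * U f 0 z - r * Complex.log z with hm
  have hexp : ∀ w : ℂ, 2 < w.re → Φ1 w = cexp (m w) := by
    intro w hw
    have hw0 : w ≠ 0 := by rintro rfl; simp at hw; linarith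
    have h1 := D.W.eq w hw
    rw [D.fac] at h1
    rw [hm]
    simp only []
    have h2 : cexp (Complex.log w) = w := Complex.exp_log hw0
    rw [Complex.exp_sub, ← h1, Complex.exp_nat_mul, h2]
    field_simp
  have hz0 : 0 < z.re := by linarith
  have hd : DifferentiableAt ℂ m z := by
    refine DifferentiableAt.sub (DifferentiableAt.sub ?_ ?_) ?_
    · exact D.W.hG z (by linarith)
    · exact differentiableAt_id.mul (D.W.gw.hasDerivAt_U 0 hz).differentiableAt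
    · exact (Complex.differentiableAt_log (Or.inl hz0)).const_mul _
  have h1 : HasDerivAt (fun w => cexp (m w)) (cexp (m z) * deriv m z) z := hd.hasDerivAt.cexp
  have h2 : Φ1 =ᶠ[𝓝 z] fun w => cexp (m w) := by
    filter_upwards [(half_open 2).mem_nhds hz] with w hw using hexp w hw
  have h3 := (h1.congr_of_eventuallyEq h2).deriv
  have h4 : deriv Φ1 z / Φ1 z = deriv m z := by
    rw [h3, hexp z hz, mul_div_cancel_left₀ _ (Complex.exp_ne_zero _)]
  rw [h4]
  exact hd.hasDerivAt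

theorem An.exists_lam (D : An f B Φ G Φ1 r Θ) : ∃ l : ℂ → ℂ, Lm f G Φ1 r Θ l := by
  obtain ⟨l0, hl0⟩ := half_prim (q := fun z => deriv Φ1 z / Φ1 z) (Θ := Θ) (fun z hz =>
    (((D.dΦ1.analyticAt z).deriv).div (D.dΦ1.analyticAt z) (D.nz1 hz)).differentiableAt)
  set m : ℂ → ℂ := fun z => G z - z * U f 0 z - r * Complex.log z with hm
  refine ⟨fun z => l0 z + (m 3 - l0 3), fun z hz => (hl0 z hz).add_const _, fun z hz => ?_⟩
  have hΘ2 := D.hΘ2
  refine half_eq (l := fun z => l0 z + (m 3 - l0 3)) (m := m) (Θ := 2)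
    (fun z hz => (hl0 z (by linarith)).add_const _) (fun z hz => D.mder hz) (z0 := 3) (by norm_num)
    (by ring) hz

variable {l : ℂ → ℂ}

lemma Lm.exp (L : Lm f G Φ1 r Θ l) (D : An f B Φ G Φ1 r Θ) {z : ℂ} (hz : Θ < z.re) :
    cexp (l z) = Φ1 z := by
  have hΘ2 := D.hΘ2
  have h1 : ∀ w : ℂ, Θ < w.re → HasDerivAt (fun w => Φ1 w * cexp (-l w)) 0 w := by
    intro w hw
    have h2 := (D.dΦ1 w).hasDerivAt.mul ((L.der w hw).neg.cexp)
    refine h2.congr_deriv ?_
    have := D.nz1 hw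
    field_simp
    simp
  have h3 := half_eq (l := fun w => Φ1 w * cexp (-l w)) (m := fun _ => (1 : ℂ)) (q := fun _ => 0)
    (Θ := Θ) h1 (fun w _ => hasDerivAt_const w 1) (z0 := 3) (by simpa using by linarith) (by
      rw [L.eq 3 (by norm_num), Complex.exp_neg]
      have h4 := D.W.eq 3 (by norm_num)
      rw [D.fac] at h4
      rw [Complex.exp_sub, ← h4, Complex.exp_nat_mul, Complex.exp_log (by norm_num)]
      have h5 : Φ1 3 ≠ 0 := D.nz1 (by simpa using by linarith)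
      have h6 : ((3 : ℂ)) ^ r ≠ 0 := pow_ne_zero _ (by norm_num)
      field_simp) hz
  rw [Complex.exp_neg] at h3
  have h7 := Complex.exp_ne_zero (l z)
  field_simp at h3
  exact h3.symm

lemma Lm.real (L : Lm f G Φ1 r Θ l) (D : An f B Φ G Φ1 r Θ) {x : ℝ} (hx : Θ < x) :
    (l x).im = 0 := by
  have hΘ2 := D.hΘ2
  have hA : AnalyticOnNhd ℝ (fun x : ℝ => (l x).im) (Ioi Θ) := by
    intro y hy
    have hy' : Θ < ((y : ℝ) : ℂ).re := by simpa using hy
    have h1 : AnalyticAt ℂ l y := by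
      rw [Complex.analyticAt_iff_eventually_differentiableAt]
      filter_upwards [(half_open Θ).mem_nhds hy'] with w hw using (L.der w hw).differentiableAt
    exact h1.im_ofReal
  have hB : AnalyticOnNhd ℝ (fun _ : ℝ => (0 : ℝ)) (Ioi Θ) := fun y _ => analyticAt_const
  have hev : (fun x : ℝ => (l x).im) =ᶠ[𝓝 3] fun _ => 0 := by
    filter_upwards [Ioi_mem_nhds (show (2 : ℝ) < 3 by norm_num)] with y hy
    have hy' : (2 : ℝ) < y := hy
    have hy0 : (0 : ℝ) < y := by linarith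
    rw [L.eq y (by simpa using hy'), Pool.Agent.V8H22.BSW.U_real]
    rw [Complex.sub_im, Complex.sub_im, D.Gre y hy0, ← Complex.ofReal_mul, Complex.ofReal_im,
      ← Complex.ofReal_log hy0.le, ← Complex.ofReal_natCast, ← Complex.ofReal_mul, Complex.ofReal_im]
    norm_num
  exact hA.eqOn_of_preconnected_of_eventuallyEq hB isPreconnected_Ioi
    (show (3 : ℝ) ∈ Ioi Θ by show Θ < 3; linarith) hev hx

/-- bound on the line `Re z = 3` -/
lemma Lm.three (L : Lm f G Φ1 r Θ l) (D : An f B Φ G Φ1 r Θ) : ∃ C : ℝ, 0 ≤ C ∧ ∀ t : ℝ,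
    ‖l ⟨3, t⟩‖ ≤ C * ln t := by
  obtain ⟨C, hC⟩ := D.three
  refine ⟨|C| + r * 5, by positivity, fun t => ?_⟩
  have hl := one_le_ln t
  rw [L.eq _ (by show (2 : ℝ) < 3; norm_num)]
  have h1 : ‖Complex.log (⟨3, t⟩ : ℂ)‖ ≤ 5 * ln t := by
    have h2 := Complex.norm_le_abs_re_add_abs_im (Complex.log (⟨3, t⟩ : ℂ))
    rw [Complex.log_re, Complex.log_im] at h2
    have h3 := Complex.abs_arg_le_pi (⟨3, t⟩ : ℂ)
    have h4 : 1 ≤ ‖(⟨3, t⟩ : ℂ)‖ := by
      have := Complex.re_le_norm (⟨3, t⟩ : ℂ)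
      simp only at this
      linarith
    have h5 := Real.log_nonneg h4
    rw [abs_of_nonneg h5] at h2
    have h6 : Real.log ‖(⟨3, t⟩ : ℂ)‖ ≤ ln t := Real.log_le_log (by linarith) (norm_three_le t)
    have := Real.pi_lt_four
    linarith
  refine (norm_sub_le _ _).trans ?_
  rw [norm_mul, Complex.norm_natCast]
  have h2 := (hC t).trans (le_abs_self C)
  have h3 : |C| ≤ |C| * ln t := le_mul_of_one_le_right (abs_nonneg _) hl
  have h4 : (r : ℝ) * ‖Complex.log (⟨3, t⟩ : ℂ)‖ ≤ r * (5 * ln t) :=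
    mul_le_mul_of_nonneg_left h1 (Nat.cast_nonneg r)
  linarith

/-- bound to the left of `Re z = 3` -/
lemma Lm.bound (L : Lm f G Φ1 r Θ l) (D : An f B Φ G Φ1 r Θ) : ∃ C : ℝ, 0 ≤ C ∧
    ∀ σ t : ℝ, Θ < σ → σ < 3 → ‖l ⟨σ, t⟩‖ ≤ C * (1 + Real.log (3 / (σ - Θ))) * ln t := by
  obtain ⟨C1, hC1, h1⟩ := L.three D
  obtain ⟨C2, hC2, h2⟩ := D.ld
  refine ⟨C1 + C2, by positivity, fun σ t hσ hσ3 => ?_⟩
  have hΘ := D.hΘ
  have hl := one_le_ln t
  have hder : ∀ x : ℝ, Θ < x → HasDerivAt (fun x : ℝ => l ⟨x, t⟩)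
      (deriv Φ1 ⟨x, t⟩ / Φ1 ⟨x, t⟩) x := by
    intro x hx
    have h3 : HasDerivAt (fun x : ℝ => (⟨x, t⟩ : ℂ)) 1 x := by
      have h4 : (fun x : ℝ => (⟨x, t⟩ : ℂ)) = fun x : ℝ => (x : ℂ) + t * Complex.I := by
        funext x
        apply Complex.ext <;> simp
      rw [h4]
      exact (Complex.ofRealCLM.hasDerivAt (x := x)).add_const _
    have h5 := HasDerivAt.comp_of_eq (h₂ := l) (h := fun x : ℝ => (⟨x, t⟩ : ℂ)) x
      (L.der ⟨x, t⟩ hx) h3 rfl
    rw [mul_one] at h5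
    exact h5
  have h6 := image_norm_le_of_norm_deriv_right_le_deriv_boundary' (a := σ) (b := 3)
    (f := fun x : ℝ => l ⟨x, t⟩ - l ⟨σ, t⟩) (f' := fun x : ℝ => deriv Φ1 ⟨x, t⟩ / Φ1 ⟨x, t⟩)
    (B := fun x : ℝ => C2 * ln t * (Real.log (x - Θ) - Real.log (σ - Θ)))
    (B' := fun x : ℝ => C2 * ln t / (x - Θ))
    (by
      intro x hx
      exact ((hder x (by linarith [hx.1])).sub_const _).continuousAt.continuousWithinAt)
    (by
      intro x hx
      exact ((hder x (by linarith [hx.1])).sub_const _).hasDerivWithinAt)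
    (by simp)
    (by
      intro x hx
      have hx0 : x - Θ ≠ 0 := by have := hx.1; intro h; linarith
      refine ContinuousAt.continuousWithinAt ?_
      refine (ContinuousAt.sub ?_ continuousAt_const).const_mul _
      exact ContinuousAt.log (by fun_prop) hx0)
    (by
      intro x hx
      have hx0 : x - Θ ≠ 0 := by have := hx.1; intro h; linarith
      have h7 : HasDerivAt (fun x : ℝ => C2 * ln t * (Real.log (x - Θ) - Real.log (σ - Θ)))
          (C2 * ln t * (1 / (x - Θ))) x :=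
        ((((hasDerivAt_id x).sub_const Θ).log hx0).sub_const _).const_mul _
      refine (h7.congr_deriv ?_).hasDerivWithinAt
      ring)
    (by
      intro x hx
      exact h2 x t (by linarith [hx.1]) hx.2.le)
    (x := 3) ⟨hσ3.le, le_rfl⟩
  have h7 : Real.log (3 - Θ) - Real.log (σ - Θ) ≤ Real.log (3 / (σ - Θ)) := by
    rw [Real.log_div (by norm_num) (by linarith)]
    have := Real.log_le_log (show 0 < 3 - Θ by linarith) (show 3 - Θ ≤ 3 by linarith)
    linarith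
  have h8 : 0 ≤ Real.log (3 / (σ - Θ)) := by
    apply Real.log_nonneg
    rw [le_div_iff₀ (by linarith)]
    linarith
  have h9 : ‖l ⟨σ, t⟩‖ ≤ ‖l ⟨3, t⟩‖ + ‖l ⟨3, t⟩ - l ⟨σ, t⟩‖ := by
    have : l ⟨σ, t⟩ = l ⟨3, t⟩ - (l ⟨3, t⟩ - l ⟨σ, t⟩) := by ring
    conv_lhs => rw [this]
    exact norm_sub_le _ _
  have h10 : C2 * ln t * (Real.log (3 - Θ) - Real.log (σ - Θ)) ≤
      C2 * ln t * Real.log (3 / (σ - Θ)) := mul_le_mul_of_nonneg_left h7 (by positivity)
  have h11 := h1 t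
  have h12 : 0 ≤ C1 * Real.log (3 / (σ - Θ)) * ln t := by positivity
  have h13 : 0 ≤ C2 * ln t := by positivity
  calc ‖l ⟨σ, t⟩‖ ≤ C1 * ln t + C2 * ln t * Real.log (3 / (σ - Θ)) := by linarith
    _ ≤ _ := by nlinarith

end Pool.Agent.V8H71.MS
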