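import Pool.Agent.V8H71.MS.Lg2

/-!
# The Laplace transform of `f(u) - r log u - const` and its continuation
-/

set_option autoImplicit false
set_option maxHeartbeats 1000000

open MeasureTheory Filter Topology Set Complex Metric
open Pool.Agent.V8H22.BSW (WD U Gw)
open Pool.Agent.W263.BSD (LInt lap lapC lapC_ofReal lapC_differentiableAt integral_log_exp
  integrable_log_exp one_LInt one_lap pow_LInt pow_lap LInt_exp)

namespace Pool.Agent.V8H71.MS

variable {f : ℝ → ℝ} {B : ℝ} {Φ G Φ1 : ℂ → ℂ} {r : ℕ} {Θ : ℝ} {l : ℂ → ℂ}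

/-- behaviour near `0` -/
lemma Lm.near (L : Lm f G Φ1 r Θ l) (D : An f B Φ G Φ1 r Θ) :
    ∃ δ : ℝ, 0 < δ ∧ δ ≤ 1 ∧ ∃ C : ℝ, 0 ≤ C ∧ ∀ z : ℂ, Θ < z.re → ‖z‖ < δ →
      ‖l z - (Real.log ‖Φ1 0‖ : ℂ)‖ ≤ C * ‖z‖ := by
  rcases D.hΘ.eq_or_lt with hΘ | hΘ
  swap
  · refine ⟨min Θ 1, by positivity, min_le_right _ _, 0, le_rfl, fun z h1 h2 => ?_⟩
    have h3 := Complex.re_le_norm z
    have h4 := min_le_left Θ 1
    exfalso
    linarith
  have hc : ContinuousAt (fun z => deriv Φ1 z / Φ1 z) 0 :=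
    (((D.dΦ1.analyticAt 0).deriv).div (D.dΦ1.analyticAt 0) D.h1).continuousAt
  set C : ℝ := ‖deriv Φ1 0 / Φ1 0‖ + 1 with hC
  have hev : ∀ᶠ z in 𝓝 (0 : ℂ), ‖deriv Φ1 z / Φ1 z‖ < C :=
    hc.norm.eventually (gt_mem_nhds (by rw [hC]; linarith))
  obtain ⟨δ0, hδ0, hball⟩ := Metric.eventually_nhds_iff_ball.1 hev
  set δ : ℝ := min δ0 1 with hδ
  have hδ1 : 0 < δ := by positivity
  refine ⟨δ, hδ1, min_le_right _ _, C, by positivity, fun z h1 h2 => ?_⟩
  have hlip : ∀ x : ℝ, 0 < x → x < δ → ‖l z - l x‖ ≤ C * ‖z - x‖ := by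
    intro x hx0 hx1
    set S : Set ℂ := ball 0 δ ∩ {z : ℂ | 0 < z.re} with hS
    have hSc : Convex ℝ S := (convex_ball _ _).inter (half_convex 0)
    refine Convex.norm_image_sub_le_of_norm_hasDerivWithin_le (f := l)
      (f' := fun z => deriv Φ1 z / Φ1 z) (s := S) (C := C) (x := (x : ℂ)) (y := z)
      (fun w hw => (L.der w (by rw [← hΘ]; exact hw.2)).hasDerivWithinAt)
      (fun w hw => ?_) hSc ?_ ?_
    · exact (hball w (ball_subset_ball (min_le_left _ _) hw.1)).le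
    · refine ⟨?_, by simpa using hx0⟩
      rw [mem_ball_zero_iff, Complex.norm_real, Real.norm_of_nonneg hx0.le]
      exact hx1
    · exact ⟨by rw [mem_ball_zero_iff]; exact h2, by rw [hΘ]; exact h1⟩
  have hlr : ∀ x : ℝ, 0 < x → l x = ((Real.log ‖Φ1 x‖ : ℝ) : ℂ) := by
    intro x hx
    have hx' : Θ < x := by rw [← hΘ]; exact hx
    have h3 := L.exp D (z := (x : ℂ)) (by simpa using hx')
    have h4 : ‖Φ1 x‖ = Real.exp (l x).re := by rw [← h3, Complex.norm_exp]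
    rw [h4, Real.log_exp]
    apply Complex.ext
    · simp
    · rw [L.real D hx', Complex.ofReal_im]
  have hlim : Tendsto (fun x : ℝ => ((Real.log ‖Φ1 x‖ : ℝ) : ℂ)) (𝓝[>] 0)
      (𝓝 ((Real.log ‖Φ1 0‖ : ℝ) : ℂ)) := by
    refine tendsto_nhdsWithin_of_tendsto_nhds ?_
    have h3 : Tendsto (fun x : ℝ => ‖Φ1 x‖) (𝓝 0) (𝓝 ‖Φ1 0‖) := by
      have h4 : Continuous fun x : ℝ => ‖Φ1 x‖ :=
        (D.dΦ1.continuous.comp Complex.continuous_ofReal).norm
      have := h4.tendsto 0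
      simpa using this
    exact (Complex.continuous_ofReal.tendsto _).comp
      (h3.log (norm_ne_zero_iff.2 D.h1))
  have hL : Tendsto (fun x : ℝ => ‖l z - l x‖) (𝓝[>] 0) (𝓝 ‖l z - (Real.log ‖Φ1 0‖ : ℂ)‖) := by
    refine (tendsto_const_nhds.sub (hlim.congr' ?_)).norm
    filter_upwards [self_mem_nhdsWithin] with x hx using (hlr x hx).symm
  have hR : Tendsto (fun x : ℝ => C * ‖z - x‖) (𝓝[>] 0) (𝓝 (C * ‖z‖)) := by
    refine tendsto_nhdsWithin_of_tendsto_nhds ?_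
    have h4 : Continuous fun x : ℝ => C * ‖z - x‖ := by fun_prop
    have := h4.tendsto 0
    simpa using this
  refine le_of_tendsto_of_tendsto hL hR ?_
  filter_upwards [Ioo_mem_nhdsGT hδ1] with x hx using hlip x hx.1 hx.2

/-- the continuation -/
noncomputable def HH (G l : ℂ → ℂ) (c0 : ℝ) (z : ℂ) : ℂ := (G z - l z + (Real.log c0 : ℝ)) / z

lemma ln_le (t : ℝ) : ln t ≤ 8 * (1 + |t|) ^ (1 / 4 : ℝ) := by
  unfold ln
  have ht := abs_nonneg t
  have h1 : |t| + 3 ≤ 3 * (1 + |t|) := by linarith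
  have h2 := Real.log_le_rpow_div (show 0 ≤ |t| + 3 by positivity) (show (0 : ℝ) < 1 / 4 by norm_num)
  refine h2.trans ?_
  have h3 : (|t| + 3) ^ (1 / 4 : ℝ) ≤ (3 * (1 + |t|)) ^ (1 / 4 : ℝ) :=
    Real.rpow_le_rpow (by positivity) h1 (by norm_num)
  rw [Real.mul_rpow (by norm_num) (by positivity)] at h3
  have h4 : (3 : ℝ) ^ (1 / 4 : ℝ) ≤ 2 := by
    have h5 : (2 : ℝ) = ((2 : ℝ) ^ (4 : ℕ)) ^ (1 / 4 : ℝ) := by
      rw [← Real.rpow_natCast, ← Real.rpow_mul (by norm_num)]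
      norm_num
    rw [h5]
    exact Real.rpow_le_rpow (by norm_num) (by norm_num) (by norm_num)
  have h6 : 0 ≤ (1 + |t|) ^ (1 / 4 : ℝ) := by positivity
  have h7 : (3 : ℝ) ^ (1 / 4 : ℝ) * (1 + |t|) ^ (1 / 4 : ℝ) ≤ 2 * (1 + |t|) ^ (1 / 4 : ℝ) :=
    mul_le_mul_of_nonneg_right h4 h6
  rw [div_le_iff₀ (by norm_num)]
  linarith

lemma ln_wt (t : ℝ) : ln t / (1 + |t|) ≤ 8 * wt t := by
  have ht := abs_nonneg t
  rw [div_le_iff₀ (by positivity)]
  refine (ln_le t).trans (le_of_eq ?_)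
  unfold wt
  have h1 : 0 < 1 + |t| := by positivity
  rw [mul_assoc]
  congr 1
  nth_rewrite 3 [← Real.rpow_one (1 + |t|)]
  rw [← Real.rpow_add h1]
  norm_num

/-- the bound of `H` -/
theorem Lm.HH_bound (L : Lm f G Φ1 r Θ l) (D : An f B Φ G Φ1 r Θ) : ∃ C : ℝ, 0 ≤ C ∧
    ∀ σ t : ℝ, Θ < σ → σ < 3 →
      ‖HH G l ‖Φ1 0‖ ⟨σ, t⟩‖ ≤ C * (1 + Real.log (3 / (σ - Θ))) * wt t := by
  obtain ⟨CG, hCG⟩ := D.Gb
  obtain ⟨C1, hC1, h1⟩ := L.bound D
  obtain ⟨δ1, hδ1, hδ11, C2, hC2, h2⟩ := L.near D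
  -- `G` near `0`
  have hG0 : ∃ δ2 : ℝ, 0 < δ2 ∧ ∃ C3 : ℝ, 0 ≤ C3 ∧ ∀ z : ℂ, ‖z‖ < δ2 → ‖G z‖ ≤ C3 * ‖z‖ := by
    have h3 : DifferentiableAt ℂ G 0 := D.W.hG 0 (by simp)
    have h4 := h3.isBigO_sub
    obtain ⟨C3, hC3⟩ := h4.bound
    obtain ⟨δ2, hδ2, hb⟩ := Metric.eventually_nhds_iff_ball.1 hC3
    refine ⟨δ2, hδ2, |C3|, abs_nonneg _, fun z hz => ?_⟩
    have h5 := hb z (by rw [mem_ball_zero_iff]; exact hz)
    rw [D.G0, sub_zero, sub_zero] at h5
    exact h5.trans (mul_le_mul_of_nonneg_right (le_abs_self _) (norm_nonneg _))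
  obtain ⟨δ2, hδ2, C3, hC3, h3⟩ := hG0
  set δ : ℝ := min δ1 δ2 with hδ
  have hδ0 : 0 < δ := by positivity
  set E1 : ℝ := |CG| + C1 + |Real.log ‖Φ1 0‖| with hE1
  have hE10 : 0 ≤ E1 := by positivity
  refine ⟨E1 * (1 / δ + 1) * 8 + (C2 + C3) * 2, by positivity, fun σ t hσ hσ3 => ?_⟩
  have hΘ := D.hΘ
  have hσ0 : 0 < σ := by linarith
  have hln := one_le_ln t
  have hlog : 0 ≤ Real.log (3 / (σ - Θ)) := by
    apply Real.log_nonneg
    rw [le_div_iff₀ (by linarith)]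
    linarith
  have hwt := wt_pos t
  set z : ℂ := ⟨σ, t⟩ with hz
  have hzre : z.re = σ := rfl
  have hz0 : z ≠ 0 := by
    intro h
    have := congrArg Complex.re h
    rw [hzre, Complex.zero_re] at this
    linarith
  have hzn : 0 < ‖z‖ := norm_pos_iff.2 hz0
  set Q : ℝ := 1 + Real.log (3 / (σ - Θ)) with hQ
  have hQ1 : 1 ≤ Q := by rw [hQ]; linarith
  rcases lt_or_ge ‖z‖ δ with hsm | hbig
  · have e1 := h2 z (by rw [hzre]; exact hσ) (lt_of_lt_of_le hsm (min_le_left _ _))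
    have e2 := h3 z (lt_of_lt_of_le hsm (min_le_right _ _))
    have e3 : ‖HH G l ‖Φ1 0‖ z‖ ≤ C2 + C3 := by
      unfold HH
      rw [norm_div, div_le_iff₀ hzn]
      have e4 : G z - l z + ((Real.log ‖Φ1 0‖ : ℝ) : ℂ) = G z - (l z - (Real.log ‖Φ1 0‖ : ℂ)) := by
        ring
      rw [e4]
      refine (norm_sub_le _ _).trans ?_
      have e5 : ((Real.log ‖Φ1 0‖ : ℝ) : ℂ) = (Real.log ‖Φ1 0‖ : ℂ) := rfl
      linarith
    have e6 : |t| ≤ 1 := by
      have h7 := Complex.abs_im_le_norm z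
      have h8 : z.im = t := rfl
      rw [h8] at h7
      have := min_le_left δ1 δ2
      linarith
    have e7 : 1 / 2 ≤ wt t := by
      unfold wt
      have h8 : (1 + |t|) ^ (3 / 4 : ℝ) ≤ 2 := by
        calc (1 + |t|) ^ (3 / 4 : ℝ) ≤ (1 + |t|) ^ (1 : ℝ) :=
              Real.rpow_le_rpow_of_exponent_le (by linarith [abs_nonneg t]) (by norm_num)
          _ ≤ 2 := by rw [Real.rpow_one]; linarith
      rw [Real.rpow_neg (by positivity), one_div]
      exact inv_anti₀ (by positivity) h8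
    have e8 : 1 / 2 ≤ Q * wt t := by nlinarith
    calc _ ≤ C2 + C3 := e3
      _ ≤ (C2 + C3) * 2 * (Q * wt t) := by nlinarith
      _ ≤ _ := by
        have : 0 ≤ E1 * (1 / δ + 1) * 8 * (Q * wt t) := by positivity
        nlinarith
  · have e1 := h1 σ t hσ hσ3
    have e2 := (hCG z (by rw [hzre]; exact hσ0)).trans (le_abs_self CG)
    have e3 : ‖G z - l z + (Real.log ‖Φ1 0‖ : ℝ)‖ ≤ E1 * (Q * ln t) := by
      refine (norm_add_le _ _).trans ?_
      have e4 := norm_sub_le (G z) (l z)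
      rw [Complex.norm_real, Real.norm_eq_abs]
      have e5 : 1 ≤ Q * ln t := one_le_mul_of_one_le_of_one_le hQ1 hln
      have e6 : |CG| ≤ |CG| * (Q * ln t) := le_mul_of_one_le_right (abs_nonneg _) e5
      have e7 : |Real.log ‖Φ1 0‖| ≤ |Real.log ‖Φ1 0‖| * (Q * ln t) :=
        le_mul_of_one_le_right (abs_nonneg _) e5
      rw [hE1]
      nlinarith
    have e4 : 1 + |t| ≤ (1 / δ + 1) * ‖z‖ := by
      have h7 := Complex.abs_im_le_norm z
      have h8 : z.im = t := rfl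
      rw [h8] at h7
      have h9 : 1 ≤ 1 / δ * ‖z‖ := by
        rw [div_mul_eq_mul_div, one_mul, le_div_iff₀ hδ0, one_mul]
        exact hbig
      linarith
    have ht1 : 0 < 1 + |t| := by positivity
    unfold HH
    rw [norm_div]
    calc _ ≤ E1 * (Q * ln t) / ‖z‖ := by gcongr
      _ ≤ E1 * (Q * ln t) * ((1 / δ + 1) / (1 + |t|)) := by
          rw [div_eq_mul_inv]
          refine mul_le_mul_of_nonneg_left ?_ (by positivity)
          rw [inv_eq_one_div, div_le_div_iff₀ hzn ht1, one_mul]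
          exact e4
      _ = E1 * (1 / δ + 1) * Q * (ln t / (1 + |t|)) := by ring
      _ ≤ E1 * (1 / δ + 1) * Q * (8 * wt t) :=
          mul_le_mul_of_nonneg_left (ln_wt t) (by positivity)
      _ ≤ _ := by
        have : 0 ≤ (C2 + C3) * 2 * (Q * wt t) := by positivity
        nlinarith

lemma log_abs_le {u : ℝ} (hu : 0 < u) : |Real.log u| ≤ u + 4 * u ^ (-(1 / 4) : ℝ) := by
  have h0 : 0 < u ^ (-(1 / 4) : ℝ) := Real.rpow_pos_of_pos hu _
  rcases le_total 1 u with h | h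
  · rw [abs_of_nonneg (Real.log_nonneg h)]
    have := Real.log_le_sub_one_of_pos hu
    linarith
  · rw [abs_of_nonpos (Real.log_nonpos hu.le h)]
    have h1 := Real.log_le_rpow_div (x := u⁻¹) (by positivity) (show (0 : ℝ) < 1 / 4 by norm_num)
    rw [Real.log_inv, Real.inv_rpow hu.le, ← Real.rpow_neg hu.le] at h1
    have h2 : u ^ (-(1 / 4) : ℝ) / (1 / 4) = 4 * u ^ (-(1 / 4) : ℝ) := by ring
    rw [h2] at h1
    linarith

lemma rpow_LInt {s w : ℝ} (hs : -1 < s) (hw : 0 < w) : LInt (fun u => u ^ s) w := by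
  have h := integrableOn_rpow_mul_exp_neg_mul_rpow (s := s) (p := 1) (b := w) hs one_pos hw
  unfold LInt
  refine h.congr_fun (fun u _ => ?_) measurableSet_Ioi
  simp

lemma log_LInt {w : ℝ} (hw : 0 < w) : LInt Real.log w := by
  have h1 : LInt (fun u => u ^ 1 + 4 * u ^ (-(1 / 4) : ℝ)) w :=
    (pow_LInt 1 hw).add ((rpow_LInt (by norm_num) hw).const_mul 4)
  refine Pool.Agent.W263.BSD.LInt.of_bound Real.measurable_log h1 fun u hu => ?_
  rw [pow_one]
  exact log_abs_le hu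

lemma log_sq_LInt {w : ℝ} (hw : 0 < w) : LInt (fun u => Real.log u ^ 2) w := by
  have h1 : LInt (fun u => 2 * u ^ 2 + 32 * u ^ (-(1 / 2) : ℝ)) w :=
    ((pow_LInt 2 hw).const_mul 2).add ((rpow_LInt (by norm_num) hw).const_mul 32)
  refine Pool.Agent.W263.BSD.LInt.of_bound (Real.measurable_log.pow_const 2) h1 fun u hu => ?_
  have h2 := log_abs_le hu
  have h3 : (u ^ (-(1 / 4) : ℝ)) ^ 2 = u ^ (-(1 / 2) : ℝ) := by
    rw [← Real.rpow_natCast, ← Real.rpow_mul hu.le]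
    norm_num
  have h4 : 0 < u ^ (-(1 / 4) : ℝ) := Real.rpow_pos_of_pos hu _
  rw [abs_of_nonneg (sq_nonneg _), ← sq_abs, ← h3]
  have h5 := pow_le_pow_left₀ (abs_nonneg _) h2 2
  nlinarith [sq_nonneg (u - 4 * u ^ (-(1 / 4) : ℝ))]

lemma log_lap {w : ℝ} (hw : 0 < w) :
    lap Real.log w = -(Real.log w + Real.eulerMascheroniConstant) / w := by
  have h1 := integral_comp_mul_left_Ioi (fun t : ℝ => Real.log (t / w) * Real.exp (-t)) 0 hw
  rw [mul_zero] at h1
  have h2 : lap Real.log w = ∫ x in Ioi (0 : ℝ), Real.log (w * x / w) * Real.exp (-(w * x)) := by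
    unfold lap
    refine setIntegral_congr_fun measurableSet_Ioi fun t _ => ?_
    rw [mul_div_cancel_left₀ _ hw.ne']
  have hexp : IntegrableOn (fun t : ℝ => Real.exp (-t)) (Ioi 0) := by
    have := one_LInt (w := 1) one_pos
    unfold LInt at this
    refine this.congr_fun (fun t _ => ?_) measurableSet_Ioi
    simp
  have hexp1 : ∫ t in Ioi (0 : ℝ), Real.exp (-t) = 1 := integral_exp_neg_Ioi_zero
  have h3 : ∫ t in Ioi (0 : ℝ), Real.log (t / w) * Real.exp (-t) =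
      ∫ t in Ioi (0 : ℝ), (Real.log t * Real.exp (-t) - Real.log w * Real.exp (-t)) := by
    refine setIntegral_congr_fun measurableSet_Ioi fun t ht => ?_
    have ht' : (0 : ℝ) < t := ht
    rw [Real.log_div ht'.ne' hw.ne']
    ring
  rw [h2, h1, h3, integral_sub integrable_log_exp (hexp.const_mul _), integral_const_mul, hexp1,
    integral_log_exp, smul_eq_mul]
  field_simp
  ring

lemma log_lapC {z : ℂ} (hz : 0 < z.re) :
    lapC Real.log z = -(Complex.log z + Real.eulerMascheroniConstant) / z := by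
  have hne : ∀ w : ℂ, 0 < w.re → w ≠ 0 := by
    intro w hw h
    rw [h] at hw
    simp at hw
  have hA : AnalyticOnNhd ℂ (lapC Real.log) {z : ℂ | 0 < z.re} := by
    refine DifferentiableOn.analyticOnNhd (fun w hw => ?_) (half_open 0)
    exact (lapC_differentiableAt Real.measurable_log (fun x hx => log_LInt hx)
      hw).differentiableWithinAt
  have hB : AnalyticOnNhd ℂ (fun z => -(Complex.log z + Real.eulerMascheroniConstant) / z)
      {z : ℂ | 0 < z.re} := by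
    refine DifferentiableOn.analyticOnNhd (fun w hw => ?_) (half_open 0)
    have hw' : 0 < w.re := hw
    refine DifferentiableAt.differentiableWithinAt ?_
    exact ((Complex.differentiableAt_log (Or.inl hw')).add_const _).neg.div differentiableAt_id
      (hne w hw')
  have h1mem : (1:ℂ) ∈ {z : ℂ | 0 < z.re} := by simp
  refine hA.eqOn_of_preconnected_of_frequently_eq hB (half_convex 0).isPreconnected h1mem ?_ hz
  have hseq : Tendsto (fun n : ℕ => ((1 + 1 / ((n:ℝ) + 1) : ℝ) : ℂ)) atTop (𝓝[≠] 1) := by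
    rw [tendsto_nhdsWithin_iff]
    constructor
    · have h2 : Tendsto (fun n : ℕ => (1 + 1 / ((n:ℝ) + 1) : ℝ)) atTop (𝓝 (1 + 0)) :=
        tendsto_one_div_add_atTop_nhds_zero_nat.const_add 1
      rw [add_zero] at h2
      have h3 := (Complex.continuous_ofReal.tendsto 1).comp h2
      rw [Complex.ofReal_one] at h3
      exact h3
    · refine Eventually.of_forall fun n => ?_
      intro h
      have h2 : ((1 + 1 / ((n:ℝ) + 1) : ℝ) : ℂ) = ((1:ℝ) : ℂ) := by simpa using h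
      have h3 : 1 + 1 / ((n:ℝ) + 1) = 1 := by exact_mod_cast h2
      have h4 : 0 < 1 / ((n:ℝ) + 1) := by positivity
      linarith
  refine hseq.frequently (Frequently.of_forall fun n => ?_)
  have h4 : 0 < 1 / ((n:ℝ) + 1) := by positivity
  have h5 : 0 < 1 + 1 / ((n:ℝ) + 1) := by linarith
  rw [lapC_ofReal, log_lap h5, ← Complex.ofReal_log h5.le]
  push_cast
  rfl

/-- the error function -/
noncomputable def eh (f : ℝ → ℝ) (r : ℕ) (c0 : ℝ) (u : ℝ) : ℝ :=
  f u - r * Real.log u - (r * Real.eulerMascheroniConstant - Real.log c0)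

lemma An.f_LInt (D : An f B Φ G Φ1 r Θ) {c : ℝ} (hc : 2 < c) : LInt f c := by
  refine Pool.Agent.W263.BSD.LInt.of_bound D.W.gw.meas ((LInt_exp hc).const_mul B) fun u hu => ?_
  exact D.W.gw.bd u hu

lemma An.f_sq_LInt (D : An f B Φ G Φ1 r Θ) {c : ℝ} (hc : 2 < c) : LInt (fun u => f u ^ 2) (2 * c) := by
  refine Pool.Agent.W263.BSD.LInt.of_bound (D.W.gw.meas.pow_const 2)
    ((LInt_exp (c := 4) (w := 2 * c) (by linarith)).const_mul (B ^ 2)) fun u hu => ?_
  have h1 := D.W.gw.bd u hu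
  rw [abs_of_nonneg (sq_nonneg _), ← sq_abs]
  have h2 := pow_le_pow_left₀ (abs_nonneg _) h1 2
  refine h2.trans (le_of_eq ?_)
  rw [mul_pow, ← Real.exp_nat_mul]
  congr 2
  push_cast
  ring

lemma eh_meas {c0 : ℝ} (hf : Measurable f) : Measurable (eh f r c0) := by
  unfold eh
  exact (hf.sub (Real.measurable_log.const_mul _)).sub_const _

lemma An.eh_LInt (D : An f B Φ G Φ1 r Θ) (c0 : ℝ) {c : ℝ} (hc : 2 < c) : LInt (eh f r c0) c := by
  have h1 := ((D.f_LInt hc).sub ((log_LInt (show 0 < c by linarith)).const_mul (r : ℝ))).sub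
    ((one_LInt (show 0 < c by linarith)).const_mul (r * Real.eulerMascheroniConstant - Real.log c0))
  unfold eh
  simpa using h1

lemma An.eh_sq_LInt (D : An f B Φ G Φ1 r Θ) (c0 : ℝ) {c : ℝ} (hc : 2 < c) :
    LInt (fun u => eh f r c0 u ^ 2) (2 * c) := by
  set k : ℝ := r * Real.eulerMascheroniConstant - Real.log c0 with hk
  have h1 : LInt (fun u => 3 * f u ^ 2 + 3 * (r : ℝ) ^ 2 * Real.log u ^ 2 + 3 * k ^ 2 * 1) (2 * c) :=
    (((D.f_sq_LInt hc).const_mul 3).add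
      ((log_sq_LInt (show 0 < 2 * c by linarith)).const_mul _)).add
      ((one_LInt (show 0 < 2 * c by linarith)).const_mul _)
  refine Pool.Agent.W263.BSD.LInt.of_bound ((eh_meas D.W.gw.meas).pow_const 2) h1 fun u hu => ?_
  rw [abs_of_nonneg (sq_nonneg _)]
  unfold eh
  rw [← hk]
  nlinarith [sq_nonneg (f u + r * Real.log u), sq_nonneg (f u + k), sq_nonneg (r * Real.log u - k)]

lemma Lm.HH_eq (L : Lm f G Φ1 r Θ l) (D : An f B Φ G Φ1 r Θ) {z : ℂ} (hz : 2 < z.re) :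
    HH G l ‖Φ1 0‖ z = lapC (eh f r ‖Φ1 0‖) z := by
  have hz0 : z ≠ 0 := by rintro rfl; simp at hz; linarith
  have hz1 : 0 < z.re := by linarith
  set k : ℝ := r * Real.eulerMascheroniConstant - Real.log ‖Φ1 0‖ with hk
  have i1 := LInt.complex D.W.gw.meas (D.f_LInt hz)
  have i2 := LInt.complex Real.measurable_log (log_LInt hz1)
  have i3 := LInt.complex (f := fun _ => (1 : ℝ)) measurable_const (one_LInt hz1)
  have h1 : lapC (eh f r ‖Φ1 0‖) z = lapC f z - r * lapC Real.log z - k * lapC (fun _ => (1 : ℝ)) z := by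
    have j2 : IntegrableOn (fun u : ℝ => (r : ℂ) * ((Real.log u : ℂ) * cexp (-(z * u)))) (Ioi 0) :=
      i2.const_mul _
    have j3 : IntegrableOn (fun u : ℝ => (k : ℂ) * (((fun _ => (1 : ℝ)) u : ℂ) * cexp (-(z * u))))
      (Ioi 0) := i3.const_mul _
    have j12 : IntegrableOn (fun u : ℝ => (f u : ℂ) * cexp (-(z * u)) -
      (r : ℂ) * ((Real.log u : ℂ) * cexp (-(z * u)))) (Ioi 0) := i1.sub j2
    unfold lapC
    rw [← integral_const_mul, ← integral_const_mul, ← integral_sub i1 j2, ← integral_sub j12 j3]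
    refine setIntegral_congr_fun measurableSet_Ioi fun u _ => ?_
    unfold eh
    simp only [← hk]
    push_cast
    ring
  have h2 : lapC (fun _ => (1 : ℝ)) z = 1 / z := by
    have := Pool.Agent.W263.BSD.pow_lapC 0 hz1
    simpa using this
  have h3 : lapC f z = U f 0 z := by
    unfold lapC U
    simp
  rw [h1, h2, h3, log_lapC hz1]
  unfold HH
  rw [L.eq z hz, hk]
  push_cast
  field_simp
  ring

/-- the Tauberian data -/
theorem Lm.tb (L : Lm f G Φ1 r Θ l) (D : An f B Φ G Φ1 r Θ) : ∃ C : ℝ, 0 ≤ C ∧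
    TbData (eh f r ‖Φ1 0‖) (HH G l ‖Φ1 0‖) (fun σ => C * (1 + Real.log (3 / (σ - Θ)))) Θ 2 3 := by
  obtain ⟨C, hC, hb⟩ := L.HH_bound D
  have hΘ := D.hΘ
  refine ⟨C, hC, ⟨D.hΘ, D.hΘ2.le, by norm_num, eh_meas D.W.gw.meas, fun c hc => D.eh_LInt _ hc,
    fun c hc => D.eh_sq_LInt _ hc, fun z hz1 hz2 => ?_, fun z hz1 _ => L.HH_eq D hz1, ?_, hb⟩⟩
  · have hz0 : z ≠ 0 := by rintro rfl; simp at hz1; linarith
    unfold HH
    refine DifferentiableAt.div ?_ differentiableAt_id hz0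
    exact ((D.W.hG z (by linarith)).sub (L.der z hz1).differentiableAt).add_const _
  · intro σ σ' h1 h2 h3
    refine mul_le_mul_of_nonneg_left ?_ hC
    have h4 : Real.log (3 / (σ' - Θ)) ≤ Real.log (3 / (σ - Θ)) := by
      apply Real.log_le_log (by apply div_pos (by norm_num); linarith)
      apply div_le_div_of_nonneg_left (by norm_num) (by linarith) (by linarith)
    linarith

/-- **The mean square bound.** -/
theorem An.main (D : An f B Φ G Φ1 r Θ) : ∃ C : ℝ, 0 ≤ C ∧ ∀ σ : ℝ, Θ < σ → σ < 3 →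
    LInt (fun u => eh f r ‖Φ1 0‖ u ^ 2) (2 * σ) ∧
      lap (fun u => eh f r ‖Φ1 0‖ u ^ 2) (2 * σ) ≤ C * (1 + Real.log (3 / (σ - Θ))) ^ 2 := by
  obtain ⟨l, L⟩ := D.exists_lam
  obtain ⟨C1, hC1, T⟩ := L.tb D
  obtain ⟨C2, hC2, h⟩ := T.bound
  refine ⟨C2 * C1 ^ 2, by positivity, fun σ h1 h2 => ⟨(h σ h1 h2).1, (h σ h1 h2).2.trans (le_of_eq ?_)⟩⟩
  ring

end Pool.Agent.V8H71.MS
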