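import Pool.Agent.H370R2.Local

/-!
# The logarithmic derivative as a sum over the zeros in a disc
-/

set_option autoImplicit false
set_option maxHeartbeats 1000000

open Complex Filter Topology Set MeasureTheory Metric
open H370.Loc

namespace Pool.Agent.V8H71.MS

lemma Pf_ld {s : Multiset ℂ} {z : ℂ} (h : ∀ ρ ∈ s, z ≠ ρ) :
    ‖logDeriv (Pf s) z‖ ≤ (s.map fun ρ => 1 / ‖z - ρ‖).sum := by
  induction s using Multiset.induction_on with
  | empty =>
    have : Pf 0 = fun _ => (1 : ℂ) := funext Pf_zero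
    rw [this]
    simp [logDeriv]
  | cons ρ s ih =>
    have : Pf (ρ ::ₘ s) = fun z => (z - ρ) * Pf s z := funext (Pf_cons ρ s)
    have hz : z - ρ ≠ 0 := sub_ne_zero.2 (h ρ (Multiset.mem_cons_self ρ s))
    have hs : ∀ ρ' ∈ s, z ≠ ρ' := fun ρ' h' => h ρ' (Multiset.mem_cons_of_mem h')
    have hP : Pf s z ≠ 0 := Pf_ne_zero hs
    have e1 : logDeriv (fun z => (z - ρ) * Pf s z) z =
        logDeriv (fun z => z - ρ) z + logDeriv (Pf s) z :=
      logDeriv_mul z hz hP (differentiableAt_id.sub_const ρ) (Pf_diff s z)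
    rw [this, e1, Multiset.map_cons, Multiset.sum_cons]
    have e2 : logDeriv (fun z => z - ρ) z = 1 / (z - ρ) := by
      rw [logDeriv_apply]
      congr 1
      simp
    refine (norm_add_le _ _).trans (add_le_add ?_ (ih hs))
    rw [e2, norm_div, norm_one]

/-- the logarithmic derivative in a disc, with the sum over the zeros -/
theorem landau2 {f : ℂ → ℂ} {c : ℂ} {r r1 r2 R M : ℝ} (hr2 : 0 < r2) (h21 : r2 < r1)
    (h1r : r1 < r) (hrR : r < R) (hRr : R ≤ 2 * r) (hM : 1 ≤ M) (hMf : ‖f c‖ ≤ M)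
    (hf : AnalyticOnNhd ℂ f (closedBall c R)) (hc : f c ≠ 0)
    (hb : ∀ z ∈ closedBall c R, ‖f z‖ ≤ M) :
    ∃ s : Multiset ℂ, (Multiset.card s : ℝ) ≤ Real.log (M / ‖f c‖) / Real.log (R / r) ∧
      (∀ ρ ∈ s, f ρ = 0) ∧ ∀ z ∈ closedBall c r2, f z ≠ 0 →
      ‖deriv f z / f z‖ ≤ (s.map fun ρ => 1 / ‖z - ρ‖).sum +
        2 * (Real.log (M / ‖f c‖) + Real.log (M / ‖f c‖) / Real.log (R / r) *
          Real.log (r / (R - r)) + 1) * r1 / (r - r1) / (r1 - r2) := by
  have hr : 0 < r := by linarith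
  have hR : 0 < R := by linarith
  obtain ⟨s, g, hs, hg, hfg, hg0, hcard⟩ := extract hr hrR hM hf hc hb
  refine ⟨s, hcard, fun ρ hρ => (hs ρ hρ).2, fun z hz hfz => ?_⟩
  have hzr : z ∈ closedBall c r := closedBall_subset_closedBall (by linarith) hz
  have hzR : z ∈ closedBall c R := closedBall_subset_closedBall hrR.le hzr
  have hcr : c ∈ closedBall c r := mem_closedBall_self hr.le
  have hcR : c ∈ closedBall c R := mem_closedBall_self hR.le
  have hzs : ∀ ρ ∈ s, z ≠ ρ := fun ρ hρ h => by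
    rw [h] at hfz
    exact hfz (hs ρ hρ).2
  have hPz : Pf s z ≠ 0 := Pf_ne_zero hzs
  have hfc : 0 < ‖f c‖ := norm_pos_iff.2 hc
  set n := Multiset.card s with hn
  have hlogM : 0 ≤ Real.log (M / ‖f c‖) := Real.log_nonneg (by rw [le_div_iff₀ hfc]; linarith)
  have hRr0 : 0 < R - r := by linarith
  have hq : 1 ≤ r / (R - r) := by rw [le_div_iff₀ hRr0]; linarith
  have hlogq : 0 ≤ Real.log (r / (R - r)) := Real.log_nonneg hq
  -- bounds for g
  have hgsphere : ∀ w ∈ sphere c R, ‖g w‖ ≤ M / (R - r) ^ n := by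
    intro w hw
    have hwR := sphere_subset_closedBall hw
    have h1 : (R - r) ^ n ≤ ‖Pf s w‖ := Pf_norm_ge hRr0.le fun ρ hρ => by
      have h2 := (hs ρ hρ).1
      rw [mem_closedBall, dist_eq_norm] at h2
      rw [mem_sphere, dist_eq_norm] at hw
      have h3 : ‖w - c‖ ≤ ‖w - ρ‖ + ‖ρ - c‖ := by
        calc ‖w - c‖ = ‖(w - ρ) + (ρ - c)‖ := by congr 1; ring
          _ ≤ _ := norm_add_le _ _
      linarith
    rw [le_div_iff₀ (by positivity)]
    calc ‖g w‖ * (R - r) ^ n ≤ ‖g w‖ * ‖Pf s w‖ := mul_le_mul_of_nonneg_left h1 (norm_nonneg _)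
      _ = ‖f w‖ := by rw [hfg w, norm_mul, mul_comm]
      _ ≤ M := hb w hwR
  have hgball : ∀ w ∈ closedBall c R, ‖g w‖ ≤ M / (R - r) ^ n := by
    intro w hw
    refine Complex.norm_le_of_forall_mem_frontier_norm_le (U := ball c R) isBounded_ball ?_ ?_ ?_
    · apply DifferentiableOn.diffContOnCl
      rw [closure_ball c hR.ne']
      exact fun x hx => (hg x hx).differentiableAt.differentiableWithinAt
    · intro x hx
      rw [frontier_ball c hR.ne'] at hx
      exact hgsphere x hx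
    · rwa [closure_ball c hR.ne']
  have hgc : ‖f c‖ / r ^ n ≤ ‖g c‖ := by
    rw [div_le_iff₀ (by positivity)]
    have h1 : ‖Pf s c‖ ≤ r ^ n := Pf_norm_le fun ρ hρ => by
      have h2 := (hs ρ hρ).1
      rw [mem_closedBall, dist_eq_norm, norm_sub_rev] at h2
      exact h2
    calc ‖f c‖ = ‖g c‖ * ‖Pf s c‖ := by rw [hfg c, norm_mul, mul_comm]
      _ ≤ ‖g c‖ * r ^ n := mul_le_mul_of_nonneg_left h1 (norm_nonneg _)
  set B : ℝ := Real.log (M / ‖f c‖) + n * Real.log (r / (R - r)) with hB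
  have hB0 : 0 ≤ B := by positivity
  have hexpB : Real.exp B = M / ‖f c‖ * (r / (R - r)) ^ n := by
    rw [hB, Real.exp_add, Real.exp_log (by positivity), Real.exp_nat_mul,
      Real.exp_log (by positivity)]
  have hgb : ∀ w ∈ closedBall c r, ‖g w‖ ≤ Real.exp B * ‖g c‖ := by
    intro w hw
    refine (hgball w (closedBall_subset_closedBall hrR.le hw)).trans ?_
    rw [hexpB]
    calc M / (R - r) ^ n = M / ‖f c‖ * (r / (R - r)) ^ n * (‖f c‖ / r ^ n) := by
          rw [div_pow]; field_simp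
      _ ≤ _ := mul_le_mul_of_nonneg_left hgc (by positivity)
  have hlg := logDeriv_zero_free hr2 h21 h1r hB0
    (hg.mono (closedBall_subset_closedBall hrR.le)) hg0 hgb hz
  have hlP := Pf_ld (s := s) hzs
  have heq : deriv f z / f z = logDeriv (Pf s) z + logDeriv g z := by
    have h1 : f = fun w => Pf s w * g w := funext hfg
    rw [← logDeriv_apply]
    conv_lhs => rw [h1]
    exact logDeriv_mul z hPz (hg0 z hzr) (Pf_diff s z) (hg z hzR).differentiableAt
  rw [heq]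
  refine (norm_add_le _ _).trans (add_le_add hlP (hlg.trans ?_))
  have h8 : B ≤ Real.log (M / ‖f c‖) + Real.log (M / ‖f c‖) / Real.log (R / r) *
      Real.log (r / (R - r)) := by
    rw [hB]
    have := mul_le_mul_of_nonneg_right hcard hlogq
    linarith
  have h9 : 0 < r - r1 := by linarith
  have h10 : 0 < r1 - r2 := by linarith
  have h11 : 0 < r1 := by linarith
  gcongr

/-- Cauchy-Schwarz for multisets -/
lemma ms_sq (s : Multiset ℂ) (g : ℂ → ℝ) (hg : ∀ ρ, 0 ≤ g ρ) :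
    (s.map g).sum ^ 2 ≤ (Multiset.card s : ℝ) * (s.map fun ρ => g ρ ^ 2).sum := by
  induction s using Multiset.induction_on with
  | empty => simp
  | cons ρ s ih =>
    rw [Multiset.map_cons, Multiset.sum_cons, Multiset.map_cons, Multiset.sum_cons,
      Multiset.card_cons]
    push_cast
    set S := (s.map g).sum with hS
    set Q := (s.map fun ρ => g ρ ^ 2).sum with hQ
    set n : ℝ := (Multiset.card s : ℝ) with hn
    set x := g ρ with hx
    have hx0 : 0 ≤ x := hg ρ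
    have hQ0 : 0 ≤ Q := by
      refine Multiset.sum_nonneg fun y hy => ?_
      obtain ⟨w, -, rfl⟩ := Multiset.mem_map.1 hy
      positivity
    rcases Nat.eq_zero_or_pos (Multiset.card s) with h0 | h0
    · have h1 : n = 0 := by rw [hn, h0]; simp
      rw [h1] at ih ⊢
      have h2 : S = 0 := by
        have : S ^ 2 ≤ 0 := by linarith
        exact pow_eq_zero_iff (two_ne_zero) |>.1 (le_antisymm this (sq_nonneg _))
      rw [h2]
      linarith
    · have h1 : 0 < n := by rw [hn]; exact_mod_cast h0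
      have h2 : n * (2 * x * S) ≤ n * (n * x ^ 2 + Q) := by nlinarith [sq_nonneg (n * x - S)]
      have h3 := le_of_mul_le_mul_left h2 h1
      nlinarith

/-- the Poisson kernel -/
lemma pois {σ : ℝ} {ρ : ℂ} (h : ρ.re < σ) :
    Integrable (fun t : ℝ => 1 / ‖(⟨σ, t⟩ : ℂ) - ρ‖ ^ 2) ∧
      ∫ t : ℝ, 1 / ‖(⟨σ, t⟩ : ℂ) - ρ‖ ^ 2 = Real.pi / (σ - ρ.re) := by
  set A : ℝ := σ - ρ.re with hA
  have hA0 : 0 < A := by rw [hA]; linarith
  have e : ∀ t : ℝ, 1 / ‖(⟨σ, t⟩ : ℂ) - ρ‖ ^ 2 =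
      (1 / A ^ 2) * (fun x : ℝ => (1 + x ^ 2)⁻¹) (A⁻¹ * (t - ρ.im)) := by
    intro t
    rw [← Complex.normSq_eq_norm_sq, Complex.normSq_apply]
    simp only [Complex.sub_re, Complex.sub_im, ← hA]
    rw [mul_pow]
    have h1 : 0 < A * A + (t - ρ.im) * (t - ρ.im) := by nlinarith [mul_self_nonneg (t - ρ.im)]
    have h2 : 0 < 1 + A⁻¹ ^ 2 * (t - ρ.im) ^ 2 := by positivity
    field_simp
  have hi : Integrable (fun x : ℝ => (fun x : ℝ => (1 + x ^ 2)⁻¹) (A⁻¹ * (x - ρ.im))) :=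
    ((integrable_inv_one_add_sq.comp_mul_left' (inv_ne_zero hA0.ne')).comp_sub_right ρ.im)
  constructor
  · simp_rw [e]
    exact hi.const_mul _
  · simp_rw [e]
    rw [integral_const_mul, integral_sub_right_eq_self
      (fun x : ℝ => (fun x : ℝ => (1 + x ^ 2)⁻¹) (A⁻¹ * x)) ρ.im,
      Measure.integral_comp_mul_left (fun x : ℝ => (1 + x ^ 2)⁻¹) A⁻¹, integral_univ_inv_one_add_sq,
      inv_inv, abs_of_pos hA0, smul_eq_mul]
    field_simp

/-- the mean square of the sum over zeros -/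
lemma ms_int (s : Multiset ℂ) {σ Θ : ℝ} (hσ : Θ < σ) (hs : ∀ ρ ∈ s, ρ.re ≤ Θ) :
    Integrable (fun t : ℝ => (s.map fun ρ => (1 / ‖(⟨σ, t⟩ : ℂ) - ρ‖) ^ 2).sum) ∧
      ∫ t : ℝ, (s.map fun ρ => (1 / ‖(⟨σ, t⟩ : ℂ) - ρ‖) ^ 2).sum ≤
        (Multiset.card s : ℝ) * (Real.pi / (σ - Θ)) := by
  induction s using Multiset.induction_on with
  | empty => simp
  | cons ρ s ih =>
    obtain ⟨i1, i2⟩ := ih fun ρ' h' => hs ρ' (Multiset.mem_cons_of_mem h')
    have h0 := hs ρ (Multiset.mem_cons_self ρ s)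
    obtain ⟨j1, j2⟩ := pois (σ := σ) (ρ := ρ) (by linarith)
    have e : ∀ t : ℝ, ((ρ ::ₘ s).map fun ρ => (1 / ‖(⟨σ, t⟩ : ℂ) - ρ‖) ^ 2).sum =
        1 / ‖(⟨σ, t⟩ : ℂ) - ρ‖ ^ 2 + (s.map fun ρ => (1 / ‖(⟨σ, t⟩ : ℂ) - ρ‖) ^ 2).sum := by
      intro t
      rw [Multiset.map_cons, Multiset.sum_cons, div_pow, one_pow]
    simp_rw [e]
    refine ⟨j1.add i1, ?_⟩
    rw [integral_add j1 i1, j2, Multiset.card_cons]
    have h1 : Real.pi / (σ - ρ.re) ≤ Real.pi / (σ - Θ) := by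
      apply div_le_div_of_nonneg_left Real.pi_pos.le (by linarith) (by linarith)
    push_cast
    linarith

end Pool.Agent.V8H71.MS
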