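import Pool.Agent.V8H71.MS.Lg3
import Pool.Agent.V8H71.MS.Loc

/-!
# The mean square of the logarithmic derivative
-/

set_option autoImplicit false
set_option maxHeartbeats 1000000

open MeasureTheory Filter Topology Set Complex Metric
open Pool.Agent.V8H22.BSW (WD U Gw)
open Pool.Agent.W263.BSD (LInt lap lapC)

namespace Pool.Agent.V8H71.MS

variable {f : ℝ → ℝ} {B : ℝ} {Φ G Φ1 : ℂ → ℂ} {r : ℕ} {Θ : ℝ}

/-- data in the disc of radius `3.4` about `3 + it` -/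
lemma An.ball (D : An f B Φ G Φ1 r Θ) : ∃ A : ℝ, 0 ≤ A ∧ ∀ t : ℝ, ∃ M : ℝ, 1 ≤ M ∧
    (∀ z ∈ closedBall (⟨3, t⟩ : ℂ) 3.4, ‖Φ1 z‖ ≤ M) ∧ Φ1 ⟨3, t⟩ ≠ 0 ∧
      Real.log (M / ‖Φ1 ⟨3, t⟩‖) ≤ A * ln t := by
  obtain ⟨C1, hC1, hg⟩ := D.gro1
  obtain ⟨C2, h3⟩ := D.three
  set A : ℝ := Real.log C1 + 3 * 2 + 3 + |C2| + r with hA
  have hA0 : 0 ≤ A := by
    have := Real.log_nonneg hC1
    positivity
  refine ⟨A, hA0, fun t => ?_⟩
  have hl := one_le_ln t
  have ht := abs_nonneg t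
  set c : ℂ := ⟨3, t⟩ with hc
  have hcre : c.re = 3 := rfl
  set M : ℝ := C1 * (5 * (|t| + 3)) ^ 3 with hM
  have hMb : ∀ z ∈ closedBall c 3.4, ‖Φ1 z‖ ≤ M := by
    intro z hz
    rw [mem_closedBall, dist_eq_norm] at hz
    have h4 := (Complex.abs_re_le_norm (z - c)).trans hz
    rw [Complex.sub_re, hcre] at h4
    have h5 := (abs_le.1 h4).1
    have h6 := hg z (by norm_num at h5; linarith)
    refine h6.trans ?_
    have h7 : ‖z + 6‖ ≤ 5 * (|t| + 3) := by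
      have e : z + 6 = (z - c) + (c + 6) := by ring
      rw [e]
      have h8 : ‖c + 6‖ ≤ |t| + 9 := by
        refine (norm_add_le _ _).trans ?_
        have := norm_three_le t
        have h6' : ‖(6 : ℂ)‖ = 6 := by norm_num
        rw [h6']
        linarith
      refine (norm_add_le _ _).trans ?_
      norm_num at hz
      linarith
    rw [hM]
    gcongr
  have hM1 : 1 ≤ M := by
    rw [hM]
    have : 1 ≤ 5 * (|t| + 3) := by linarith
    exact one_le_mul_of_one_le_of_one_le hC1 (one_le_pow₀ this)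
  have hcne : Φ1 c ≠ 0 := D.nz1 (by rw [hcre]; linarith [D.hΘ2])
  refine ⟨M, hM1, hMb, hcne, ?_⟩
  have h4 := D.W.eq c (by rw [hcre]; norm_num)
  have h5 : Real.exp (-|C2|) ≤ ‖Φ c‖ := by
    rw [h4, Complex.norm_exp]
    apply Real.exp_le_exp.2
    have h6 := h3 t
    have h7 := Complex.abs_re_le_norm (G c - c * U f 0 c)
    have h8 := (abs_le.1 (h7.trans h6)).1
    have := le_abs_self C2
    linarith
  rw [D.fac, norm_mul, norm_pow] at h5
  have hc0 : 0 < ‖Φ1 c‖ := norm_pos_iff.2 hcne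
  have h6 : Real.exp (-|C2|) / (|t| + 3) ^ r ≤ ‖Φ1 c‖ := by
    rw [div_le_iff₀ (by positivity), mul_comm]
    refine h5.trans ?_
    gcongr
    exact norm_three_le t
  have h7 : Real.log ‖Φ1 c‖ ≥ -|C2| - r * ln t := by
    have h8 := Real.log_le_log (by positivity) h6
    rw [Real.log_div (by positivity) (by positivity), Real.log_exp, Real.log_pow] at h8
    exact h8
  rw [Real.log_div (by positivity) hc0.ne']
  have h9 : Real.log M = Real.log C1 + 3 * (Real.log 5 + ln t) := by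
    rw [hM, Real.log_mul (by positivity) (by positivity), Real.log_pow,
      Real.log_mul (by norm_num) (by positivity)]
    push_cast
    rfl
  have h10 : Real.log 5 ≤ 2 := by
    rw [Real.log_le_iff_le_exp (by norm_num)]
    have := Real.exp_one_gt_d9
    have h11 : Real.exp 2 = Real.exp 1 * Real.exp 1 := by rw [← Real.exp_add]; norm_num
    rw [h11]
    nlinarith
  rw [h9, hA]
  have h12 : Real.log C1 ≤ Real.log C1 * ln t := le_mul_of_one_le_right (Real.log_nonneg hC1) hl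
  have h13 : |C2| ≤ |C2| * ln t := le_mul_of_one_le_right (abs_nonneg _) hl
  nlinarith

/-- the logarithmic derivative near height `T` -/
lemma An.loc (D : An f B Φ G Φ1 r Θ) : ∃ C : ℝ, 0 ≤ C ∧ ∀ T : ℝ, ∃ s : Multiset ℂ,
    (Multiset.card s : ℝ) ≤ C * ln T ∧ (∀ ρ ∈ s, ρ.re ≤ Θ) ∧
      ∀ σ t : ℝ, Θ < σ → σ ≤ 3 → |t - T| ≤ 1 / 2 →
        ‖deriv Φ1 ⟨σ, t⟩ / Φ1 ⟨σ, t⟩‖ ≤ (s.map fun ρ => 1 / ‖(⟨σ, t⟩ : ℂ) - ρ‖).sum + C * ln T := by
  obtain ⟨A, hA, hball⟩ := D.ball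
  set q1 : ℝ := Real.log (3.4 / 3.2) with hq1
  have hq10 : 0 < q1 := Real.log_pos (by norm_num)
  set q2 : ℝ := Real.log (3.2 / (3.4 - 3.2)) with hq2
  have hq20 : 0 < q2 := Real.log_pos (by norm_num)
  have f1 : (0 : ℝ) < 3.2 - 3.1 := by norm_num
  have f2 : (0 : ℝ) < 3.1 - 3.05 := by norm_num
  refine ⟨A / q1 + 2 * (A + A / q1 * q2 + 1) * 3.1 / (3.2 - 3.1) / (3.1 - 3.05), by positivity,
    fun T => ?_⟩
  obtain ⟨M, hM1, hMb, hne, hlog⟩ := hball T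
  have hΘ := D.hΘ
  have hl := one_le_ln T
  have hl0 : 0 ≤ ln T := by linarith
  obtain ⟨s, hs1, hs2, hs3⟩ := landau2 (f := Φ1) (c := ⟨3, T⟩) (r := 3.2) (r1 := 3.1) (r2 := 3.05)
    (R := 3.4) (M := M) (by norm_num) (by norm_num) (by norm_num) (by norm_num) (by norm_num) hM1
    (hMb _ (mem_closedBall_self (by norm_num))) (fun z _ => D.dΦ1.analyticAt z) hne hMb
  rw [← hq1] at hs1 hs3
  rw [← hq2] at hs3
  set L := Real.log (M / ‖Φ1 ⟨3, T⟩‖) with hL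
  have g1 : 0 ≤ 2 * (A + A / q1 * q2 + 1) * 3.1 / (3.2 - 3.1) / (3.1 - 3.05) := by positivity
  refine ⟨s, ?_, fun ρ hρ => ?_, fun σ t h1 h2 h3 => ?_⟩
  · refine hs1.trans ?_
    have h4 : L / q1 ≤ A * ln T / q1 := by gcongr
    refine h4.trans ?_
    rw [add_mul]
    have : A * ln T / q1 = A / q1 * ln T := by ring
    rw [this]
    have := mul_nonneg g1 hl0
    linarith
  · by_contra hcon
    push Not at hcon
    exact D.nz1 hcon (hs2 ρ hρ)
  · have h4 := hs3 ⟨σ, t⟩ (by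
      rw [mem_closedBall, dist_eq_norm]
      apply abs_le_of_sq_le_sq' _ (by norm_num) |>.2
      rw [← Complex.normSq_eq_norm_sq, Complex.normSq_apply]
      simp only [sub_re, sub_im]
      have h5 := abs_le.1 h3
      nlinarith) (D.nz1 h1)
    refine h4.trans (add_le_add le_rfl ?_)
    have e2 : 2 * (L + L / q1 * q2 + 1) * 3.1 / (3.2 - 3.1) / (3.1 - 3.05) ≤
        2 * (A * ln T + A * ln T / q1 * q2 + ln T) * 3.1 / (3.2 - 3.1) / (3.1 - 3.05) := by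
      gcongr
    have e3 : 2 * (A * ln T + A * ln T / q1 * q2 + ln T) * 3.1 / (3.2 - 3.1) / (3.1 - 3.05) =
        (2 * (A + A / q1 * q2 + 1) * 3.1 / (3.2 - 3.1) / (3.1 - 3.05)) * ln T := by ring
    rw [add_mul]
    have : 0 ≤ A / q1 * ln T := by positivity
    linarith

lemma Q1_cont (D : An f B Φ G Φ1 r Θ) {σ : ℝ} (h : Θ < σ) :
    Continuous fun t : ℝ => deriv Φ1 ⟨σ, t⟩ / Φ1 ⟨σ, t⟩ := by
  have hc : Continuous fun t : ℝ => (⟨σ, t⟩ : ℂ) := by
    have : (fun t : ℝ => (⟨σ, t⟩ : ℂ)) = fun t : ℝ => (σ : ℂ) + t * Complex.I := by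
      funext t
      apply Complex.ext <;> simp
    rw [this]
    fun_prop
  have hd : Continuous (deriv Φ1) := by
    refine continuous_iff_continuousAt.2 fun z => ?_
    exact (D.dΦ1.analyticAt z).deriv.continuousAt
  exact (hd.comp hc).div (D.dΦ1.continuous.comp hc) fun t => D.nz1 (z := ⟨σ, t⟩) h

/-- the mean square over a unit interval -/
lemma An.q2 (D : An f B Φ G Φ1 r Θ) : ∃ C : ℝ, 0 ≤ C ∧ ∀ σ : ℝ, Θ < σ → σ ≤ 3 → ∀ n : ℤ,
    ∫⁻ t in Ioc (-(1 / 2) + (n : ℝ)) (-(1 / 2) + n + 1),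
      ENNReal.ofReal (‖deriv Φ1 ⟨σ, t⟩ / Φ1 ⟨σ, t⟩‖ ^ 2) ≤
      ENNReal.ofReal (C * ln n ^ 2 / (σ - Θ)) := by
  obtain ⟨C, hC, hloc⟩ := D.loc
  refine ⟨2 * C ^ 2 * Real.pi + 6 * C ^ 2, by positivity, fun σ h1 h2 n => ?_⟩
  obtain ⟨s, hs1, hs2, hs3⟩ := hloc n
  have hl := one_le_ln (n : ℝ)
  have hΘ := D.hΘ
  have hδ : 0 < σ - Θ := by linarith
  have hδ3 : σ - Θ ≤ 3 := by linarith
  have hpi := Real.pi_pos
  obtain ⟨i1, i2⟩ := ms_int s h1 hs2
  set I : Set ℝ := Ioc (-(1 / 2) + (n : ℝ)) (-(1 / 2) + n + 1) with hI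
  have hnn : ∀ t : ℝ, 0 ≤ (s.map fun ρ => (1 / ‖(⟨σ, t⟩ : ℂ) - ρ‖) ^ 2).sum := by
    intro t
    refine Multiset.sum_nonneg fun y hy => ?_
    obtain ⟨w, -, rfl⟩ := Multiset.mem_map.1 hy
    positivity
  have hpt : ∀ t ∈ I, ‖deriv Φ1 ⟨σ, t⟩ / Φ1 ⟨σ, t⟩‖ ^ 2 ≤
      2 * (C * ln n) * (s.map fun ρ => (1 / ‖(⟨σ, t⟩ : ℂ) - ρ‖) ^ 2).sum + 2 * (C * ln n) ^ 2 := by
    intro t ht
    have h3 := hs3 σ t h1 h2 (by
      rw [abs_le]
      constructor
      · have := ht.1; linarith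
      · have := ht.2; linarith)
    have h4 := pow_le_pow_left₀ (norm_nonneg _) h3 2
    have h5 := ms_sq s (fun ρ => 1 / ‖(⟨σ, t⟩ : ℂ) - ρ‖) (fun ρ => by positivity)
    have h6 : (Multiset.card s : ℝ) * (s.map fun ρ => (1 / ‖(⟨σ, t⟩ : ℂ) - ρ‖) ^ 2).sum ≤
        C * ln n * (s.map fun ρ => (1 / ‖(⟨σ, t⟩ : ℂ) - ρ‖) ^ 2).sum :=
      mul_le_mul_of_nonneg_right hs1 (hnn t)
    nlinarith [sq_nonneg ((s.map fun ρ => 1 / ‖(⟨σ, t⟩ : ℂ) - ρ‖).sum - C * ln n)]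
  calc ∫⁻ t in I, ENNReal.ofReal (‖deriv Φ1 ⟨σ, t⟩ / Φ1 ⟨σ, t⟩‖ ^ 2)
      ≤ ∫⁻ t in I, (ENNReal.ofReal (2 * (C * ln n) *
          (s.map fun ρ => (1 / ‖(⟨σ, t⟩ : ℂ) - ρ‖) ^ 2).sum) + ENNReal.ofReal (2 * (C * ln n) ^ 2)) := by
        refine setLIntegral_mono' measurableSet_Ioc fun t ht => ?_
        rw [← ENNReal.ofReal_add (by have := hnn t; positivity) (by positivity)]
        exact ENNReal.ofReal_le_ofReal (hpt t ht)
    _ = (∫⁻ t in I, ENNReal.ofReal (2 * (C * ln n) *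
          (s.map fun ρ => (1 / ‖(⟨σ, t⟩ : ℂ) - ρ‖) ^ 2).sum)) +
          ∫⁻ t in I, ENNReal.ofReal (2 * (C * ln n) ^ 2) :=
        lintegral_add_right _ measurable_const
    _ ≤ ENNReal.ofReal (2 * (C * ln n) * ((C * ln n) * (Real.pi / (σ - Θ)))) +
          ENNReal.ofReal (2 * (C * ln n) ^ 2) := by
        refine add_le_add ?_ ?_
        · refine (setLIntegral_le_lintegral _ _).trans ?_
          rw [← ofReal_integral_eq_lintegral_ofReal (i1.const_mul _)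
            (Eventually.of_forall fun t => by have := hnn t; positivity), integral_const_mul]
          refine ENNReal.ofReal_le_ofReal ?_
          refine mul_le_mul_of_nonneg_left (i2.trans ?_) (by positivity)
          exact mul_le_mul_of_nonneg_right hs1 (by positivity)
        · rw [lintegral_const, Measure.restrict_apply MeasurableSet.univ, univ_inter, hI,
            Real.volume_Ioc]
          have : -(1 / 2) + (n : ℝ) + 1 - (-(1 / 2) + n) = 1 := by ring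
          rw [this, ENNReal.ofReal_one, mul_one]
    _ = ENNReal.ofReal (2 * (C * ln n) * ((C * ln n) * (Real.pi / (σ - Θ))) + 2 * (C * ln n) ^ 2) :=
        (ENNReal.ofReal_add (by positivity) (by positivity)).symm
    _ ≤ _ := by
        refine ENNReal.ofReal_le_ofReal ?_
        rw [le_div_iff₀ hδ]
        have e1 : (2 * (C * ln n) * ((C * ln n) * (Real.pi / (σ - Θ))) + 2 * (C * ln n) ^ 2) * (σ - Θ) =
            2 * C ^ 2 * Real.pi * ln n ^ 2 + 2 * (C * ln n) ^ 2 * (σ - Θ) := by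
          field_simp
        rw [e1]
        have e2 : 2 * (C * ln n) ^ 2 * (σ - Θ) ≤ 2 * (C * ln n) ^ 2 * 3 :=
          mul_le_mul_of_nonneg_left hδ3 (by positivity)
        nlinarith

lemma int_sum : Summable fun n : ℤ => (1 + |(n : ℝ)|) ^ (-(3 / 2) : ℝ) := by
  have h1 : Summable fun n : ℤ => |(n : ℝ)| ^ (-(3 / 2) : ℝ) :=
    Real.summable_abs_int_rpow (by norm_num)
  have h2 : Summable fun n : ℤ => if n = 0 then (1 : ℝ) else 0 :=
    summable_of_finite_support ((Set.finite_singleton (0 : ℤ)).subset (by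
      intro n hn
      rw [Function.mem_support] at hn
      by_contra h
      exact hn (if_neg h)))
  refine Summable.of_nonneg_of_le (fun n => by positivity) (fun n => ?_) (h1.add h2)
  rcases eq_or_ne n 0 with rfl | hn
  · simp
  · rw [if_neg hn, add_zero]
    have h3 : 0 < |(n : ℝ)| := abs_pos.2 (by exact_mod_cast hn)
    exact Real.rpow_le_rpow_of_nonpos h3 (by linarith) (by norm_num)

/-- the weighted mean square -/
lemma An.q3 (D : An f B Φ G Φ1 r Θ) : ∃ C : ℝ, 0 ≤ C ∧ ∀ σ : ℝ, Θ < σ → σ ≤ 3 →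
    Integrable (fun t : ℝ => ‖deriv Φ1 ⟨σ, t⟩ / Φ1 ⟨σ, t⟩‖ ^ 2 / (1 + |t|) ^ 2) ∧
      ∫ t : ℝ, ‖deriv Φ1 ⟨σ, t⟩ / Φ1 ⟨σ, t⟩‖ ^ 2 / (1 + |t|) ^ 2 ≤ C / (σ - Θ) := by
  obtain ⟨C, hC, hq⟩ := D.q2
  set K : ℝ := C * 256 * ∑' n : ℤ, (1 + |(n : ℝ)|) ^ (-(3 / 2) : ℝ) with hK
  have hK0 : 0 ≤ K := by
    have : 0 ≤ ∑' n : ℤ, (1 + |(n : ℝ)|) ^ (-(3 / 2) : ℝ) := tsum_nonneg fun n => by positivity
    positivity
  refine ⟨K, hK0, fun σ h1 h2 => ?_⟩
  have hδ : 0 < σ - Θ := by linarith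
  have hcont : Continuous fun t : ℝ => ‖deriv Φ1 ⟨σ, t⟩ / Φ1 ⟨σ, t⟩‖ ^ 2 / (1 + |t|) ^ 2 :=
    ((Q1_cont D h1).norm.pow 2).div (by fun_prop) fun t => by positivity
  have hl : ∫⁻ t : ℝ, ENNReal.ofReal (‖deriv Φ1 ⟨σ, t⟩ / Φ1 ⟨σ, t⟩‖ ^ 2 / (1 + |t|) ^ 2) ≤
      ENNReal.ofReal (K / (σ - Θ)) := by
    have hu := iUnion_Ioc_add_intCast (-(1 / 2) : ℝ)
    rw [← setLIntegral_univ, ← hu, lintegral_iUnion (fun n => measurableSet_Ioc)
      (pairwise_disjoint_Ioc_add_intCast (-(1 / 2) : ℝ))]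
    have hterm : ∀ n : ℤ, ∫⁻ t in Ioc (-(1 / 2) + (n : ℝ)) (-(1 / 2) + n + 1),
        ENNReal.ofReal (‖deriv Φ1 ⟨σ, t⟩ / Φ1 ⟨σ, t⟩‖ ^ 2 / (1 + |t|) ^ 2) ≤
        ENNReal.ofReal (C * 256 / (σ - Θ) * (1 + |(n : ℝ)|) ^ (-(3 / 2) : ℝ)) := by
      intro n
      have hn0 : 0 < 1 + |(n : ℝ)| := by positivity
      calc ∫⁻ t in Ioc (-(1 / 2) + (n : ℝ)) (-(1 / 2) + n + 1),
          ENNReal.ofReal (‖deriv Φ1 ⟨σ, t⟩ / Φ1 ⟨σ, t⟩‖ ^ 2 / (1 + |t|) ^ 2)
          ≤ ∫⁻ t in Ioc (-(1 / 2) + (n : ℝ)) (-(1 / 2) + n + 1),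
            ENNReal.ofReal (4 / (1 + |(n : ℝ)|) ^ 2) *
            ENNReal.ofReal (‖deriv Φ1 ⟨σ, t⟩ / Φ1 ⟨σ, t⟩‖ ^ 2) := by
            refine setLIntegral_mono' measurableSet_Ioc fun t ht => ?_
            rw [← ENNReal.ofReal_mul (by positivity)]
            refine ENNReal.ofReal_le_ofReal ?_
            have h3 : 1 + |(n : ℝ)| ≤ 2 * (1 + |t|) := by
              have h4 : |(n : ℝ)| ≤ |t| + |n - t| := by
                have := abs_add_le t (n - t)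
                rwa [add_sub_cancel] at this
              have h5 : |(n : ℝ) - t| ≤ 1 / 2 := by
                rw [abs_le]
                constructor
                · have := ht.2; linarith
                · have := ht.1; linarith
              have := abs_nonneg t
              linarith
            have h6 : (1 + |(n : ℝ)|) ^ 2 ≤ 4 * (1 + |t|) ^ 2 := by
              have := pow_le_pow_left₀ hn0.le h3 2
              linarith [this, mul_pow 2 (1 + |t|) 2]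
            rw [div_mul_eq_mul_div, div_le_div_iff₀ (by positivity) (by positivity)]
            have h7 : 0 ≤ ‖deriv Φ1 ⟨σ, t⟩ / Φ1 ⟨σ, t⟩‖ ^ 2 := by positivity
            nlinarith
        _ = ENNReal.ofReal (4 / (1 + |(n : ℝ)|) ^ 2) *
            ∫⁻ t in Ioc (-(1 / 2) + (n : ℝ)) (-(1 / 2) + n + 1),
            ENNReal.ofReal (‖deriv Φ1 ⟨σ, t⟩ / Φ1 ⟨σ, t⟩‖ ^ 2) := by
            rw [lintegral_const_mul]
            exact ((Q1_cont D h1).norm.pow 2).measurable.ennreal_ofReal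
        _ ≤ ENNReal.ofReal (4 / (1 + |(n : ℝ)|) ^ 2) * ENNReal.ofReal (C * ln n ^ 2 / (σ - Θ)) :=
            mul_le_mul' le_rfl (hq σ h1 h2 n)
        _ = ENNReal.ofReal (4 / (1 + |(n : ℝ)|) ^ 2 * (C * ln n ^ 2 / (σ - Θ))) :=
            (ENNReal.ofReal_mul (by positivity)).symm
        _ ≤ _ := by
            refine ENNReal.ofReal_le_ofReal ?_
            have h3 := ln_le (n : ℝ)
            have h4 := pow_le_pow_left₀ (by linarith [one_le_ln (n : ℝ)] : 0 ≤ ln (n : ℝ)) h3 2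
            have h5 : (8 * (1 + |(n : ℝ)|) ^ (1 / 4 : ℝ)) ^ 2 = 64 * (1 + |(n : ℝ)|) ^ (1 / 2 : ℝ) := by
              rw [mul_pow, ← Real.rpow_natCast ((1 + |(n : ℝ)|) ^ (1 / 4 : ℝ)), ← Real.rpow_mul hn0.le]
              norm_num
            rw [h5] at h4
            have h6 : (1 + |(n : ℝ)|) ^ (-(3 / 2) : ℝ) =
                (1 + |(n : ℝ)|) ^ (1 / 2 : ℝ) / (1 + |(n : ℝ)|) ^ 2 := by
              rw [← Real.rpow_natCast (1 + |(n : ℝ)|) 2, ← Real.rpow_sub hn0]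
              norm_num
            rw [h6]
            have h7 : 4 / (1 + |(n : ℝ)|) ^ 2 * (C * ln n ^ 2 / (σ - Θ)) =
                (4 * C / (σ - Θ) / (1 + |(n : ℝ)|) ^ 2) * ln n ^ 2 := by
              field_simp
            have h8 : C * 256 / (σ - Θ) * ((1 + |(n : ℝ)|) ^ (1 / 2 : ℝ) / (1 + |(n : ℝ)|) ^ 2) =
                (4 * C / (σ - Θ) / (1 + |(n : ℝ)|) ^ 2) * (64 * (1 + |(n : ℝ)|) ^ (1 / 2 : ℝ)) := by
              field_simp
              ring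
            rw [h7, h8]
            exact mul_le_mul_of_nonneg_left h4 (by positivity)
    refine (ENNReal.tsum_le_tsum hterm).trans ?_
    rw [← ENNReal.ofReal_tsum_of_nonneg (fun n => by positivity) (int_sum.mul_left _), tsum_mul_left]
    refine ENNReal.ofReal_le_ofReal (le_of_eq ?_)
    rw [hK]
    ring
  have hint : Integrable (fun t : ℝ => ‖deriv Φ1 ⟨σ, t⟩ / Φ1 ⟨σ, t⟩‖ ^ 2 / (1 + |t|) ^ 2) := by
    refine ⟨hcont.aestronglyMeasurable, ?_⟩
    rw [hasFiniteIntegral_iff_ofReal (Eventually.of_forall fun t => by positivity)]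
    exact lt_of_le_of_lt hl ENNReal.ofReal_lt_top
  refine ⟨hint, ?_⟩
  rw [← ofReal_integral_eq_lintegral_ofReal hint (Eventually.of_forall fun t => by positivity)] at hl
  exact (ENNReal.ofReal_le_ofReal_iff (by positivity)).1 hl

end Pool.Agent.V8H71.MS
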