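import Pool.Agent.V8H71.MS.Lg4

/-!
# The weighted mean square
-/

set_option autoImplicit false
set_option maxHeartbeats 1000000

open MeasureTheory Filter Topology Set Complex Metric
open Pool.Agent.V8H22.BSW (WD U Gw)
open Pool.Agent.W263.BSD (LInt lap lapC)

namespace Pool.Agent.V8H71.MS

lemma LInt_mul_u {h : ℝ → ℝ} (hm : Measurable h) {c0 : ℝ} (hL : ∀ c > c0, LInt h c) :
    ∀ c > c0, LInt (fun u => u * h u) c := by
  intro c hc
  set ε : ℝ := (c - c0) / 2 with hε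
  have hε0 : 0 < ε := by rw [hε]; linarith
  have h1 := hL (c - ε) (by rw [hε]; linarith)
  unfold LInt at *
  refine Integrable.mono' (h1.norm.const_mul (1 / ε)) ?_ ?_
  · exact ((measurable_id.mul hm).mul (by fun_prop)).aestronglyMeasurable
  · refine (ae_restrict_iff' measurableSet_Ioi).mpr (Eventually.of_forall fun u hu => ?_)
    have hu' : (0 : ℝ) < u := hu
    rw [norm_mul, norm_mul, norm_mul, Real.norm_of_nonneg hu'.le,
      Real.norm_of_nonneg (Real.exp_pos (-(c * u))).le,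
      Real.norm_of_nonneg (Real.exp_pos (-((c - ε) * u))).le]
    have h2 : u * Real.exp (-(c * u)) ≤ 1 / ε * Real.exp (-((c - ε) * u)) := by
      have h3 : Real.exp (-((c - ε) * u)) = Real.exp (ε * u) * Real.exp (-(c * u)) := by
        rw [← Real.exp_add]; congr 1; ring
      rw [h3, ← mul_assoc]
      refine mul_le_mul_of_nonneg_right ?_ (Real.exp_pos _).le
      have h4 := Real.add_one_le_exp (ε * u)
      rw [div_mul_eq_mul_div, one_mul, le_div_iff₀ hε0]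
      linarith
    calc u * ‖h u‖ * Real.exp (-(c * u)) = ‖h u‖ * (u * Real.exp (-(c * u))) := by ring
      _ ≤ ‖h u‖ * (1 / ε * Real.exp (-((c - ε) * u))) :=
        mul_le_mul_of_nonneg_left h2 (norm_nonneg _)
      _ = _ := by ring

lemma lapC_hasDerivAt {h : ℝ → ℝ} (hm : Measurable h) {c0 : ℝ} (hL : ∀ c > c0, LInt h c) {z : ℂ}
    (hz : c0 < z.re) : HasDerivAt (lapC h) (-lapC (fun u => u * h u) z) z := by
  set r : ℝ := (z.re - c0) / 2 with hr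
  have hr0 : 0 < r := by rw [hr]; linarith
  have hm2 : Measurable fun u : ℝ => u * h u := measurable_id.mul hm
  have hL2 := LInt_mul_u hm hL
  have hker : ∀ w : ℂ, AEStronglyMeasurable (fun u : ℝ => (h u : ℂ) * cexp (-(w * u)))
      (volume.restrict (Ioi 0)) := fun w =>
    ((Complex.measurable_ofReal.comp hm).mul (by fun_prop)).aestronglyMeasurable
  have hd := hasDerivAt_integral_of_dominated_loc_of_deriv_le (μ := volume.restrict (Ioi (0:ℝ)))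
    (F := fun (w : ℂ) (u : ℝ) => (h u : ℂ) * cexp (-(w * u)))
    (F' := fun (w : ℂ) (u : ℝ) => (h u : ℂ) * (cexp (-(w * u)) * (-u)))
    (x₀ := z) (s := ball z r)
    (bound := fun u => ‖(u * h u) * Real.exp (-((c0 + r) * u))‖)
    (ball_mem_nhds z hr0)
    (Eventually.of_forall fun w => hker w)
    (LInt.complex hm (hL _ hz))
    ((Complex.measurable_ofReal.comp hm).mul (by fun_prop)).aestronglyMeasurable
    ?_ (hL2 (c0 + r) (by linarith)).norm (Eventually.of_forall fun t w _ => ?_)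
  · have h1 := hd.2
    have e : (∫ u in Ioi (0:ℝ), (h u : ℂ) * (cexp (-(z * u)) * (-u))) =
        -lapC (fun u => u * h u) z := by
      unfold lapC
      rw [← integral_neg]
      congr 1
      funext u
      push_cast
      ring
    rw [e] at h1
    exact h1
  · refine (ae_restrict_iff' measurableSet_Ioi).2 (Eventually.of_forall fun u hu w hw => ?_)
    have hu' : 0 < u := hu
    have hw' : c0 + r ≤ w.re := by
      have h2 : ‖w - z‖ < r := by rwa [← dist_eq_norm]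
      have h3 := Complex.abs_re_le_norm (w - z)
      rw [Complex.sub_re] at h3
      have := neg_abs_le (w.re - z.re)
      rw [hr] at *
      linarith
    have e1 : ‖(h u : ℂ) * (cexp (-(w * u)) * (-u))‖ = ‖u * h u‖ * Real.exp (-(w.re * u)) := by
      rw [norm_mul, norm_mul, Complex.norm_exp, norm_neg, Complex.norm_real, Complex.norm_real,
        norm_mul]
      simp
      ring
    rw [e1, norm_mul (u * h u), Real.norm_of_nonneg (Real.exp_pos (-((c0 + r) * u))).le]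
    refine mul_le_mul_of_nonneg_left (Real.exp_le_exp.2 ?_) (norm_nonneg _)
    have := mul_le_mul_of_nonneg_right hw' hu'.le
    linarith
  · have h5 : HasDerivAt (fun w : ℂ => -(w * (t:ℂ))) (-(t:ℂ)) w := by
      have h := (hasDerivAt_id w).mul_const (t:ℂ)
      rw [one_mul] at h
      exact h.neg
    exact (h5.cexp).const_mul _

/-- the bound by the mean square on the vertical line -/
theorem TbData.bound2 {h : ℝ → ℝ} {H : ℂ → ℂ} {K : ℝ → ℝ} {Θ c0 c1 : ℝ}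
    (D : TbData h H K Θ c0 c1) {σ : ℝ} (h1 : Θ < σ) (h2 : σ < c1) :
    LInt (fun u => h u ^ 2) (2 * σ) ∧ Integrable (fun t : ℝ => ‖H ⟨σ, t⟩‖ ^ 2) ∧
      lap (fun u => h u ^ 2) (2 * σ) ≤ ∫ t : ℝ, ‖H ⟨σ, t⟩‖ ^ 2 := by
  have hpi := Real.pi_gt_three
  have hconv := D.conv
  have eqz : ∀ t : ℝ, (⟨σ, t⟩ : ℂ) = (σ : ℂ) + t * Complex.I := by
    intro t
    apply Complex.ext <;> simp
  have hcont : Continuous fun t : ℝ => H ⟨σ, t⟩ := by
    refine continuous_iff_continuousAt.2 fun t => ?_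
    have h3 : ContinuousAt H (⟨σ, t⟩ : ℂ) := (D.diff _ h1 h2).continuousAt
    have h4 : Continuous fun t : ℝ => (⟨σ, t⟩ : ℂ) := by
      simp_rw [eqz]
      fun_prop
    exact ContinuousAt.comp (g := H) (f := fun t : ℝ => (⟨σ, t⟩ : ℂ)) h3 h4.continuousAt
  have hint : Integrable (fun t : ℝ => ‖H ⟨σ, t⟩‖ ^ 2) := by
    refine Integrable.mono' (wt_sq_int.const_mul (K σ ^ 2)) (hcont.norm.pow 2).aestronglyMeasurable
      (Eventually.of_forall fun t => ?_)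
    rw [Real.norm_of_nonneg (by positivity), ← mul_pow]
    exact pow_le_pow_left₀ (norm_nonneg _) (D.bd σ t h1 h2) 2
  refine ⟨hconv _ (by linarith), hint, ?_⟩
  have e1 := D.ident le_rfl (by have := D.h0; linarith) hconv (2 * σ) (by linarith) (by linarith)
  rw [e1]
  unfold NR
  refine (Complex.re_le_norm _).trans ?_
  rw [norm_mul]
  have e2 : ‖(1 / (2 * Real.pi) : ℂ)‖ = 1 / (2 * Real.pi) := by
    have : (1 / (2 * Real.pi) : ℂ) = ((1 / (2 * Real.pi) : ℝ) : ℂ) := by push_cast; rfl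
    rw [this, Complex.norm_real, Real.norm_of_nonneg (by positivity)]
  have e3 : ((2 * σ / 2 : ℝ) : ℂ) = σ := by
    congr 1; ring
  rw [e2, e3]
  have hneg : Integrable (fun t : ℝ => ‖H ⟨σ, -t⟩‖ ^ 2) := hint.comp_neg
  have e4 : ‖NN H σ‖ ≤ ∫ t : ℝ, ((1 / 2) * ‖H ⟨σ, t⟩‖ ^ 2 + (1 / 2) * ‖H ⟨σ, -t⟩‖ ^ 2) := by
    unfold NN
    refine norm_integral_le_of_norm_le ((hint.const_mul _).add (hneg.const_mul _))
      (Eventually.of_forall fun t => ?_)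
    unfold ig
    rw [norm_mul, ← eqz t]
    have e5 : (σ : ℂ) - t * Complex.I = ⟨σ, -t⟩ := by
      rw [eqz (-t)]; push_cast; ring
    rw [e5]
    nlinarith [sq_nonneg (‖H ⟨σ, t⟩‖ - ‖H ⟨σ, -t⟩‖)]
  rw [integral_add (hint.const_mul _) (hneg.const_mul _), integral_const_mul, integral_const_mul,
    integral_neg_eq_self (fun t : ℝ => ‖H ⟨σ, t⟩‖ ^ 2)] at e4
  have e6 : 0 ≤ ∫ t : ℝ, ‖H ⟨σ, t⟩‖ ^ 2 := integral_nonneg fun t => by positivity
  have e7 : 1 / (2 * Real.pi) ≤ 1 := by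
    rw [div_le_one (by positivity)]
    linarith
  calc 1 / (2 * Real.pi) * ‖NN H σ‖ ≤ 1 * ‖NN H σ‖ :=
        mul_le_mul_of_nonneg_right e7 (norm_nonneg _)
    _ ≤ _ := by linarith

variable {f : ℝ → ℝ} {B : ℝ} {Φ G Φ1 : ℂ → ℂ} {r : ℕ} {l : ℂ → ℂ}

/-- near `0` -/
lemma Lm.HH_near (L : Lm f G Φ1 r 0 l) (D : An f B Φ G Φ1 r 0) : ∃ δ : ℝ, 0 < δ ∧ δ ≤ 1 ∧
    ∃ C : ℝ, 0 ≤ C ∧ ∀ z : ℂ, 0 < z.re → ‖z‖ < δ → ‖HH G l ‖Φ1 0‖ z‖ ≤ C ∧
      ‖deriv Φ1 z / Φ1 z‖ ≤ C := by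
  obtain ⟨δ1, hδ1, hδ11, C2, hC2, h2⟩ := L.near D
  have hG0 : ∃ δ2 : ℝ, 0 < δ2 ∧ ∃ C3 : ℝ, 0 ≤ C3 ∧ ∀ z : ℂ, ‖z‖ < δ2 → ‖G z‖ ≤ C3 * ‖z‖ := by
    have h3 : DifferentiableAt ℂ G 0 := D.W.hG 0 (by simp)
    have h4 := h3.isBigO_sub
    obtain ⟨C3, hC3⟩ := h4.bound
    obtain ⟨δ2, hδ2, hb⟩ := Metric.eventually_nhds_iff_ball.1 hC3
    refine ⟨δ2, hδ2, |C3|, abs_nonneg _, fun z hz => ?_⟩
    have h5 := hb z (by rw [mem_ball_zero_iff]; exact hz)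
    rw [D.G0, sub_zero, sub_zero] at h5
    exact h5.trans (mul_le_mul_of_nonneg_right (le_abs_self _) (norm_nonneg _))
  obtain ⟨δ2, hδ2, C3, hC3, h3⟩ := hG0
  have hc : ContinuousAt (fun z => deriv Φ1 z / Φ1 z) 0 :=
    (((D.dΦ1.analyticAt 0).deriv).div (D.dΦ1.analyticAt 0) D.h1).continuousAt
  have hev : ∀ᶠ z in 𝓝 (0 : ℂ), ‖deriv Φ1 z / Φ1 z‖ < ‖deriv Φ1 0 / Φ1 0‖ + 1 :=
    hc.norm.eventually (gt_mem_nhds (by linarith))
  obtain ⟨δ3, hδ3, hball⟩ := Metric.eventually_nhds_iff_ball.1 hev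
  refine ⟨min δ1 (min δ2 δ3), by positivity, (min_le_left _ _).trans hδ11,
    C2 + C3 + (‖deriv Φ1 0 / Φ1 0‖ + 1), by positivity, fun z hz0 hz => ⟨?_, ?_⟩⟩
  · have hzn : 0 < ‖z‖ := norm_pos_iff.2 (by rintro rfl; simp at hz0)
    have e1 := h2 z hz0 (lt_of_lt_of_le hz (min_le_left _ _))
    have e2 := h3 z (lt_of_lt_of_le hz ((min_le_right _ _).trans (min_le_left _ _)))
    have e3 : ‖HH G l ‖Φ1 0‖ z‖ ≤ C2 + C3 := by
      unfold HH
      rw [norm_div, div_le_iff₀ hzn]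
      have e4 : G z - l z + ((Real.log ‖Φ1 0‖ : ℝ) : ℂ) = G z - (l z - (Real.log ‖Φ1 0‖ : ℂ)) := by
        ring
      rw [e4]
      refine (norm_sub_le _ _).trans ?_
      linarith
    have : 0 ≤ ‖deriv Φ1 0 / Φ1 0‖ := norm_nonneg _
    linarith
  · have := hball z (by
      rw [mem_ball_zero_iff]
      exact lt_of_lt_of_le hz ((min_le_right _ _).trans (min_le_right _ _)))
    linarith

/-- the derivative of `H` -/
noncomputable def HD (G l Φ1 : ℂ → ℂ) (c0 : ℝ) (z : ℂ) : ℂ :=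
  (deriv G z - deriv Φ1 z / Φ1 z - HH G l c0 z) / z

lemma Lm.HH_deriv (L : Lm f G Φ1 r 0 l) (D : An f B Φ G Φ1 r 0) (c0 : ℝ) {z : ℂ} (hz : 0 < z.re) :
    HasDerivAt (HH G l c0) (HD G l Φ1 c0 z) z := by
  have hz0 : z ≠ 0 := by rintro rfl; simp at hz
  have h1 : HasDerivAt (fun z => G z - l z + (Real.log c0 : ℝ)) (deriv G z - deriv Φ1 z / Φ1 z) z :=
    (((D.W.hG z (by linarith)).hasDerivAt).sub (L.der z hz)).add_const _
  have h2 := h1.div (hasDerivAt_id z) hz0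
  refine h2.congr_deriv ?_
  unfold HD HH
  simp only [id]
  field_simp

lemma inv_le_wt {σ : ℝ} (h0 : 0 < σ) (h3 : σ < 3) (t : ℝ) :
    1 / ‖(⟨σ, t⟩ : ℂ)‖ ≤ 4 / σ / (1 + |t|) := by
  have e1 := Complex.abs_im_le_norm (⟨σ, t⟩ : ℂ)
  have e2 := Complex.abs_re_le_norm (⟨σ, t⟩ : ℂ)
  simp only at e1 e2
  rw [abs_of_pos h0] at e2
  have ht := abs_nonneg t
  have hn : 0 < ‖(⟨σ, t⟩ : ℂ)‖ := by linarith
  rw [div_div, div_le_div_iff₀ hn (by positivity), one_mul]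
  nlinarith

lemma wt_sq_ge (t : ℝ) : 1 / (1 + |t|) ^ 2 ≤ wt t ^ 2 := by
  have h1 : 0 < 1 + |t| := by positivity
  unfold wt
  rw [← Real.rpow_natCast, ← Real.rpow_natCast, ← Real.rpow_mul h1.le, one_div, ← Real.rpow_neg h1.le]
  exact Real.rpow_le_rpow_of_exponent_le (by linarith [abs_nonneg t]) (by norm_num)

lemma inv_le_wt1 (t : ℝ) : 1 / (1 + |t|) ≤ wt t := by
  have h1 : 0 < 1 + |t| := by positivity
  unfold wt
  rw [one_div, ← Real.rpow_neg_one]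
  exact Real.rpow_le_rpow_of_exponent_le (by linarith [abs_nonneg t]) (by norm_num)

/-- pointwise bound of the derivative -/
lemma Lm.HD_bd (L : Lm f G Φ1 r 0 l) (D : An f B Φ G Φ1 r 0) : ∃ C : ℝ, 0 ≤ C ∧
    ∀ σ t : ℝ, 0 < σ → σ < 3 → ‖HD G l Φ1 ‖Φ1 0‖ ⟨σ, t⟩‖ ≤
      C * (1 + Real.log (3 / σ)) / σ ^ 2 * wt t := by
  obtain ⟨CG, hCG⟩ := D.Gb'
  obtain ⟨C1, hC1, h1⟩ := D.ld
  obtain ⟨C2, hC2, h2⟩ := L.HH_bound D
  refine ⟨12 * |CG| + 32 * C1 + 3 * C2, by positivity, fun σ t h0 h3 => ?_⟩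
  have hln := one_le_ln t
  have hwt := wt_pos t
  have hQ : 0 ≤ Real.log (3 / σ) := by
    apply Real.log_nonneg
    rw [le_div_iff₀ h0]
    linarith
  set Q : ℝ := 1 + Real.log (3 / σ) with hQd
  have hQ1 : 1 ≤ Q := by rw [hQd]; linarith
  have e1 := (hCG ⟨σ, t⟩ h0).trans (le_abs_self CG)
  have e2 := h1 σ t h0 h3.le
  have e3 := h2 σ t h0 h3
  rw [sub_zero] at e2 e3
  rw [← hQd] at e3
  have e4 := inv_le_wt h0 h3 t
  have hσn : 1 / ‖(⟨σ, t⟩ : ℂ)‖ ≤ 1 / σ := by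
    have e5 := Complex.abs_re_le_norm (⟨σ, t⟩ : ℂ)
    simp only at e5
    rw [abs_of_pos h0] at e5
    exact one_div_le_one_div_of_le h0 e5
  have hn0 : 0 ≤ 1 / ‖(⟨σ, t⟩ : ℂ)‖ := by positivity
  unfold HD
  rw [norm_div, div_eq_mul_one_div]
  have e6 : ‖deriv G ⟨σ, t⟩ - deriv Φ1 ⟨σ, t⟩ / Φ1 ⟨σ, t⟩ - HH G l ‖Φ1 0‖ ⟨σ, t⟩‖ ≤
      (|CG| + C1 * ln t / σ) + C2 * Q * wt t :=
    (norm_sub_le _ _).trans (add_le_add ((norm_sub_le _ _).trans (add_le_add e1 e2)) e3)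
  have hwt1 := inv_le_wt1 t
  have hlw := ln_wt t
  have hσ3 : 1 / σ ≤ 3 / σ ^ 2 := by
    rw [div_le_div_iff₀ h0 (by positivity)]
    nlinarith
  calc _ ≤ ((|CG| + C1 * ln t / σ) + C2 * Q * wt t) * (1 / ‖(⟨σ, t⟩ : ℂ)‖) :=
        mul_le_mul_of_nonneg_right e6 hn0
    _ = |CG| * (1 / ‖(⟨σ, t⟩ : ℂ)‖) + C1 * ln t / σ * (1 / ‖(⟨σ, t⟩ : ℂ)‖) +
        C2 * Q * wt t * (1 / ‖(⟨σ, t⟩ : ℂ)‖) := by ring
    _ ≤ |CG| * (4 / σ / (1 + |t|)) + C1 * ln t / σ * (4 / σ / (1 + |t|)) +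
        C2 * Q * wt t * (1 / σ) := by gcongr
    _ = 4 * |CG| * (1 / σ) * (1 / (1 + |t|)) + 4 * C1 / σ ^ 2 * (ln t / (1 + |t|)) +
        C2 * Q * wt t * (1 / σ) := by ring
    _ ≤ 4 * |CG| * (3 / σ ^ 2) * wt t + 4 * C1 / σ ^ 2 * (8 * wt t) +
        C2 * Q * wt t * (3 / σ ^ 2) := by gcongr
    _ = (12 * |CG| + 32 * C1) * 1 / σ ^ 2 * wt t + 3 * C2 * Q / σ ^ 2 * wt t := by ring
    _ ≤ (12 * |CG| + 32 * C1) * Q / σ ^ 2 * wt t + 3 * C2 * Q / σ ^ 2 * wt t := by gcongr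
    _ = _ := by ring

/-- the mean square of the derivative -/
lemma Lm.HD_ms (L : Lm f G Φ1 r 0 l) (D : An f B Φ G Φ1 r 0) : ∃ C : ℝ, 0 ≤ C ∧
    ∀ σ : ℝ, 0 < σ → σ < 3 → ∫ t : ℝ, ‖HD G l Φ1 ‖Φ1 0‖ ⟨σ, t⟩‖ ^ 2 ≤ C / σ := by
  obtain ⟨CG, hCG⟩ := D.Gb'
  obtain ⟨C1, hC1, h1⟩ := D.q3
  obtain ⟨C2, hC2, h2⟩ := L.HH_bound D
  obtain ⟨δ, hδ, hδ1, C3, hC3, h3⟩ := L.HH_near D
  have hI : 0 ≤ ∫ t : ℝ, wt t ^ 2 := integral_nonneg fun t => by positivity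
  set W : ℝ := ∫ t : ℝ, wt t ^ 2 with hW
  set E : ℝ := (1 / δ + 1) ^ 2 with hE
  have hE0 : 0 ≤ E := by positivity
  refine ⟨3 * E * (3 * CG ^ 2 + 12 * C2 ^ 2) * W + 3 * E * C1 + 3 * (CG ^ 2 + 2 * C3 ^ 2) * Real.pi,
    by have := Real.pi_pos; positivity, fun σ h0 hσ3 => ?_⟩
  have hpi := Real.pi_pos
  obtain ⟨i1, i2⟩ := h1 σ h0 hσ3.le
  obtain ⟨j1, j2⟩ := pois (σ := σ) (ρ := 0) (by simpa using h0)
  rw [sub_zero] at i2
  rw [Complex.zero_re, sub_zero] at j2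
  simp only [sub_zero] at j1 j2
  have hQ : 0 ≤ Real.log (3 / σ) := by
    apply Real.log_nonneg
    rw [le_div_iff₀ h0]
    linarith
  set Q : ℝ := 1 + Real.log (3 / σ) with hQd
  have hQ1 : 1 ≤ Q := by rw [hQd]; linarith
  have hQ2 : Q ^ 2 ≤ 12 / σ := by
    have h4 : 0 < 3 / σ := by positivity
    have h5 : Q ≤ 2 * √(3 / σ) := by
      have h6 := Real.log_le_sub_one_of_pos (Real.sqrt_pos.2 h4)
      have h7 : Real.log (3 / σ) = 2 * Real.log √(3 / σ) := by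
        rw [Real.log_sqrt h4.le]; ring
      rw [hQd, h7]
      linarith
    have h8 := pow_le_pow_left₀ (by linarith) h5 2
    rw [mul_pow, Real.sq_sqrt h4.le] at h8
    refine h8.trans (le_of_eq ?_)
    ring
  set F1 : ℝ → ℝ := fun t => 3 * E * (CG ^ 2 + (C2 * Q) ^ 2) * wt t ^ 2 with hF1
  set F2 : ℝ → ℝ := fun t => 3 * E * (‖deriv Φ1 ⟨σ, t⟩ / Φ1 ⟨σ, t⟩‖ ^ 2 / (1 + |t|) ^ 2) with hF2
  set F3 : ℝ → ℝ := fun t => 3 * (CG ^ 2 + 2 * C3 ^ 2) * (1 / ‖(⟨σ, t⟩ : ℂ)‖ ^ 2) with hF3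
  have k1 : Integrable F1 := wt_sq_int.const_mul _
  have k2 : Integrable F2 := i1.const_mul _
  have k3 : Integrable F3 := j1.const_mul _
  have hpt : ∀ t : ℝ, ‖HD G l Φ1 ‖Φ1 0‖ ⟨σ, t⟩‖ ^ 2 ≤ F1 t + F2 t + F3 t := by
    intro t
    have ht := abs_nonneg t
    have e1 := (hCG ⟨σ, t⟩ h0)
    have e1' : ‖deriv G ⟨σ, t⟩‖ ^ 2 ≤ CG ^ 2 := pow_le_pow_left₀ (norm_nonneg _) e1 2
    have hn0 : 0 < ‖(⟨σ, t⟩ : ℂ)‖ := norm_pos_iff.2 (by
      intro h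
      have := congrArg Complex.re h
      simp at this
      linarith)
    set x := ‖deriv G ⟨σ, t⟩‖ with hx
    set y := ‖deriv Φ1 ⟨σ, t⟩ / Φ1 ⟨σ, t⟩‖ with hy
    set w := ‖HH G l ‖Φ1 0‖ ⟨σ, t⟩‖ with hw
    have e2 : ‖HD G l Φ1 ‖Φ1 0‖ ⟨σ, t⟩‖ ^ 2 ≤ 3 * (x ^ 2 + y ^ 2 + w ^ 2) * (1 / ‖(⟨σ, t⟩ : ℂ)‖ ^ 2) := by
      unfold HD
      rw [norm_div, div_pow, div_eq_mul_one_div]
      refine mul_le_mul_of_nonneg_right ?_ (by positivity)
      have e3 : ‖deriv G ⟨σ, t⟩ - deriv Φ1 ⟨σ, t⟩ / Φ1 ⟨σ, t⟩ - HH G l ‖Φ1 0‖ ⟨σ, t⟩‖ ≤ x + y + w :=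
        (norm_sub_le _ _).trans (add_le_add (norm_sub_le _ _) le_rfl)
      have e4 := pow_le_pow_left₀ (norm_nonneg _) e3 2
      nlinarith [sq_nonneg (x - y), sq_nonneg (y - w), sq_nonneg (x - w)]
    have p1 : 0 ≤ F1 t := by rw [hF1]; positivity
    have p2 : 0 ≤ F2 t := by rw [hF2]; positivity
    have p3 : 0 ≤ F3 t := by rw [hF3]; positivity
    rcases lt_or_ge ‖(⟨σ, t⟩ : ℂ)‖ δ with hs | hb
    · obtain ⟨g1, g2⟩ := h3 ⟨σ, t⟩ h0 hs
      have e5 : ‖HD G l Φ1 ‖Φ1 0‖ ⟨σ, t⟩‖ ^ 2 ≤ F3 t := by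
        refine e2.trans ?_
        rw [hF3]
        simp only []
        refine mul_le_mul_of_nonneg_right ?_ (by positivity)
        have g3 : w ^ 2 ≤ C3 ^ 2 := pow_le_pow_left₀ (norm_nonneg _) g1 2
        have g4 : y ^ 2 ≤ C3 ^ 2 := pow_le_pow_left₀ (norm_nonneg _) g2 2
        linarith
      linarith
    · have e6 : 1 / ‖(⟨σ, t⟩ : ℂ)‖ ^ 2 ≤ E * (1 / (1 + |t|) ^ 2) := by
        have e7 := Complex.abs_im_le_norm (⟨σ, t⟩ : ℂ)
        simp only at e7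
        have e8 : 1 + |t| ≤ (1 / δ + 1) * ‖(⟨σ, t⟩ : ℂ)‖ := by
          have h9 : 1 ≤ 1 / δ * ‖(⟨σ, t⟩ : ℂ)‖ := by
            rw [div_mul_eq_mul_div, one_mul, le_div_iff₀ hδ, one_mul]
            exact hb
          linarith
        have e9 := pow_le_pow_left₀ (by positivity) e8 2
        rw [mul_pow, ← hE] at e9
        rw [mul_one_div, div_le_div_iff₀ (by positivity) (by positivity), one_mul]
        exact e9
      have e10 : w ^ 2 ≤ (C2 * Q) ^ 2 := by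
        have g5 := h2 σ t h0 hσ3
        rw [sub_zero, ← hQd] at g5
        have g6 : wt t ≤ 1 := by
          unfold wt
          exact Real.rpow_le_one_of_one_le_of_nonpos (by linarith) (by norm_num)
        have g7 : w ≤ C2 * Q := g5.trans (mul_le_of_le_one_right (by positivity) g6)
        exact pow_le_pow_left₀ (norm_nonneg _) g7 2
      have e11 : ‖HD G l Φ1 ‖Φ1 0‖ ⟨σ, t⟩‖ ^ 2 ≤ F1 t + F2 t := by
        calc _ ≤ 3 * (x ^ 2 + y ^ 2 + w ^ 2) * (1 / ‖(⟨σ, t⟩ : ℂ)‖ ^ 2) := e2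
          _ ≤ 3 * (x ^ 2 + y ^ 2 + w ^ 2) * (E * (1 / (1 + |t|) ^ 2)) :=
              mul_le_mul_of_nonneg_left e6 (by positivity)
          _ ≤ 3 * (CG ^ 2 + y ^ 2 + (C2 * Q) ^ 2) * (E * (1 / (1 + |t|) ^ 2)) := by gcongr
          _ = 3 * E * (CG ^ 2 + (C2 * Q) ^ 2) * (1 / (1 + |t|) ^ 2) +
              3 * E * (y ^ 2 / (1 + |t|) ^ 2) := by ring
          _ ≤ 3 * E * (CG ^ 2 + (C2 * Q) ^ 2) * wt t ^ 2 + 3 * E * (y ^ 2 / (1 + |t|) ^ 2) := by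
              have := wt_sq_ge t
              gcongr
      linarith
  have hsum : ∫ t : ℝ, (F1 t + F2 t + F3 t) =
      3 * E * (CG ^ 2 + (C2 * Q) ^ 2) * W +
      3 * E * (∫ t : ℝ, ‖deriv Φ1 ⟨σ, t⟩ / Φ1 ⟨σ, t⟩‖ ^ 2 / (1 + |t|) ^ 2) +
      3 * (CG ^ 2 + 2 * C3 ^ 2) * (Real.pi / σ) := by
    have k12 : Integrable (fun t => F1 t + F2 t) := k1.add k2
    rw [integral_add k12 k3, integral_add k1 k2, hF1, hF2, hF3, integral_const_mul,
      integral_const_mul, integral_const_mul, j2]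
  have hle : ∫ t : ℝ, ‖HD G l Φ1 ‖Φ1 0‖ ⟨σ, t⟩‖ ^ 2 ≤ ∫ t : ℝ, (F1 t + F2 t + F3 t) :=
    integral_mono_of_nonneg (Eventually.of_forall fun t => by positivity) ((k1.add k2).add k3)
      (Eventually.of_forall hpt)
  refine hle.trans ?_
  rw [hsum]
  have m1 : CG ^ 2 ≤ 3 * CG ^ 2 / σ := by
    rw [le_div_iff₀ h0]
    nlinarith [sq_nonneg CG]
  have m2 : (C2 * Q) ^ 2 ≤ 12 * C2 ^ 2 / σ := by
    rw [mul_pow]
    calc C2 ^ 2 * Q ^ 2 ≤ C2 ^ 2 * (12 / σ) := mul_le_mul_of_nonneg_left hQ2 (by positivity)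
      _ = _ := by ring
  have m3 : 3 * E * (CG ^ 2 + (C2 * Q) ^ 2) * W ≤
      3 * E * (3 * CG ^ 2 / σ + 12 * C2 ^ 2 / σ) * W := by gcongr
  have m4 : 3 * E * (∫ t : ℝ, ‖deriv Φ1 ⟨σ, t⟩ / Φ1 ⟨σ, t⟩‖ ^ 2 / (1 + |t|) ^ 2) ≤
      3 * E * (C1 / σ) := by gcongr
  calc _ ≤ 3 * E * (3 * CG ^ 2 / σ + 12 * C2 ^ 2 / σ) * W + 3 * E * (C1 / σ) +
      3 * (CG ^ 2 + 2 * C3 ^ 2) * (Real.pi / σ) := by linarith
    _ = _ := by ring

/-- **The weighted mean square bound**, in Laplace form. -/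
theorem An.wmain (D : An f B Φ G Φ1 r 0) : ∃ C : ℝ, 0 ≤ C ∧ ∀ σ : ℝ, 0 < σ → σ < 3 →
    LInt (fun u => (u * eh f r ‖Φ1 0‖ u) ^ 2) (2 * σ) ∧
      lap (fun u => (u * eh f r ‖Φ1 0‖ u) ^ 2) (2 * σ) ≤ C / σ := by
  obtain ⟨l, L⟩ := D.exists_lam
  obtain ⟨C1, hC1, h1⟩ := L.HD_bd D
  obtain ⟨C2, hC2, h2⟩ := L.HD_ms D
  have hLi : ∀ c > (2 : ℝ), LInt (eh f r ‖Φ1 0‖) c := fun c hc => D.eh_LInt _ hc
  have hm := eh_meas (f := f) (r := r) (c0 := ‖Φ1 0‖) D.W.gw.meas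
  have hder : ∀ z : ℂ, 0 < z.re → deriv (HH G l ‖Φ1 0‖) z = HD G l Φ1 ‖Φ1 0‖ z := fun z hz =>
    (L.HH_deriv D _ hz).deriv
  have T : TbData (fun u => u * eh f r ‖Φ1 0‖ u) (fun z => -deriv (HH G l ‖Φ1 0‖) z)
      (fun σ => C1 * (1 + Real.log (3 / σ)) / σ ^ 2) 0 2 3 := by
    refine ⟨le_rfl, by norm_num, by norm_num, measurable_id.mul hm, LInt_mul_u hm hLi, ?_, ?_, ?_, ?_,
      ?_⟩
    · intro c hc
      have g1 : ∀ c' > (4 : ℝ), LInt (fun u => eh f r ‖Φ1 0‖ u ^ 2) c' := by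
        intro c' hc'
        have := D.eh_sq_LInt ‖Φ1 0‖ (c := c' / 2) (by linarith)
        rwa [show 2 * (c' / 2) = c' by ring] at this
      have g2 := LInt_mul_u (hm.pow_const 2) g1
      have hm3 : Measurable fun u : ℝ => u * eh f r ‖Φ1 0‖ u ^ 2 := measurable_id.mul (hm.pow_const 2)
      have g3 := LInt_mul_u hm3 g2 (2 * c) (by linarith)
      refine (integrableOn_congr_fun (fun u _ => ?_) measurableSet_Ioi).1 g3
      ring
    · intro z hz _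
      refine DifferentiableAt.neg ?_
      have h3 : AnalyticAt ℂ (HH G l ‖Φ1 0‖) z := by
        rw [Complex.analyticAt_iff_eventually_differentiableAt]
        filter_upwards [(half_open 0).mem_nhds hz] with w hw using
          (L.HH_deriv D _ hw).differentiableAt
      exact h3.deriv.differentiableAt
    · intro z hz _
      have h3 : HH G l ‖Φ1 0‖ =ᶠ[𝓝 z] lapC (eh f r ‖Φ1 0‖) := by
        filter_upwards [(half_open 2).mem_nhds hz] with w hw using L.HH_eq D hw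
      rw [h3.deriv_eq, (lapC_hasDerivAt hm hLi hz).deriv, neg_neg]
    · intro σ σ' g1 g2 g3
      have g4 : Real.log (3 / σ') ≤ Real.log (3 / σ) := by
        apply Real.log_le_log (by apply div_pos (by norm_num); linarith)
        apply div_le_div_of_nonneg_left (by norm_num) (by linarith) (by linarith)
      have g5 : 0 ≤ Real.log (3 / σ') := by
        apply Real.log_nonneg
        rw [le_div_iff₀ (by linarith)]
        linarith
      have g6 : 0 ≤ Real.log (3 / σ) := g5.trans g4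
      have g7 : 0 < σ' := by linarith
      gcongr
    · intro σ t g1 g2
      rw [norm_neg, hder _ (by exact g1)]
      exact h1 σ t g1 g2
  refine ⟨C2, hC2, fun σ g1 g2 => ?_⟩
  obtain ⟨e1, -, e3⟩ := T.bound2 g1 g2
  refine ⟨e1, e3.trans ?_⟩
  refine le_trans (le_of_eq ?_) (h2 σ g1 g2)
  congr 1
  funext t
  rw [norm_neg, hder _ (by exact g1)]

/-- from the Laplace transform to the mean value -/
lemma int_le_lap {g : ℝ → ℝ} (hg : ∀ u, 0 ≤ g u) {T : ℝ} (hT : 0 < T) (hi : LInt g (2 / T)) :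
    IntegrableOn g (Ioc 0 T) ∧ ∫ u in Ioc 0 T, g u ≤ Real.exp 2 * lap g (2 / T) := by
  have hi' : IntegrableOn (fun u => Real.exp 2 * (g u * Real.exp (-(2 / T * u)))) (Ioi 0) :=
    Integrable.const_mul hi _
  have h1 : IntegrableOn (fun u => Real.exp 2 * (g u * Real.exp (-(2 / T * u)))) (Ioc 0 T) :=
    hi'.mono_set Ioc_subset_Ioi_self
  have hpt : ∀ u ∈ Ioc 0 T, g u ≤ Real.exp 2 * (g u * Real.exp (-(2 / T * u))) := by
    intro u hu
    have h2 : 1 ≤ Real.exp 2 * Real.exp (-(2 / T * u)) := by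
      rw [← Real.exp_add]
      apply Real.one_le_exp
      have : 2 / T * u ≤ 2 := by
        rw [div_mul_eq_mul_div, div_le_iff₀ hT]
        nlinarith [hu.2]
      linarith
    calc g u = g u * 1 := (mul_one _).symm
      _ ≤ g u * (Real.exp 2 * Real.exp (-(2 / T * u))) := mul_le_mul_of_nonneg_left h2 (hg u)
      _ = _ := by ring
  have hgm : AEStronglyMeasurable g (volume.restrict (Ioc 0 T)) := by
    have h3 := h1.aestronglyMeasurable
    have h4 : AEStronglyMeasurable (fun u : ℝ => (Real.exp 2 * Real.exp (-(2 / T * u)))⁻¹)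
        (volume.restrict (Ioc 0 T)) := by
      refine Continuous.aestronglyMeasurable ?_
      refine Continuous.inv₀ (by fun_prop) fun u => by positivity
    refine (h3.mul h4).congr (Eventually.of_forall fun u => ?_)
    have := Real.exp_pos (-(2 / T * u))
    have := Real.exp_pos 2
    simp only [Pi.mul_apply]
    field_simp
  have hgi : IntegrableOn g (Ioc 0 T) := by
    refine Integrable.mono' h1 hgm ((ae_restrict_iff' measurableSet_Ioc).2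
      (Eventually.of_forall fun u hu => ?_))
    rw [Real.norm_of_nonneg (hg u)]
    exact hpt u hu
  refine ⟨hgi, ?_⟩
  calc ∫ u in Ioc 0 T, g u ≤ ∫ u in Ioc 0 T, Real.exp 2 * (g u * Real.exp (-(2 / T * u))) :=
        setIntegral_mono_on hgi h1 measurableSet_Ioc hpt
    _ ≤ ∫ u in Ioi 0, Real.exp 2 * (g u * Real.exp (-(2 / T * u))) := by
        refine setIntegral_mono_set hi' ?_ (Eventually.of_forall Ioc_subset_Ioi_self)
        refine Eventually.of_forall fun u => ?_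
        have := hg u
        positivity
    _ = _ := by rw [integral_const_mul]; rfl

end Pool.Agent.V8H71.MS
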