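import Pool.Agent.W263.BSD.Core
import Pool.Agent.H269.GN.G061
import Pool.Agent.Helper625.Planch

/-!
# A mean square Tauberian theorem

If the Laplace transform `H` of `h` continues to `Θ < Re z < c₁` and is `O(K(σ) (1+|t|)^(-3/4))` there, then
`∫ h(u)² e^(-2σu) du ≤ C K(σ)²` for `Θ < σ < c₁`.
-/

set_option autoImplicit false
set_option maxHeartbeats 1000000

open MeasureTheory ProbabilityTheory Filter Topology Set
open Pool.Agent.W263.BSD (LInt lap lapC dens mgf_dens mem_integrableExpSet_dens landau dens_pos)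

namespace Pool.Agent.V8H71.MS

/-- the weight `(1 + |t|)^(-3/4)` -/
noncomputable def wt (t : ℝ) : ℝ := (1 + |t|) ^ (-(3 / 4) : ℝ)

lemma wt_pos (t : ℝ) : 0 < wt t := by unfold wt; positivity

lemma wt_cont : Continuous wt := by
  unfold wt
  refine Continuous.rpow_const (by fun_prop) fun t => Or.inl ?_
  positivity

lemma wt_sq_int : Integrable (fun t : ℝ => wt t ^ 2) := by
  have h := integrable_one_add_norm (E := ℝ) (μ := volume) (r := 3 / 2) (by simp; norm_num)
  refine h.congr (Eventually.of_forall fun t => ?_)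
  simp only [Real.norm_eq_abs]
  unfold wt
  rw [← Real.rpow_natCast, ← Real.rpow_mul (by positivity)]
  norm_num

lemma wt_neg (t : ℝ) : wt (-t) = wt t := by unfold wt; rw [abs_neg]

lemma wt_shift (t y : ℝ) : wt (t + y) ≤ (1 + |y|) * wt t := by
  have h1 : 1 + |t| ≤ (1 + |y|) * (1 + |t + y|) := by
    have h2 : |t| ≤ |t + y| + |y| := by
      have := abs_sub (t + y) y
      simpa using this
    nlinarith [abs_nonneg y, abs_nonneg (t + y), mul_nonneg (abs_nonneg y) (abs_nonneg (t + y))]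
  have h3 : 0 < 1 + |t| := by positivity
  have h4 : 0 < 1 + |t + y| := by positivity
  have h5 : 0 < 1 + |y| := by positivity
  unfold wt
  rw [Real.rpow_neg h4.le, Real.rpow_neg h3.le, ← div_eq_mul_inv, le_div_iff₀ (by positivity),
    ← div_eq_inv_mul, div_le_iff₀ (by positivity)]
  calc (1 + |t|) ^ (3 / 4 : ℝ) ≤ ((1 + |y|) * (1 + |t + y|)) ^ (3 / 4 : ℝ) :=
        Real.rpow_le_rpow h3.le h1 (by norm_num)
    _ = (1 + |y|) ^ (3 / 4 : ℝ) * (1 + |t + y|) ^ (3 / 4 : ℝ) := Real.mul_rpow h5.le h4.le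
    _ ≤ (1 + |y|) * (1 + |t + y|) ^ (3 / 4 : ℝ) := by
        refine mul_le_mul_of_nonneg_right ?_ (by positivity)
        calc (1 + |y|) ^ (3 / 4 : ℝ) ≤ (1 + |y|) ^ (1 : ℝ) :=
              Real.rpow_le_rpow_of_exponent_le (by linarith [abs_nonneg y]) (by norm_num)
          _ = _ := Real.rpow_one _

/-- the data of the Tauberian theorem -/
structure TbData (h : ℝ → ℝ) (H : ℂ → ℂ) (K : ℝ → ℝ) (Θ c0 c1 : ℝ) : Prop where
  hΘ : 0 ≤ Θ
  h0 : Θ ≤ c0
  h1 : c0 < c1
  meas : Measurable h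
  i1 : ∀ c, c0 < c → LInt h c
  i2 : ∀ c, c0 < c → LInt (fun u => h u ^ 2) (2 * c)
  diff : ∀ z : ℂ, Θ < z.re → z.re < c1 → DifferentiableAt ℂ H z
  eq : ∀ z : ℂ, c0 < z.re → z.re < c1 → H z = lapC h z
  anti : ∀ σ σ', Θ < σ → σ ≤ σ' → σ' < c1 → K σ' ≤ K σ
  bd : ∀ σ t : ℝ, Θ < σ → σ < c1 → ‖H ⟨σ, t⟩‖ ≤ K σ * wt t

variable {h : ℝ → ℝ} {H : ℂ → ℂ} {K : ℝ → ℝ} {Θ c0 c1 : ℝ}

lemma TbData.K_nonneg (D : TbData h H K Θ c0 c1) {σ : ℝ} (h1 : Θ < σ) (h2 : σ < c1) : 0 ≤ K σ := by
  have h3 := (norm_nonneg _).trans (D.bd σ 0 h1 h2)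
  have h4 := wt_pos 0
  by_contra h5
  push Not at h5
  nlinarith

/-- the integrand -/
noncomputable def ig (H : ℂ → ℂ) (z : ℂ) (t : ℝ) : ℂ := H (z + t * Complex.I) * H (z - t * Complex.I)

/-- `(2π)⁻¹ ∫ H(z + it) H(z - it) dt` -/
noncomputable def NN (H : ℂ → ℂ) (z : ℂ) : ℂ := ∫ t : ℝ, ig H z t

/-- the strip -/
def Str (Θ c1 : ℝ) : Set ℂ := {z : ℂ | Θ < z.re ∧ z.re < c1}

lemma Str_open (Θ c1 : ℝ) : IsOpen (Str Θ c1) :=
  (isOpen_lt continuous_const Complex.continuous_re).inter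
    (isOpen_lt Complex.continuous_re continuous_const)

lemma re_add (z : ℂ) (t : ℝ) : (z + t * Complex.I).re = z.re := by simp
lemma re_sub (z : ℂ) (t : ℝ) : (z - t * Complex.I).re = z.re := by simp

lemma TbData.bd' (D : TbData h H K Θ c0 c1) {z : ℂ} (h1 : Θ < z.re) (h2 : z.re < c1) :
    ‖H z‖ ≤ K z.re * wt z.im := D.bd z.re z.im h1 h2

lemma TbData.ig_bd (D : TbData h H K Θ c0 c1) {σ0 Y : ℝ} (h0 : Θ < σ0) {w : ℂ} (h1 : σ0 ≤ w.re)
    (h2 : w.re < c1) (h3 : |w.im| ≤ Y) (t : ℝ) :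
    ‖ig H w t‖ ≤ (K σ0 * (1 + Y)) ^ 2 * wt t ^ 2 := by
  have hw : Θ < w.re := by linarith
  have hK := D.K_nonneg hw h2
  have hKK := D.anti σ0 w.re h0 h1 h2
  have hK0 : 0 ≤ K σ0 := hK.trans hKK
  have e1 : ‖H (w + t * Complex.I)‖ ≤ K σ0 * (1 + Y) * wt t := by
    have h4 := D.bd' (z := w + t * Complex.I) (by rw [re_add]; exact hw) (by rw [re_add]; exact h2)
    rw [re_add] at h4
    have h5 : (w + t * Complex.I).im = t + w.im := by simp; ring
    rw [h5] at h4
    have h6 := wt_shift t w.im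
    calc _ ≤ K w.re * wt (t + w.im) := h4
      _ ≤ K σ0 * ((1 + Y) * wt t) := by
        refine mul_le_mul hKK (h6.trans ?_) (wt_pos _).le hK0
        exact mul_le_mul_of_nonneg_right (by linarith) (wt_pos _).le
      _ = _ := by ring
  have e2 : ‖H (w - t * Complex.I)‖ ≤ K σ0 * (1 + Y) * wt t := by
    have h4 := D.bd' (z := w - t * Complex.I) (by rw [re_sub]; exact hw) (by rw [re_sub]; exact h2)
    rw [re_sub] at h4
    have h5 : (w - t * Complex.I).im = -(t + -w.im) := by simp; ring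
    rw [h5, wt_neg] at h4
    have h6 := wt_shift t (-w.im)
    rw [abs_neg] at h6
    calc _ ≤ K w.re * wt (t + -w.im) := h4
      _ ≤ K σ0 * ((1 + Y) * wt t) := by
        refine mul_le_mul hKK (h6.trans ?_) (wt_pos _).le hK0
        exact mul_le_mul_of_nonneg_right (by linarith) (wt_pos _).le
      _ = _ := by ring
  unfold ig
  rw [norm_mul]
  calc _ ≤ (K σ0 * (1 + Y) * wt t) * (K σ0 * (1 + Y) * wt t) :=
        mul_le_mul e1 e2 (norm_nonneg _) ((norm_nonneg _).trans e1)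
    _ = _ := by ring

lemma TbData.ig_cont (D : TbData h H K Θ c0 c1) {z : ℂ} (h1 : Θ < z.re) (h2 : z.re < c1) :
    Continuous (ig H z) := by
  unfold ig
  refine Continuous.mul ?_ ?_
  · refine continuous_iff_continuousAt.2 fun t => ?_
    have h3 : ContinuousAt H (z + t * Complex.I) :=
      (D.diff _ (by rw [re_add]; exact h1) (by rw [re_add]; exact h2)).continuousAt
    exact ContinuousAt.comp (g := H) (f := fun t : ℝ => z + t * Complex.I) h3
      (Continuous.continuousAt (by fun_prop))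
  · refine continuous_iff_continuousAt.2 fun t => ?_
    have h3 : ContinuousAt H (z - t * Complex.I) :=
      (D.diff _ (by rw [re_sub]; exact h1) (by rw [re_sub]; exact h2)).continuousAt
    exact ContinuousAt.comp (g := H) (f := fun t : ℝ => z - t * Complex.I) h3
      (Continuous.continuousAt (by fun_prop))

lemma TbData.NN_diff (D : TbData h H K Θ c0 c1) : DifferentiableOn ℂ (NN H) (Str Θ c1) := by
  refine (Pool.Agent.H269.integral_analytic (μ := (volume : Measure ℝ)) (Str Θ c1) (Str_open Θ c1)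
    (ig H) ?_ ?_ (fun t => wt t ^ 2) wt_sq_int ?_).1
  · intro t z hz
    refine DifferentiableAt.differentiableWithinAt ?_
    unfold ig
    refine DifferentiableAt.mul ?_ ?_
    · exact DifferentiableAt.comp (g := H) (f := fun z : ℂ => z + t * Complex.I) z
        (D.diff _ (by rw [re_add]; exact hz.1) (by rw [re_add]; exact hz.2)) (by fun_prop)
    · exact DifferentiableAt.comp (g := H) (f := fun z : ℂ => z - t * Complex.I) z
        (D.diff _ (by rw [re_sub]; exact hz.1) (by rw [re_sub]; exact hz.2)) (by fun_prop)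
  · intro z hz
    exact (D.ig_cont hz.1 hz.2).aestronglyMeasurable
  · intro z hz
    have hz1 : Θ < z.re := hz.1
    refine ⟨(z.re - Θ) / 2, (K ((z.re + Θ) / 2) * (1 + (|z.im| + (z.re - Θ) / 2))) ^ 2, by linarith,
      fun w hw hwU t => ?_⟩
    rw [Metric.mem_ball, dist_eq_norm] at hw
    have h3 := (Complex.abs_re_le_norm (w - z)).trans hw.le
    have h4 := (Complex.abs_im_le_norm (w - z)).trans hw.le
    rw [Complex.sub_re] at h3
    rw [Complex.sub_im] at h4
    refine D.ig_bd (by linarith) ?_ hwU.2 ?_ t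
    · have := (abs_le.1 h3).1
      linarith
    · have := abs_sub_abs_le_abs_sub w.im z.im
      linarith

lemma lapC_conj (h : ℝ → ℝ) (z : ℂ) : lapC h ((starRingEnd ℂ) z) = (starRingEnd ℂ) (lapC h z) := by
  unfold lapC
  rw [← integral_conj]
  congr 1
  funext u
  rw [map_mul, Complex.conj_ofReal, ← Complex.exp_conj, map_neg, map_mul, Complex.conj_ofReal]

/-- Plancherel -/
lemma TbData.planch (D : TbData h H K Θ c0 c1) {σ : ℝ} (hσ0 : c0 < σ) (hσ1 : σ < c1) :
    ((lap (fun u => h u ^ 2) (2 * σ) : ℝ) : ℂ) = (1 / (2 * Real.pi)) * NN H σ := by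
  have hΘσ : Θ < σ := lt_of_le_of_lt D.h0 hσ0
  set g : ℝ → ℂ := (Ioi (0 : ℝ)).indicator fun u => ((h u * Real.exp (-(σ * u)) : ℝ) : ℂ) with hg
  have hm : Measurable fun u : ℝ => h u * Real.exp (-(σ * u)) := D.meas.mul (by fun_prop)
  have hgm : Measurable g := (Complex.measurable_ofReal.comp hm).indicator measurableSet_Ioi
  have hg1 : Integrable g := by
    rw [hg, integrable_indicator_iff measurableSet_Ioi]
    exact (D.i1 σ hσ0).ofReal
  have hgsq : ∀ u, ‖g u‖ ^ 2 = (Ioi (0 : ℝ)).indicator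
      (fun u => h u ^ 2 * Real.exp (-(2 * σ * u))) u := by
    intro u
    by_cases hu : u ∈ Ioi (0 : ℝ)
    · rw [hg, indicator_of_mem hu, indicator_of_mem hu, Complex.norm_real, Real.norm_eq_abs, sq_abs,
        mul_pow, ← Real.exp_nat_mul]
      congr 2
      push_cast
      ring
    · rw [hg, indicator_of_notMem hu, indicator_of_notMem hu]
      simp
  have hg2' : Integrable fun u => ‖g u‖ ^ 2 := by
    simp_rw [hgsq]
    rw [integrable_indicator_iff measurableSet_Ioi]
    exact D.i2 σ hσ0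
  have hg2 : MemLp g 2 := by
    rw [memLp_two_iff_integrable_sq_norm hg1.aestronglyMeasurable]
    exact hg2'
  obtain ⟨-, hP⟩ := Pool.Agent.Helper625.Planch.plancherel g hg1 hg2
  have h1 : ∫ u, ‖g u‖ ^ 2 = lap (fun u => h u ^ 2) (2 * σ) := by
    simp_rw [hgsq]
    rw [integral_indicator measurableSet_Ioi]
    rfl
  have h2 : ∀ ξ : ℝ, FourierTransform.fourier g ξ = lapC h (σ + 2 * Real.pi * ξ * Complex.I) := by
    intro ξ
    rw [Real.fourier_real_eq_integral_exp_smul]
    unfold lapC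
    rw [← integral_indicator measurableSet_Ioi]
    refine integral_congr_ae (Eventually.of_forall fun u => ?_)
    simp only [smul_eq_mul]
    by_cases hu : u ∈ Ioi (0 : ℝ)
    · rw [hg, indicator_of_mem hu, indicator_of_mem hu]
      push_cast
      rw [mul_comm, mul_assoc, ← Complex.exp_add]
      congr 2
      ring
    · rw [hg, indicator_of_notMem hu, indicator_of_notMem hu, mul_zero]
  have h3 : ∀ t : ℝ, ig H σ t = ((‖lapC h (σ + t * Complex.I)‖ ^ 2 : ℝ) : ℂ) := by
    intro t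
    unfold ig
    rw [D.eq _ (by rw [re_add]; simpa using hσ0) (by rw [re_add]; simpa using hσ1),
      D.eq _ (by rw [re_sub]; simpa using hσ0) (by rw [re_sub]; simpa using hσ1)]
    have h4 : ((σ : ℂ) - t * Complex.I) = (starRingEnd ℂ) (σ + t * Complex.I) := by
      simp [sub_eq_add_neg]
    rw [h4, lapC_conj, Complex.mul_conj, Complex.normSq_eq_norm_sq]
  have h5 : NN H σ = (((∫ t : ℝ, ‖lapC h (σ + t * Complex.I)‖ ^ 2 : ℝ)) : ℂ) := by
    unfold NN
    simp_rw [h3]
    exact integral_complex_ofReal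
  have h6 : ∫ ξ : ℝ, ‖lapC h (σ + 2 * Real.pi * ξ * Complex.I)‖ ^ 2 =
      (1 / (2 * Real.pi)) * ∫ t : ℝ, ‖lapC h (σ + t * Complex.I)‖ ^ 2 := by
    have h7 := Measure.integral_comp_mul_left
      (fun t : ℝ => ‖lapC h (σ + t * Complex.I)‖ ^ 2) (2 * Real.pi)
    have hpi := Real.pi_pos
    rw [abs_of_pos (by positivity), smul_eq_mul] at h7
    rw [one_div, ← h7]
    congr 1
    funext ξ
    push_cast
    rfl
  rw [h5, ← h1, ← hP]
  simp_rw [h2]
  rw [h6]
  push_cast
  ring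

/-- the real part of `(2π)⁻¹ N` -/
noncomputable def NR (H : ℂ → ℂ) (w : ℝ) : ℝ := ((1 / (2 * Real.pi)) * NN H ((w / 2 : ℝ) : ℂ)).re

lemma TbData.NR_analytic (D : TbData h H K Θ c0 c1) {w : ℝ} (h1 : 2 * Θ < w) (h2 : w < 2 * c1) :
    AnalyticAt ℝ (NR H) w := by
  have h3 : AnalyticAt ℂ (fun z : ℂ => (1 / (2 * Real.pi)) * NN H (z / 2)) (w : ℂ) := by
    refine analyticAt_const.mul ?_
    have hmem : ((w : ℂ) / 2) ∈ Str Θ c1 := by
      have e : ((w : ℂ) / 2) = ((w / 2 : ℝ) : ℂ) := by push_cast; rfl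
      rw [e]
      constructor
      · rw [Complex.ofReal_re]; linarith
      · rw [Complex.ofReal_re]; linarith
    have h4 : AnalyticAt ℂ (NN H) ((w : ℂ) / 2) :=
      D.NN_diff.analyticAt ((Str_open Θ c1).mem_nhds hmem)
    exact AnalyticAt.fun_comp (g := NN H) (f := fun z : ℂ => z / 2) h4 (by fun_prop)
  have h5 := h3.re_ofReal
  refine h5.congr (Eventually.of_forall fun x => ?_)
  unfold NR
  push_cast
  rfl

lemma TbData.ident (D : TbData h H K Θ c0 c1) {s : ℝ} (hs0 : 2 * Θ ≤ s) (hs1 : s ≤ 2 * c0)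
    (hL : ∀ w > s, LInt (fun u => h u ^ 2) w) :
    ∀ w, s < w → w < 2 * c1 → lap (fun u => h u ^ 2) w = NR H w := by
  set g2 : ℝ → ℝ := fun u => h u ^ 2 with hg2
  have hm : Measurable g2 := D.meas.pow_const 2
  have hnn : ∀ u, 0 < u → 0 ≤ g2 u := fun u _ => sq_nonneg _
  have hc := D.h1
  have hA : AnalyticOnNhd ℝ (lap g2) (Ioo s (2 * c1)) := by
    intro w hw
    have h1 : -w ∈ interior (integrableExpSet id (dens g2)) := by
      rw [mem_interior]
      refine ⟨Iio (-s), fun t ht => ?_, isOpen_Iio, by simpa using hw.1⟩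
      rw [mem_integrableExpSet_dens hm hnn]
      exact hL _ (by have : t < -s := ht; linarith)
    have h2 : AnalyticAt ℝ (mgf id (dens g2)) (-w) := analyticAt_mgf h1
    have h3 : lap g2 = fun w => mgf id (dens g2) (-w) := by
      funext w
      rw [mgf_dens hm hnn, neg_neg]
    rw [h3]
    exact AnalyticAt.fun_comp (g := mgf id (dens g2)) (f := fun w : ℝ => -w) h2 (by fun_prop)
  have hB : AnalyticOnNhd ℝ (NR H) (Ioo s (2 * c1)) := fun w hw =>
    D.NR_analytic (by linarith [hw.1]) hw.2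
  have hpt : c0 + c1 ∈ Ioo s (2 * c1) := by constructor <;> linarith
  have hev : lap g2 =ᶠ[𝓝 (c0 + c1)] NR H := by
    filter_upwards [Ioo_mem_nhds (show 2 * c0 < c0 + c1 by linarith)
      (show c0 + c1 < 2 * c1 by linarith)] with w hw
    have h1 := D.planch (σ := w / 2) (by linarith [hw.1]) (by linarith [hw.2])
    rw [show 2 * (w / 2) = w by ring] at h1
    have h2 := congrArg Complex.re h1
    rw [Complex.ofReal_re] at h2
    exact h2
  intro w hw1 hw2
  exact hA.eqOn_of_preconnected_of_eventuallyEq hB isPreconnected_Ioo hpt hev ⟨hw1, hw2⟩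

/-- **the square is integrable** -/
theorem TbData.conv (D : TbData h H K Θ c0 c1) : ∀ w > 2 * Θ, LInt (fun u => h u ^ 2) w := by
  set g2 : ℝ → ℝ := fun u => h u ^ 2 with hg2
  have hm : Measurable g2 := D.meas.pow_const 2
  have hnn : ∀ u, 0 < u → 0 ≤ g2 u := fun u _ => sq_nonneg _
  have hc := D.h1
  set T : Set ℝ := {w | 2 * Θ ≤ w ∧ ∀ w' > w, LInt g2 w'} with hT
  have h2c0 : 2 * c0 ∈ T := by
    refine ⟨by have := D.h0; linarith, fun w' hw' => ?_⟩
    have := D.i2 (w' / 2) (by have : 2 * c0 < w' := hw'; linarith)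
    rwa [show 2 * (w' / 2) = w' by ring] at this
  have hTne : T.Nonempty := ⟨_, h2c0⟩
  have hTb : BddBelow T := ⟨2 * Θ, fun w hw => hw.1⟩
  set s := sInf T with hs
  have hs0 : 2 * Θ ≤ s := le_csInf hTne fun w hw => hw.1
  have hs1 : s ≤ 2 * c0 := csInf_le hTb h2c0
  have hconv : ∀ w > s, LInt g2 w := by
    intro w hw
    obtain ⟨t, ht, htw⟩ := exists_lt_of_csInf_lt hTne hw
    exact ht.2 w htw
  rcases hs0.eq_or_lt with h0 | h0
  · rw [h0]; exact hconv
  exfalso
  have hgr : AnalyticAt ℝ (fun t : ℝ => NR H (-t)) (-s) := by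
    have h1 : AnalyticAt ℝ (NR H) (-(-s)) := by
      rw [neg_neg]; exact D.NR_analytic h0 (by linarith)
    exact AnalyticAt.fun_comp (g := NR H) (f := fun w : ℝ => -w) h1 (by fun_prop)
  obtain ⟨t, hts, ht⟩ := landau (X := id) (μ := dens g2) (dens_pos g2 hm) hgr
    (fun t ht => (mem_integrableExpSet_dens hm hnn t).mpr (hconv (-t) (by linarith))) (by
      filter_upwards [Ioo_mem_nhdsLT (show -(2 * c1) < -s by linarith)] with t ht
      rw [mgf_dens hm hnn]
      exact D.ident hs0 hs1 hconv (-t) (by linarith [ht.2]) (by linarith [ht.1]))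
  have ht1 : LInt g2 (-t) := (mem_integrableExpSet_dens hm hnn t).mp ht
  set t' : ℝ := max (-t) ((2 * Θ + s) / 2) with ht'
  have h5 : t' < s := max_lt (by linarith) (by linarith)
  have h6 : t' ∈ T := by
    refine ⟨le_trans (by linarith) (le_max_right _ _), fun w' hw' => ?_⟩
    exact ht1.mono hm (le_trans (le_max_left _ _) (le_of_lt hw'))
  have := csInf_le hTb h6
  linarith

/-- **the mean square bound** -/
theorem TbData.bound (D : TbData h H K Θ c0 c1) : ∃ C : ℝ, 0 ≤ C ∧ ∀ σ, Θ < σ → σ < c1 →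
    LInt (fun u => h u ^ 2) (2 * σ) ∧ lap (fun u => h u ^ 2) (2 * σ) ≤ C * K σ ^ 2 := by
  have hpi := Real.pi_pos
  have hI : 0 ≤ ∫ t : ℝ, wt t ^ 2 := integral_nonneg fun t => by positivity
  refine ⟨(1 / (2 * Real.pi)) * ∫ t : ℝ, wt t ^ 2, by positivity, fun σ h1 h2 => ?_⟩
  have hconv := D.conv
  refine ⟨hconv _ (by linarith), ?_⟩
  have e1 := D.ident le_rfl (by have := D.h0; linarith) hconv (2 * σ) (by linarith) (by linarith)
  rw [e1]
  unfold NR
  refine (Complex.re_le_norm _).trans ?_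
  rw [norm_mul]
  have e2 : ‖(1 / (2 * Real.pi) : ℂ)‖ = 1 / (2 * Real.pi) := by
    have : (1 / (2 * Real.pi) : ℂ) = ((1 / (2 * Real.pi) : ℝ) : ℂ) := by push_cast; rfl
    rw [this, Complex.norm_real, Real.norm_of_nonneg (by positivity)]
  rw [e2, mul_assoc]
  refine mul_le_mul_of_nonneg_left ?_ (by positivity)
  have e3 : ((2 * σ / 2 : ℝ) : ℂ) = σ := by
    congr 1; ring
  rw [e3]
  unfold NN
  rw [← integral_mul_const]
  refine norm_integral_le_of_norm_le (wt_sq_int.mul_const _) (Eventually.of_forall fun t => ?_)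
  have e4 := D.ig_bd (σ0 := σ) (Y := 0) h1 (w := (σ : ℂ)) (by simp) (by simpa using h2) (by simp) t
  refine e4.trans (le_of_eq ?_)
  ring

end Pool.Agent.V8H71.MS
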